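import Pool.Agent.H84.KL.GRW

/-! Facts on the weights. -/

open MeasureTheory Set
open scoped ENNReal NNReal RealInnerProductSpace

namespace Pool.Agent.H84.KL

noncomputable section

variable {d : ℕ}

lemma Wg_le (r : ℝ) (x : E d) : Wg r x ≤ 1 + d * (‖x‖ / |r|) ^ (2 * (d + 1)) := by
  unfold Wg
  have h : ∑ i : Fin d, (x i / r) ^ (2 * (d + 1)) ≤
      ∑ _i : Fin d, (‖x‖ / |r|) ^ (2 * (d + 1)) := by
    refine Finset.sum_le_sum fun i _ => ?_
    have h1 : |x i| ≤ ‖x‖ := by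
      have := PiLp.norm_apply_le x i
      simpa using this
    have h2 : (x i / r) ^ (2 * (d + 1)) = (|x i| / |r|) ^ (2 * (d + 1)) := by
      rw [pow_mul, pow_mul, ← sq_abs, abs_div]
    rw [h2]
    gcongr
  simp only [Finset.sum_const, Finset.card_univ, Fintype.card_fin, nsmul_eq_mul] at h
  linarith

lemma le_Wg (r : ℝ) (x : E d) : (‖x‖ / |r|) ^ (2 * (d + 1)) ≤ d ^ d * (Wg r x - 1) := by
  unfold Wg
  rcases Nat.eq_zero_or_pos d with hd | hd
  · subst hd
    have : x = 0 := by ext i; exact i.elim0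
    subst this; simp
  have h1 : (‖x‖ / |r|) ^ (2 * (d + 1)) = (∑ i : Fin d, (x i / r) ^ 2) ^ (d + 1) := by
    rw [pow_mul, div_pow, EuclideanSpace.norm_sq_eq, sq_abs, Finset.sum_div]
    congr 2
    ext i
    rw [Real.norm_eq_abs, sq_abs, div_pow]
  rw [h1]
  have h2 := pow_sum_div_card_le_sum_pow (s := Finset.univ) (f := fun i : Fin d => (x i / r) ^ 2)
    (n := d) (fun i _ => by positivity)
  simp only [Finset.card_univ, Fintype.card_fin] at h2
  have hd' : (0 : ℝ) < (d : ℝ) ^ d := by positivity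
  rw [div_le_iff₀ hd'] at h2
  have h3 : 1 + ∑ i : Fin d, (x i / r) ^ (2 * (d + 1)) - 1 =
      ∑ i : Fin d, ((x i / r) ^ 2) ^ (d + 1) := by
    rw [add_sub_cancel_left]
    exact Finset.sum_congr rfl fun i _ => by rw [pow_mul]
  rw [h3]
  linarith

/-- slow variation -/
lemma Wg_slow (C1 : ℝ) : ∃ C : ℝ, 0 < C ∧ ∀ (r : ℝ) (x h : E d), 0 < r → ‖h‖ ≤ C1 * r →
    Wg r (x + h) ≤ C * Wg r x := by
  refine ⟨1 + d * ((1 + |C1|) ^ (2 * (d + 1)) * (2 ^ (2 * (d + 1)) * (d ^ d + 1))), by positivity,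
    fun r x h hr hh => ?_⟩
  have h1 := Wg_le r (x + h)
  have h2 := le_Wg r x
  have hW := Wg_pos r x
  rw [abs_of_pos hr] at h1 h2
  have h3 : ‖x + h‖ / r ≤ 2 * (1 + |C1|) * max (‖x‖ / r) 1 := by
    have a1 : ‖x + h‖ ≤ ‖x‖ + ‖h‖ := norm_add_le _ _
    have a2 : ‖h‖ / r ≤ |C1| := by
      rw [div_le_iff₀ hr]; exact hh.trans (by gcongr; exact le_abs_self _)
    have a3 : ‖x‖ / r ≤ max (‖x‖ / r) 1 := le_max_left _ _
    have a4 : 1 ≤ max (‖x‖ / r) 1 := le_max_right _ _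
    have a5 : ‖x + h‖ / r ≤ ‖x‖ / r + ‖h‖ / r := by
      rw [← add_div]; gcongr
    have a6 : 0 ≤ |C1| := abs_nonneg _
    nlinarith
  have h4 : (‖x + h‖ / r) ^ (2 * (d + 1)) ≤
      (2 * (1 + |C1|)) ^ (2 * (d + 1)) * (max (‖x‖ / r) 1) ^ (2 * (d + 1)) := by
    rw [← mul_pow]; gcongr
  have h5 : (max (‖x‖ / r) 1) ^ (2 * (d + 1)) ≤ (d ^ d + 1) * Wg r x := by
    rcases le_total (‖x‖ / r) 1 with hle | hle
    · rw [max_eq_right hle, one_pow]
      have : (0 : ℝ) ≤ (d : ℝ) ^ d := by positivity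
      nlinarith
    · rw [max_eq_left hle]
      refine h2.trans ?_
      have : (0 : ℝ) ≤ (d : ℝ) ^ d := by positivity
      nlinarith
  calc Wg r (x + h) ≤ 1 + d * (‖x + h‖ / r) ^ (2 * (d + 1)) := h1
    _ ≤ 1 + d * ((2 * (1 + |C1|)) ^ (2 * (d + 1)) * ((d ^ d + 1) * Wg r x)) := by
        gcongr; exact h4.trans (by gcongr)
    _ ≤ Wg r x + d * ((2 * (1 + |C1|)) ^ (2 * (d + 1)) * ((d ^ d + 1) * Wg r x)) := by
        gcongr
    _ = _ := by rw [mul_pow]; ring

lemma wt_slow (C1 : ℝ) : ∃ C : ℝ, 0 < C ∧ ∀ (r : ℝ) (x h : E d), 0 < r → ‖h‖ ≤ C1 * r →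
    wt r (x + h) ≤ C * wt r x := by
  obtain ⟨C, hC, h⟩ := Wg_slow (d := d) C1
  refine ⟨C, hC, fun r x u hr hu => ?_⟩
  have h1 := h r (x + u) (-u) hr (by rwa [norm_neg])
  rw [add_neg_cancel_right] at h1
  have p1 := Wg_pos r x
  have p2 := Wg_pos r (x + u)
  unfold wt
  rw [inv_eq_one_div, inv_eq_one_div, mul_one_div, div_le_div_iff₀ (by linarith) (by linarith)]
  linarith

lemma Wg_anti (r r' : ℝ) (x : E d) (hr : 0 < r) (h : r ≤ r') : Wg r' x ≤ Wg r x := by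
  unfold Wg
  have h1 : ∀ i : Fin d, (x i / r') ^ (2 * (d + 1)) ≤ (x i / r) ^ (2 * (d + 1)) := by
    intro i
    rw [pow_mul, pow_mul]
    refine pow_le_pow_left₀ (by positivity) ?_ _
    rw [div_pow, div_pow]
    gcongr
  have := Finset.sum_le_sum fun i (_ : i ∈ Finset.univ) => h1 i
  linarith

lemma wt_mono (r r' : ℝ) (x : E d) (hr : 0 < r) (h : r ≤ r') : wt r x ≤ wt r' x := by
  have p1 := Wg_pos r' x
  unfold wt
  exact inv_anti₀ (by linarith) (Wg_anti r r' x hr h)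

lemma Wg_scale (r : ℝ) (x : E d) : Wg r x = Wg 1 (r⁻¹ • x) := by
  unfold Wg
  congr 1
  refine Finset.sum_congr rfl fun i _ => ?_
  congr 1
  simp [div_eq_inv_mul]

/-- two scales -/
lemma wt_two (L r : ℝ) (x : E d) (hL : 1 ≤ L) (hr : 0 < r) :
    wt r x ≤ wt (L * r) x * (wt r x + (L ^ (2 * (d + 1)))⁻¹) := by
  have p1 := Wg_pos r x
  have p2 := Wg_pos (L * r) x
  have hL' : 0 < L ^ (2 * (d + 1)) := by positivity
  have h1 : Wg (L * r) x ≤ 1 + (L ^ (2 * (d + 1)))⁻¹ * Wg r x := by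
    unfold Wg
    have h2 : ∑ i : Fin d, (x i / (L * r)) ^ (2 * (d + 1)) =
        (L ^ (2 * (d + 1)))⁻¹ * ∑ i : Fin d, (x i / r) ^ (2 * (d + 1)) := by
      rw [Finset.mul_sum]
      refine Finset.sum_congr rfl fun i _ => ?_
      rw [div_pow, mul_pow, div_pow]
      field_simp
    rw [h2]
    have h0 : 0 < (L ^ (2 * (d + 1)))⁻¹ := by positivity
    generalize (L ^ (2 * (d + 1)))⁻¹ = θ at h0 ⊢
    rw [mul_add, mul_one]
    linarith
  unfold wt
  rw [inv_mul_eq_div, le_div_iff₀ (by linarith), inv_mul_le_iff₀ (by linarith)]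
  calc Wg (L * r) x ≤ 1 + (L ^ (2 * (d + 1)))⁻¹ * Wg r x := h1
    _ = _ := by field_simp

lemma wt_integral : ∃ C : ℝ, 0 < C ∧ ∀ r : ℝ, 0 < r →
    ∫⁻ x : E d, ENNReal.ofReal (wt r x) ≤ ENNReal.ofReal (C * r ^ d) := by
  have hI : Integrable (fun x : E d => wt 1 x) := by
    have h1 : Integrable (fun x : E d => (1 + ‖x‖) ^ (-((d : ℝ) + 1))) :=
      integrable_one_add_norm (by simp)
    have h2 := h1.const_mul (2 ^ (2 * (d + 1)) * (d ^ d + 1))
    refine h2.mono' (continuous_wt 1).aestronglyMeasurable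
      (Filter.Eventually.of_forall fun x => ?_)
    rw [Real.norm_eq_abs, abs_of_pos (wt_pos 1 x)]
    have h3 := le_Wg 1 x
    have hW := Wg_pos 1 x
    rw [abs_one, div_one] at h3
    have hx : 0 ≤ ‖x‖ := norm_nonneg x
    have h4 : (1 + ‖x‖) ^ (d + 1) ≤ 2 ^ (2 * (d + 1)) * (d ^ d + 1) * Wg 1 x := by
      have hd : (0 : ℝ) ≤ (d : ℝ) ^ d := by positivity
      have a0 : (1 + ‖x‖) ^ (d + 1) ≤ (2 * max ‖x‖ 1) ^ (2 * (d + 1)) := by
        have a1 : 1 + ‖x‖ ≤ 2 * max ‖x‖ 1 := by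
          have := le_max_left ‖x‖ 1
          have := le_max_right ‖x‖ 1
          linarith
        have a2 : 1 ≤ 2 * max ‖x‖ 1 := by
          have := le_max_right ‖x‖ 1
          linarith
        calc (1 + ‖x‖) ^ (d + 1) ≤ (2 * max ‖x‖ 1) ^ (d + 1) := by gcongr
          _ ≤ (2 * max ‖x‖ 1) ^ (2 * (d + 1)) := pow_le_pow_right₀ a2 (by omega)
      have a3 : (max ‖x‖ 1) ^ (2 * (d + 1)) ≤ (d ^ d + 1) * Wg 1 x := by
        rcases le_total ‖x‖ 1 with hle | hle
        · rw [max_eq_right hle, one_pow]; nlinarith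
        · rw [max_eq_left hle]; refine h3.trans ?_; nlinarith
      refine a0.trans ?_
      rw [mul_pow, mul_assoc]
      gcongr
    rw [show -((d : ℝ) + 1) = -((d + 1 : ℕ) : ℝ) by push_cast; ring, Real.rpow_neg (by positivity),
      Real.rpow_natCast]
    unfold wt
    rw [← div_eq_mul_inv, le_div_iff₀ (by positivity), inv_mul_le_iff₀ (by linarith)]
    linarith
  refine ⟨∫ x : E d, wt 1 x, ?_, fun r hr => ?_⟩
  · refine (integral_pos_iff_support_of_nonneg (fun x => (wt_pos 1 x).le) hI).2 ?_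
    have : Function.support (fun x : E d => wt 1 x) = univ := by
      ext x; simp [(wt_pos 1 x).ne']
    rw [this]
    exact Measure.measure_univ_pos.2 (NeZero.ne _)
  · have h1 : (∫ x : E d, wt r x) = (∫ x : E d, wt 1 x) * r ^ d := by
      have h2 := Measure.integral_comp_inv_smul (volume : Measure (E d)) (fun x => wt 1 x) r
      have h3 : (∫ x : E d, wt r x) = ∫ x : E d, wt 1 (r⁻¹ • x) := by
        refine integral_congr_ae (Filter.Eventually.of_forall fun x => ?_)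
        simp only [wt]; rw [Wg_scale]
      rw [h3, h2, finrank_euclideanSpace_fin, abs_of_pos (by positivity), smul_eq_mul, mul_comm]
    have hIr : Integrable (fun x : E d => wt r x) := by
      have h3 : (fun x : E d => wt r x) = fun x : E d => wt 1 (r⁻¹ • x) := by
        ext x
        simp only [wt]; rw [Wg_scale]
      rw [h3]
      exact hI.comp_smul (inv_ne_zero hr.ne')
    rw [← h1, ofReal_integral_eq_lintegral_ofReal hIr
      (Filter.Eventually.of_forall fun x => (wt_pos r x).le)]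

end

end Pool.Agent.H84.KL
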