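import Pool.Agent.H84.KL.MOL
import Pool.Agent.H82.KL.Targets
import Pool.Agent.H60.KL.MCB
import Pool.Agent.H63.KL.LWK
import Pool.Agent.H63.KL.INN
import Pool.Agent.H63.KL.CPL

/-! The discrete multilinear restriction theorem for the cone. -/

open MeasureTheory Set
open scoped ENNReal NNReal RealInnerProductSpace Topology

namespace Pool.Agent.H84.KL

noncomputable section

variable {d : ℕ}

lemma e_eq82 (x : ℝ) : Pool.Agent.H82.KL.e x = e x := by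
  unfold Pool.Agent.H82.KL.e e
  congr 1; push_cast; ring

lemma U_eq82 (b : E d → ℂ) (z : E d × ℝ) : Pool.Agent.H82.KL.U b z = U b z.1 z.2 := by
  unfold Pool.Agent.H82.KL.U U
  simp_rw [e_eq82]

lemma l2_real (b : E d → ℂ) (hb : Continuous b) (hc : HasCompactSupport b) :
    l2 b = ENNReal.ofReal (∫ ξ, ‖b ξ‖ ^ 2) := by
  unfold l2
  rw [ofReal_integral_eq_lintegral_ofReal]
  · have h1 : Continuous (fun ξ => ‖b ξ‖ ^ 2) := by fun_prop
    refine h1.integrable_of_hasCompactSupport ?_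
    exact hc.comp_left (g := fun z : ℂ => ‖z‖ ^ 2) (by simp)
  · exact Filter.Eventually.of_forall fun x => by positivity

/-- one factor: smoothing -/
lemma smooth_factor (Γ : Set (E d)) (hΓ : IsCompact Γ) (δ : ℝ) (hδ : 0 < δ) (b : E d → ℂ)
    (hb : Continuous b) (hbs : Function.support b ⊆ Γ) (z : E d × ℝ)
    (hz : 1 ≤ ‖U b z.1 z.2‖) :
    ∃ b' : E d → ℂ, TS (Metric.cthickening δ Γ) b' ∧
      (∀ z : E d × ℝ, 1 ≤ ‖U b z.1 z.2‖ → 1 ≤ ‖U b' z.1 z.2‖) ∧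
      l2 b' ≤ ENNReal.ofReal 12 * l2 b := by
  have hlow := l2_lower Γ hΓ b hb hbs z hz
  set V : ℝ := (volume Γ).toReal + 1 with hV
  have hV0 : 0 < V := by positivity
  have hVK : volume Γ ≤ ENNReal.ofReal V := by
    rw [← ENNReal.ofReal_toReal hΓ.measure_lt_top.ne]
    refine ENNReal.ofReal_le_ofReal ?_
    rw [hV]; linarith
  have hlow2 : ENNReal.ofReal V⁻¹ ≤ l2 b := by
    have h1 : (1 : ℝ≥0∞) ≤ ENNReal.ofReal V * l2 b := hlow.trans (by gcongr)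
    calc ENNReal.ofReal V⁻¹ = ENNReal.ofReal V⁻¹ * 1 := (mul_one _).symm
      _ ≤ ENNReal.ofReal V⁻¹ * (ENNReal.ofReal V * l2 b) := by gcongr
      _ = l2 b := by
          rw [← mul_assoc, ← ENNReal.ofReal_mul (by positivity), inv_mul_cancel₀ hV0.ne',
            ENNReal.ofReal_one, one_mul]
  obtain ⟨b1, hb1, hb2, hb3⟩ := mollify Γ hΓ δ hδ b hb hbs (min (1 / 2) V⁻¹)
    (lt_min (by norm_num) (by positivity))
  refine ⟨fun ξ => ((2 : ℝ) : ℂ) * b1 ξ, ?_, ?_, ?_⟩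
  · refine ⟨⟨contDiff_const.mul hb1.1.1, hb1.1.2.mul_left⟩, ?_⟩
    intro ξ hξ
    have h5 : b1 ξ ≠ 0 := by
      intro h'
      have h6 : ((2 : ℝ) : ℂ) * b1 ξ = 0 := by rw [h', mul_zero]
      exact hξ h6
    exact hb1.2 h5
  · intro z hz
    rw [U_smul, norm_mul, Complex.norm_real, Real.norm_eq_abs, abs_of_pos (by norm_num)]
    have h1 := (hb2 z).trans (min_le_left _ _)
    have h2 : ‖U b z.1 z.2‖ ≤ ‖U b z.1 z.2 - U b1 z.1 z.2‖ + ‖U b1 z.1 z.2‖ := by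
      calc ‖U b z.1 z.2‖ = ‖(U b z.1 z.2 - U b1 z.1 z.2) + U b1 z.1 z.2‖ := by
            congr 1; ring
        _ ≤ _ := norm_add_le _ _
    linarith
  · have h1 : l2 (fun ξ => ((2 : ℝ) : ℂ) * b1 ξ) = ENNReal.ofReal 4 * l2 b1 := by
      unfold l2
      rw [← lintegral_const_mul' _ _ ENNReal.ofReal_ne_top]
      refine lintegral_congr fun ξ => ?_
      rw [← ENNReal.ofReal_mul (by norm_num), norm_mul, Complex.norm_real, Real.norm_eq_abs,
        abs_of_pos (by norm_num), mul_pow]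
      norm_num
    rw [h1]
    have h2 : l2 b1 ≤ ENNReal.ofReal 3 * l2 b := by
      refine hb3.trans ?_
      have h3 : ENNReal.ofReal (min (1 / 2) V⁻¹) ≤ l2 b :=
        (ENNReal.ofReal_le_ofReal (min_le_right _ _)).trans hlow2
      calc 2 * l2 b + ENNReal.ofReal (min (1 / 2) V⁻¹) ≤ 2 * l2 b + l2 b := by gcongr
        _ = 3 * l2 b := by ring
        _ = _ := by simp
    calc ENNReal.ofReal 4 * l2 b1 ≤ ENNReal.ofReal 4 * (ENNReal.ofReal 3 * l2 b) := by gcongr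
      _ = _ := by
          rw [← mul_assoc, ← ENNReal.ofReal_mul (by norm_num)]
          norm_num

theorem mlr_main : Pool.Agent.H82.KL.T_MLR := by
  intro d k Γ ε hk hε hc h0 hT
  have hL := Pool.Agent.H63.KL.lwk_main
  have hI := Pool.Agent.H63.KL.inn_main
  have hQ := Pool.Agent.H60.KL.cub_main
  have hP := Pool.Agent.H63.KL.cpl_main
  by_cases hne : ∀ j, (Γ j).Nonempty
  swap
  · -- one of the sets is empty
    push Not at hne
    obtain ⟨j, hj⟩ := hne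
    refine ⟨0, le_rfl, ?_⟩
    intro R b z₀ Y _ _ hbs _ _ hU
    have hY : Y = ∅ := by
      rw [Finset.eq_empty_iff_forall_notMem]
      intro z hz
      have h1 := hU z hz j
      have h2 : ∀ ξ, b j ξ = 0 := by
        intro ξ
        by_contra h
        have := hbs j ξ h
        rw [hj] at this
        exact this
      have h3 : Pool.Agent.H82.KL.U (b j) z = 0 := by
        unfold Pool.Agent.H82.KL.U
        simp [h2]
      rw [h3, norm_zero] at h1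
      linarith
    subst hY
    simp
  have hT' : ∀ ξ : Fin k → E d, (∀ j, ξ j ∈ Γ j) →
      LinearIndependent ℝ (fun j => ((‖ξ j‖⁻¹ • ξ j, 1) : E d × ℝ)) := hT
  obtain ⟨m, Cb, δ1, hkm, hδ1, htr⟩ := hP d k Γ hc hne h0 hT'
  -- a small neighbourhood
  obtain ⟨c, hcp, hcΓ⟩ : ∃ c > 0, ∀ j, ∀ ξ ∈ Γ j, c ≤ ‖ξ‖ := by
    have hcU : IsCompact (⋃ j, Γ j) := isCompact_iUnion hc
    have h0U : (0 : E d) ∉ ⋃ j, Γ j := by simpa using h0
    have h1 : (⋃ j, Γ j)ᶜ ∈ 𝓝 (0 : E d) := hcU.isClosed.isOpen_compl.mem_nhds h0U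
    obtain ⟨c, hc, hcs⟩ := Metric.mem_nhds_iff.1 h1
    refine ⟨c, hc, fun j ξ hξ => ?_⟩
    by_contra hlt
    exact hcs (by simpa using not_le.1 hlt) (mem_iUnion.2 ⟨j, hξ⟩)
  set δ2 := min δ1 (c / 2) with hδ2
  have hδ2p : 0 < δ2 := lt_min hδ1 (by positivity)
  set Γj : Fin k → Set (E d) := fun j => Metric.cthickening δ2 (Γ j) with hΓj
  have hΓjc : ∀ j, IsCompact (Γj j) := fun j => (hc j).cthickening
  have hmem : ∀ j, ∀ ξ ∈ Γj j, ∃ η ∈ Γ j, ‖ξ - η‖ ≤ δ2 := by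
    intro j ξ hξ
    simp only [hΓj] at hξ
    rw [(hc j).cthickening_eq_biUnion_closedBall hδ2p.le] at hξ
    simp only [mem_iUnion, Metric.mem_closedBall] at hξ
    obtain ⟨η, hη, hd⟩ := hξ
    exact ⟨η, hη, by rwa [← dist_eq_norm]⟩
  have h0j : (0 : E d) ∉ ⋃ j, Γj j := by
    intro h
    obtain ⟨j, hj⟩ := mem_iUnion.1 h
    obtain ⟨η, hη, hd⟩ := hmem j 0 hj
    rw [zero_sub, norm_neg] at hd
    have h1 := hcΓ j η hη
    have h2 := hd.trans (min_le_right _ _)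
    linarith
  obtain ⟨C, hC, hpar⟩ := par hL hI hQ d k m (⋃ j, Γj j) Γj Cb ε hk hkm
    (isCompact_iUnion hΓjc) h0j hε hΓjc (fun j => subset_iUnion Γj j)
    (fun ξ hξ => htr ξ fun j => by
      obtain ⟨η, hη, hd⟩ := hmem j (ξ j) (hξ j)
      exact ⟨η, hη, hd.trans (min_le_left _ _)⟩)
  set q : ℝ := 1 / ((k : ℝ) - 1) with hq
  have hk1 : (0 : ℝ) < (k : ℝ) - 1 := by
    have : (2 : ℝ) ≤ k := by exact_mod_cast hk
    linarith
  have hq0 : 0 < q := by positivity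
  refine ⟨C * ((12 : ℝ) ^ q) ^ k, by positivity, ?_⟩
  intro R b z₀ Y hR hbc hbs hYs hYR hYU
  have hint0 : ∀ j, 0 ≤ ∫ ξ, ‖b j ξ‖ ^ 2 := fun j =>
    integral_nonneg fun ξ => by positivity
  rcases Y.eq_empty_or_nonempty with hY | ⟨y0, hy0⟩
  · subst hY
    simp only [Finset.card_empty, Nat.cast_zero]
    have : 0 ≤ ∏ j, (∫ ξ, ‖b j ξ‖ ^ 2) ^ q :=
      Finset.prod_nonneg fun j _ => Real.rpow_nonneg (hint0 j) _
    positivity
  have hsup : ∀ j, Function.support (b j) ⊆ Γ j := fun j ξ hξ => hbs j ξ hξ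
  have hYU' : ∀ y ∈ Y, ∀ j, 1 ≤ ‖U (b j) y.1 y.2‖ := by
    intro y hy j
    have := hYU y hy j
    rwa [U_eq82] at this
  have hsm : ∀ j, ∃ b' : E d → ℂ, TS (Γj j) b' ∧
      (∀ z : E d × ℝ, 1 ≤ ‖U (b j) z.1 z.2‖ → 1 ≤ ‖U b' z.1 z.2‖) ∧
      l2 b' ≤ ENNReal.ofReal 12 * l2 (b j) := fun j =>
    smooth_factor (Γ j) (hc j) δ2 hδ2p (b j) (hbc j) (hsup j) y0 (hYU' y0 hy0 j)
  choose b' hb'1 hb'2 hb'3 using hsm
  have hmain := hpar R b' z₀ Y hR hb'1
    (fun y hy => by rw [← dist_eq_norm]; exact hYR y hy)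
    (fun y hy y' hy' hne' => by rw [← dist_eq_norm]; exact hYs y hy y' hy' hne')
    (fun y hy j => hb'2 j y (hYU' y hy j))
  have hprod : ∏ j, l2 (b' j) ^ q ≤ ENNReal.ofReal (((12 : ℝ) ^ q) ^ k *
      ∏ j, (∫ ξ, ‖b j ξ‖ ^ 2) ^ q) := by
    calc ∏ j, l2 (b' j) ^ q ≤ ∏ j, (ENNReal.ofReal 12 * l2 (b j)) ^ q :=
          Finset.prod_le_prod' fun j _ => ENNReal.rpow_le_rpow (hb'3 j) hq0.le
      _ = ∏ j, ENNReal.ofReal ((12 : ℝ) ^ q * (∫ ξ, ‖b j ξ‖ ^ 2) ^ q) := by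
          refine Finset.prod_congr rfl fun j _ => ?_
          rw [l2_real (b j) (hbc j) (HasCompactSupport.of_support_subset_isCompact (hc j) (hsup j)),
            ← ENNReal.ofReal_mul (by norm_num), ENNReal.ofReal_rpow_of_nonneg
              (mul_nonneg (by norm_num) (hint0 j)) hq0.le,
            Real.mul_rpow (by norm_num) (hint0 j)]
      _ = _ := by
          rw [← ENNReal.ofReal_prod_of_nonneg, Finset.prod_mul_distrib, Finset.prod_const,
            Finset.card_univ, Fintype.card_fin]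
          intro j _
          exact mul_nonneg (by positivity) (Real.rpow_nonneg (hint0 j) _)
  have hfin : ENNReal.ofReal (Y.card : ℝ) ≤ ENNReal.ofReal (C * ((12 : ℝ) ^ q) ^ k * R ^ ε *
      ∏ j, (∫ ξ, ‖b j ξ‖ ^ 2) ^ q) := by
    rw [ENNReal.ofReal_natCast]
    refine hmain.trans ((mul_le_mul' le_rfl hprod).trans (le_of_eq ?_))
    rw [← ENNReal.ofReal_mul (by positivity)]
    congr 1; ring
  have hnn : 0 ≤ C * ((12 : ℝ) ^ q) ^ k * R ^ ε * ∏ j, (∫ ξ, ‖b j ξ‖ ^ 2) ^ q := by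
    have : 0 ≤ ∏ j, (∫ ξ, ‖b j ξ‖ ^ 2) ^ q :=
      Finset.prod_nonneg fun j _ => Real.rpow_nonneg (hint0 j) _
    positivity
  exact (ENNReal.ofReal_le_ofReal_iff hnn).1 hfin

end

end Pool.Agent.H84.KL
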