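import Pool.Agent.H84.KL.Defs

/-! Elementary targets for the discrete `k`-linear restriction theorem (MP_ee74d2_an, MLR). -/

open MeasureTheory Set
open scoped ENNReal NNReal RealInnerProductSpace

namespace Pool.Agent.H84.KL

noncomputable section

/-- MLW: Loomis-Whitney with passive variables -/
def T_LWK : Prop := ∀ (k m : ℕ) (C0 : ℝ), 2 ≤ k → ∃ C : ℝ, 0 < C ∧ ∀ (r : ℝ)
  (S S' : Set (Fin m → ℝ)) (f : Fin k → Co k m → ℝ≥0∞), 0 < r → MeasurableSet S →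
  MeasurableSet S' → (∀ w ∈ S, ∀ w', ‖w - w'‖ ≤ r → w' ∈ S') → (∀ i, Measurable (f i)) →
  (∀ i (a : Co k m) (t : ℝ), f i (Function.update a.1 i t, a.2) = f i a) →
  (∀ i (a : Fin k → ℝ) (w w' : Fin m → ℝ), w ∈ S → ‖w - w'‖ ≤ r →
    f i (a, w) ≤ ENNReal.ofReal C0 * f i (a, w')) →
  (∫⁻ a in {a : Co k m | a.2 ∈ S}, ∏ i, f i a ^ (1 / ((k : ℝ) - 1))) ≤
    ENNReal.ofReal (C * r ^ (-((m : ℝ) / ((k : ℝ) - 1)))) *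
    ∏ i, (∫⁻ a in {a : Co k m | (0 ≤ a.1 i ∧ a.1 i < 1) ∧ a.2 ∈ S'}, f i a) ^
      (1 / ((k : ℝ) - 1))

/-- MIN: the inner integral -/
def T_INN : Prop := ∀ (d k m : ℕ) (Cb B : ℝ), k + m = d + 1 → ∃ C : ℝ, 0 < C ∧
  ∀ (i : Fin k) (v : Fin k → E d) (g : Fin m → E d × ℝ) (L r : ℝ) (x : E d) (c : Co k m),
  1 ≤ L → 0 < r → (∀ j, ‖v j‖ ≤ 1) → (∀ j, ‖g j‖ ≤ Cb) →
  (∀ a : Co k m, ‖a‖ ≤ Cb * ‖Ps v g a‖) →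
  (∫⁻ a in {a : Co k m | (0 ≤ a.1 i ∧ a.1 i < 1) ∧
      (∀ j, j ≠ i → |a.1 j - c.1 j| ≤ B * (L * r)) ∧ ∀ j, |a.2 j - c.2 j| ≤ B * (L * r)},
      ENNReal.ofReal (wt r (x - La v g i a))) ≤
    ENNReal.ofReal (C * r ^ d * wt (L * r) (x - La v g i c))

/-- MCB: subdivision of cubes -/
def T_CUB : Prop := ∀ (k m : ℕ),
  (∀ (c : Co k m) (r : ℝ), 0 ≤ r → volume (Qb c r) = ENNReal.ofReal (r ^ (k + m))) ∧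
  ∀ (f g : Co k m → ℝ≥0∞) (ρ : ℝ) (K : ℝ≥0∞) (N : ℕ), 0 < ρ → 1 ≤ N → Measurable f →
  Measurable g → (∀ c, ∫⁻ a in Qb c ρ, f a ≤ K * ∫⁻ a in Qb c ρ, g a) →
  ∀ c, ∫⁻ a in Qb c (N * ρ), f a ≤ K * ∫⁻ a in Qb c (N * ρ), g a

/-- MCP: transversality with constants, a bounded complement for tuples near given sets -/
def T_CPL : Prop := ∀ (d k : ℕ) (Γ : Fin k → Set (E d)), (∀ j, IsCompact (Γ j)) →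
  (∀ j, (Γ j).Nonempty) → (∀ j, (0 : E d) ∉ Γ j) →
  (∀ ξ : Fin k → E d, (∀ j, ξ j ∈ Γ j) →
    LinearIndependent ℝ (fun j => ((‖ξ j‖⁻¹ • ξ j, 1) : E d × ℝ))) →
  ∃ (m : ℕ) (Cb δ : ℝ), k + m = d + 1 ∧ 0 < δ ∧
    ∀ ξ : Fin k → E d, (∀ j, ∃ η ∈ Γ j, ‖ξ j - η‖ ≤ δ) →
    ∃ g : Fin m → E d × ℝ, (∀ j, ‖g j‖ ≤ Cb) ∧
    ∀ c : Co k m, ‖c‖ ≤ Cb * ‖Ps (fun j => -(‖ξ j‖⁻¹ • ξ j)) g c‖

end

end Pool.Agent.H84.KL
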