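import Pool.Agent.H84.KL.TRN

/-! Pointwise bound by the energy at scale `1`. -/

open MeasureTheory Set SchwartzMap FourierTransform
open scoped ENNReal NNReal RealInnerProductSpace Topology

namespace Pool.Agent.H84.KL

noncomputable section

variable {d : ℕ}

/-- the multipliers `χ e(τ N)`: uniform bound of the growing energy -/
lemma mult_unif (Γ : Set (E d)) (hΓ : IsCompact Γ) (h0 : (0 : E d) ∉ Γ) :
    ∃ M : ℝ≥0∞, M ≠ ⊤ ∧ ∀ τ : ℝ, |τ| ≤ 1 → ∃ mu : E d → ℂ, TC mu ∧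
      (∀ ξ ∈ Γ, mu ξ = e (τ * ‖ξ‖)) ∧ Gn 1 (Fi mu) ≤ M := by
  obtain ⟨c, hc, hcΓ⟩ : ∃ c > 0, ∀ ξ ∈ Γ, c ≤ ‖ξ‖ := by
    have h1 : Γᶜ ∈ 𝓝 (0 : E d) := hΓ.isClosed.isOpen_compl.mem_nhds h0
    obtain ⟨c, hc, hcs⟩ := Metric.mem_nhds_iff.1 h1
    refine ⟨c, hc, fun ξ hξ => ?_⟩
    by_contra hlt
    exact hcs (by simpa using not_le.1 hlt) hξ
  obtain ⟨R, hR⟩ : ∃ R : ℝ, ∀ ξ ∈ Γ, ‖ξ‖ ≤ R :=
    hΓ.exists_bound_of_continuousOn continuous_id.continuousOn
  set R0 := |R| + 1 with hR0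
  have hR0p : 0 < R0 := by positivity
  obtain ⟨N, hNs, hN⟩ := exists_smooth_norm (d := d) c hc
  set K := Metric.closedBall (0 : E d) (R0 + 1) with hK
  have hKc : IsCompact K := isCompact_closedBall _ _
  obtain ⟨B, hB, hB1, hB2⟩ := norm_bounds N hNs K hKc (d + 2)
  let ρ : ContDiffBump (0 : E d) := ⟨R0, R0 + 1, hR0p, by linarith⟩
  set χ : E d → ℂ := fun ξ => (ρ ξ : ℂ) with hχ
  have hχT : TC χ := by
    refine ⟨Complex.ofRealCLM.contDiff.comp ρ.contDiff, ?_⟩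
    exact ρ.hasCompactSupport.comp_left (g := fun x : ℝ => (x : ℂ)) (by simp)
  have hχ0 : ∀ ξ, ξ ∉ K → χ ξ = 0 := by
    intro ξ hξ
    have : ρ ξ = 0 := by
      refine ρ.zero_of_le_dist ?_
      change R0 + 1 ≤ _
      rw [hK, Metric.mem_closedBall, not_le] at hξ
      exact hξ.le
    simp only [hχ, this, Complex.ofReal_zero]
  obtain ⟨B', hB', hB0', hB1'⟩ := bump_bounds χ hχT (d + 1)
  set A := B' + ∑ j ∈ Finset.range (d + 2), Kp B j * B' with hA
  have hAs : 0 ≤ ∑ j ∈ Finset.range (d + 2), Kp B j * B' :=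
    Finset.sum_nonneg fun j _ => mul_nonneg (Kp_nonneg hB j) hB'
  have hA0 : 0 ≤ A := by positivity
  refine ⟨(1 + d) * (ENNReal.ofReal (A ^ 2) * volume K), ?_, ?_⟩
  · refine ENNReal.mul_ne_top (by simp) (ENNReal.mul_ne_top ENNReal.ofReal_ne_top ?_)
    exact hKc.measure_lt_top.ne
  intro τ hτ
  set mu : E d → ℂ := fun ξ => χ ξ * e (τ * N ξ) with hmu
  have hmuT : TC mu :=
    ⟨hχT.1.mul (contDiff_e.comp (contDiff_const.mul hNs)), hχT.2.mul_right⟩
  refine ⟨mu, hmuT, ?_, ?_⟩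
  · intro ξ hξ
    have h1 : ρ ξ = 1 := by
      refine ρ.one_of_mem_closedBall ?_
      rw [Metric.mem_closedBall, dist_zero_right]
      change _ ≤ R0
      have := hR ξ hξ
      have := le_abs_self R
      linarith
    have h2 : N ξ = ‖ξ‖ := hN ξ (by have := hcΓ ξ hξ; linarith)
    simp only [hmu, hχ, h1, h2, Complex.ofReal_one, one_mul]
  -- bounds
  have hz : ∀ ξ, ξ ∉ K → mu ξ = 0 := by
    intro ξ hξ; simp only [hmu, hχ0 ξ hξ, zero_mul]
  have hb0 : ∀ ξ, ‖mu ξ‖ ≤ A := by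
    intro ξ
    simp only [hmu, norm_mul, norm_e, mul_one]
    exact (hB0' ξ).trans (by linarith)
  have hzd : ∀ (i : Fin d) (ξ : E d), ξ ∉ K → pd i (d + 1) mu ξ = 0 := by
    intro i ξ hξ
    have hev : (fun t : ℝ => mu (ξ + t • ev i)) =ᶠ[𝓝 0] fun _ => 0 := by
      have hcont : Continuous fun t : ℝ => ξ + t • (ev i : E d) := by fun_prop
      have h1 : {t : ℝ | ξ + t • (ev i : E d) ∈ Kᶜ} ∈ 𝓝 (0 : ℝ) :=
        (hKc.isClosed.isOpen_compl.preimage hcont).mem_nhds (by simpa using hξ)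
      filter_upwards [h1] with t ht
      exact hz _ ht
    unfold pd
    rw [hev.iteratedDeriv_eq, iteratedDeriv_const]
    simp
  have hbd : ∀ (i : Fin d) (ξ : E d), ‖pd i (d + 1) mu ξ‖ ≤ A := by
    intro i ξ
    by_cases hξ : ξ ∈ K
    · have key := phase_bound (d + 1) (fun t : ℝ => χ (ξ + t • ev i))
        (fun t : ℝ => τ * N (ξ + t • ev i)) 0 1 B B' one_pos hB hB'
        (line_smooth χ hχT.1 i ξ)
        (by
          refine contDiff_const.mul (hNs.comp ?_)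
          fun_prop)
        (by
          intro l hl
          have h3 : ContDiff ℝ (⊤ : ℕ∞) (fun ξ => τ * N ξ) := contDiff_const.mul hNs
          rw [← iteratedDeriv_succ']
          rw [show (fun t : ℝ => τ * N (ξ + t • ev i)) =
            fun t : ℝ => (fun ξ => τ * N ξ) (ξ + t • ev i) from rfl, iter_line _ h3]
          simp only [zero_smul, add_zero]
          rw [Dv_iter_const_mul i _ τ N hNs]
          simp only
          rw [norm_mul, Real.norm_eq_abs, one_pow, mul_one]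
          have h4 := hB1 i (l + 1) (by omega) ξ hξ
          calc |τ| * ‖((Dv i)^[l + 1] N) ξ‖ ≤ 1 * B := by gcongr
            _ = B := one_mul B)
        (by
          intro l hl
          rw [iter_line χ hχT.1]
          simp only [zero_smul, add_zero, one_pow, mul_one]
          exact hB1' i l (by omega) ξ)
      change ‖iteratedDeriv (d + 1) (fun s => χ (ξ + s • ev i) *
        e (τ * N (ξ + s • ev i))) 0‖ ≤ _
      refine key.trans ?_
      rw [one_pow, mul_one]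
      have h1 : Kp B (d + 1) * B' ≤ ∑ j ∈ Finset.range (d + 2), Kp B j * B' :=
        Finset.single_le_sum (f := fun j => Kp B j * B')
          (fun j _ => mul_nonneg (Kp_nonneg hB j) hB') (Finset.mem_range.2 (by omega))
      linarith
    · rw [hzd i ξ hξ, norm_zero]; exact hA0
  -- integration
  have hI : ∀ f : E d → ℂ, (∀ ξ, ξ ∉ K → f ξ = 0) → (∀ ξ, ‖f ξ‖ ≤ A) →
      ∫⁻ ξ, ENNReal.ofReal (‖f ξ‖ ^ 2) ≤ ENNReal.ofReal (A ^ 2) * volume K := by
    intro f hf0 hfA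
    calc ∫⁻ ξ, ENNReal.ofReal (‖f ξ‖ ^ 2) ≤
          ∫⁻ ξ, K.indicator (fun _ => ENNReal.ofReal (A ^ 2)) ξ := by
          refine lintegral_mono fun ξ => ?_
          by_cases hξ : ξ ∈ K
          · rw [indicator_of_mem hξ]
            refine ENNReal.ofReal_le_ofReal ?_
            have := hfA ξ
            gcongr
          · rw [hf0 ξ hξ]; simp
      _ = _ := by
          rw [lintegral_indicator hKc.isClosed.measurableSet, setLIntegral_const]
  have hG := Gn_eq (toS hmuT) 1 one_pos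
  rw [toS_coe] at hG
  change Gn 1 (fun x => Fi mu x) ≤ _
  rw [hG, add_mul, one_mul]
  refine add_le_add (hI mu hz hb0) ?_
  calc ∑ i : Fin d, ENNReal.ofReal (((2 * Real.pi * 1) ^ (2 * (d + 1)))⁻¹) *
        ∫⁻ ξ, ENNReal.ofReal (‖pd i (d + 1) mu ξ‖ ^ 2)
      ≤ ∑ _i : Fin d, 1 * (ENNReal.ofReal (A ^ 2) * volume K) := by
        refine Finset.sum_le_sum fun i _ => mul_le_mul' ?_ (hI _ (hzd i) (hbd i))
        rw [ENNReal.ofReal_le_one]
        refine inv_le_one_of_one_le₀ (one_le_pow₀ ?_)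
        have := Real.pi_gt_three; linarith
    _ = _ := by
        rw [Finset.sum_const, Finset.card_univ, Fintype.card_fin, nsmul_eq_mul, one_mul]

theorem ber (Γ : Set (E d)) (hΓ : IsCompact Γ) (h0 : (0 : E d) ∉ Γ) :
    ∃ C : ℝ, 0 < C ∧ ∀ (b : E d → ℂ), TS Γ b → ∀ (p p' : E d × ℝ), ‖p - p'‖ ≤ 1 →
      ENNReal.ofReal (‖U b p.1 p.2‖ ^ 2) ≤ ENNReal.ofReal C * EU 1 b p' := by
  obtain ⟨M, hM, hmult⟩ := mult_unif Γ hΓ h0
  obtain ⟨C2, hC2, hslow⟩ := Wg_slow (d := d) 1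
  refine ⟨C2 * M.toReal + 1, by positivity, ?_⟩
  intro b hb p p' hp
  have hts : tsupport b ⊆ Γ := closure_minimal hb.2 hΓ.isClosed
  have h0b : (0 : E d) ∉ tsupport b := fun h => h0 (hts h)
  have hx : ‖p.1 - p'.1‖ ≤ 1 := (norm_fst_le (p - p')).trans hp
  have ht : |p.2 - p'.2| ≤ 1 := by
    have := (norm_snd_le (p - p')).trans hp
    rwa [Prod.snd_sub, Real.norm_eq_abs] at this
  obtain ⟨mu, hmuT, hmu1, hmuG⟩ := hmult (p'.2 - p.2) (by rwa [abs_sub_comm])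
  have hbt := TC_bt hb.1 h0b p'.2
  set G : 𝓢(E d, ℂ) := toS hbt with hG
  set F : 𝓢(E d, ℂ) := toS (TC_e hmuT (-p.1)) with hF
  -- the identity
  have hU : U b p.1 p.2 = ∫ x, (starRingEnd ℂ) (Fi F x) * Fi G x := by
    rw [planch]
    unfold U
    refine integral_congr_ae (Filter.Eventually.of_forall fun ξ => ?_)
    simp only [hF, hG, toS_coe, bt]
    by_cases hbξ : b ξ = 0
    · simp [hbξ]
    · have hξ : ξ ∈ Γ := hb.2 hbξ
      rw [hmu1 ξ hξ, map_mul, ← e_neg, ← e_neg]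
      have : ⟪p.1, ξ⟫ + p.2 * ‖ξ‖ = -⟪-p.1, ξ⟫ + (-((p'.2 - p.2) * ‖ξ‖) + p'.2 * ‖ξ‖) := by
        rw [inner_neg_left]; ring
      rw [this, e_add, e_add]
      ring
  have hFx : ∀ x, Fi F x = Fi mu (x - p.1) := by
    intro x
    rw [hF, toS_coe, sub_eq_add_neg, Fi_shift]
  have hGx : ∀ x, Fi G x = U b x p'.2 := by
    intro x
    rw [hG, toS_coe, U_eq_Fi]
  -- Cauchy-Schwarz
  have hle : ENNReal.ofReal ‖U b p.1 p.2‖ ≤
      ∫⁻ x, ENNReal.ofReal (Real.sqrt (Wg 1 (x - p'.1)) * ‖Fi F x‖) *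
        ENNReal.ofReal (Real.sqrt (wt 1 (x - p'.1)) * ‖Fi G x‖) := by
    rw [hU, ofReal_norm]
    refine (enorm_integral_le_lintegral_enorm _).trans (le_of_eq ?_)
    refine lintegral_congr fun x => ?_
    rw [← ofReal_norm, ← ENNReal.ofReal_mul (by positivity)]
    congr 1
    rw [norm_mul, RCLike.norm_conj]
    have h4 : Real.sqrt (Wg 1 (x - p'.1)) * Real.sqrt (wt 1 (x - p'.1)) = 1 := by
      rw [← Real.sqrt_mul (by have := Wg_pos 1 (x - p'.1); linarith), Wg_mul_wt, Real.sqrt_one]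
    calc ‖Fi F x‖ * ‖Fi G x‖ = (Real.sqrt (Wg 1 (x - p'.1)) * Real.sqrt (wt 1 (x - p'.1))) *
          (‖Fi F x‖ * ‖Fi G x‖) := by rw [h4, one_mul]
      _ = _ := by ring
  have hcF := cont_Fi F
  have hcG := cont_Fi G
  have cW : Continuous (fun x : E d => Wg 1 (x - p'.1)) :=
    Continuous.comp (g := fun x : E d => Wg 1 x) (f := fun x : E d => x - p'.1)
      (continuous_Wg 1) (by fun_prop)
  have cw : Continuous (fun x : E d => wt 1 (x - p'.1)) :=
    Continuous.comp (g := fun x : E d => wt 1 x) (f := fun x : E d => x - p'.1)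
      (continuous_wt 1) (by fun_prop)
  have hCS := ENNReal.lintegral_mul_le_Lp_mul_Lq (volume : Measure (E d))
    (f := fun x => ENNReal.ofReal (Real.sqrt (Wg 1 (x - p'.1)) * ‖Fi F x‖))
    (g := fun x => ENNReal.ofReal (Real.sqrt (wt 1 (x - p'.1)) * ‖Fi G x‖))
    Real.HolderConjugate.two_two (by fun_prop) (by fun_prop)
  simp only [Pi.mul_apply] at hCS
  have e1 : ∫⁻ x, ENNReal.ofReal (Real.sqrt (Wg 1 (x - p'.1)) * ‖Fi F x‖) ^ (2 : ℝ) ≤
      ENNReal.ofReal C2 * M := by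
    refine le_trans ?_ (mul_le_mul' le_rfl hmuG)
    unfold Gn
    rw [← lintegral_const_mul' _ _ ENNReal.ofReal_ne_top,
      ← lintegral_add_right_eq_self _ p.1]
    refine lintegral_mono fun x => ?_
    rw [ENNReal.ofReal_rpow_of_nonneg (by positivity) (by norm_num), ← ENNReal.ofReal_mul hC2.le]
    refine ENNReal.ofReal_le_ofReal ?_
    rw [Real.rpow_two, mul_pow, Real.sq_sqrt (by have := Wg_pos 1 (x + p.1 - p'.1); linarith),
      hFx, add_sub_cancel_right]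
    have h5 := hslow 1 x (p.1 - p'.1) one_pos (by linarith)
    have h6 : x + p.1 - p'.1 = x + (p.1 - p'.1) := by abel
    rw [h6, ← mul_assoc]
    gcongr
  have e2 : ∫⁻ x, ENNReal.ofReal (Real.sqrt (wt 1 (x - p'.1)) * ‖Fi G x‖) ^ (2 : ℝ) =
      EU 1 b p' := by
    unfold EU En
    refine lintegral_congr fun x => ?_
    rw [ENNReal.ofReal_rpow_of_nonneg (by positivity) (by norm_num)]
    congr 1
    rw [Real.rpow_two, mul_pow, Real.sq_sqrt (wt_pos 1 _).le, hGx]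
  rw [e2] at hCS
  have h7 : ENNReal.ofReal ‖U b p.1 p.2‖ ≤ (ENNReal.ofReal C2 * M) ^ (1 / 2 : ℝ) *
      EU 1 b p' ^ (1 / 2 : ℝ) :=
    (hle.trans hCS).trans (mul_le_mul' (ENNReal.rpow_le_rpow e1 (by norm_num)) le_rfl)
  have h8 : ENNReal.ofReal (‖U b p.1 p.2‖ ^ 2) ≤ (ENNReal.ofReal C2 * M) * EU 1 b p' := by
    have := ENNReal.rpow_le_rpow h7 (z := 2) (by norm_num)
    rw [ENNReal.mul_rpow_of_nonneg _ _ (by norm_num), ← ENNReal.rpow_mul, ← ENNReal.rpow_mul] at this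
    norm_num at this
    rw [ENNReal.ofReal_pow (norm_nonneg _), ofReal_norm]
    exact_mod_cast this
  refine h8.trans (mul_le_mul' ?_ le_rfl)
  rw [← ENNReal.ofReal_toReal hM, ← ENNReal.ofReal_mul hC2.le]
  refine ENNReal.ofReal_le_ofReal ?_
  rw [ENNReal.toReal_ofReal ENNReal.toReal_nonneg]
  linarith

end

end Pool.Agent.H84.KL
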