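import Pool.Agent.H84.KL.ITR
import Pool.Agent.H84.KL.BER

/-! Discrete estimate for small caps. -/

open MeasureTheory Set
open scoped ENNReal NNReal RealInnerProductSpace Topology

namespace Pool.Agent.H84.KL

noncomputable section

variable {d k m : ℕ}

/-- `Ps` as a linear map -/
def PsL (v : Fin k → E d) (g : Fin m → E d × ℝ) : Co k m →ₗ[ℝ] E d × ℝ where
  toFun := Ps v g
  map_add' a b := by
    unfold Ps
    simp only [Prod.fst_add, Prod.snd_add, Pi.add_apply, add_smul, Finset.sum_add_distrib]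
    abel
  map_smul' t a := by
    unfold Ps
    simp only [Prod.smul_fst, Prod.smul_snd, Pi.smul_apply, smul_eq_mul, mul_smul,
      RingHom.id_apply, smul_add, Finset.smul_sum]

lemma Ps_surj (v : Fin k → E d) (g : Fin m → E d × ℝ) (Cb : ℝ) (hkm : k + m = d + 1)
    (hinv : ∀ c : Co k m, ‖c‖ ≤ Cb * ‖Ps v g c‖) (z : E d × ℝ) : ∃ c, Ps v g c = z := by
  have hinj : Function.Injective (PsL v g) := by
    rw [← LinearMap.ker_eq_bot, LinearMap.ker_eq_bot']
    intro c hc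
    have h1 := hinv c
    have h2 : Ps v g c = 0 := hc
    rw [h2, norm_zero, mul_zero] at h1
    exact norm_le_zero_iff.1 h1
  have hfin : Module.finrank ℝ (Co k m) = Module.finrank ℝ (E d × ℝ) := by
    simp [Module.finrank_prod, hkm]
  exact (LinearMap.injective_iff_surjective_of_finrank_eq_finrank hfin).1 hinj z

lemma meas_Qb (c : Co k m) (ρ : ℝ) : MeasurableSet (Qb c ρ) := by
  have e1 : Qb c ρ = (⋂ j, {a : Co k m | c.1 j ≤ a.1 j}) ∩
      (⋂ j, {a : Co k m | a.1 j < c.1 j + ρ}) ∩ ((⋂ j, {a : Co k m | c.2 j ≤ a.2 j}) ∩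
      (⋂ j, {a : Co k m | a.2 j < c.2 j + ρ})) := by
    ext a; simp [Qb, forall_and]
  rw [e1]
  refine MeasurableSet.inter (MeasurableSet.inter ?_ ?_) (MeasurableSet.inter ?_ ?_)
  · exact MeasurableSet.iInter fun j => (isClosed_le continuous_const
      (by fun_prop : Continuous fun a : Co k m => a.1 j)).measurableSet
  · exact MeasurableSet.iInter fun j => (isOpen_lt
      (by fun_prop : Continuous fun a : Co k m => a.1 j) continuous_const).measurableSet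
  · exact MeasurableSet.iInter fun j => (isClosed_le continuous_const
      (by fun_prop : Continuous fun a : Co k m => a.2 j)).measurableSet
  · exact MeasurableSet.iInter fun j => (isOpen_lt
      (by fun_prop : Continuous fun a : Co k m => a.2 j) continuous_const).measurableSet

lemma sub_le_of_mem_Qb {c a : Co k m} {η : ℝ} (hη : 0 ≤ η) (ha : a ∈ Qb c η) : ‖a - c‖ ≤ η := by
  rw [Prod.norm_def]
  refine max_le ?_ ?_
  · rw [Prod.fst_sub, pi_norm_le_iff_of_nonneg hη]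
    intro j
    have := ha.1 j
    rw [Pi.sub_apply, Real.norm_eq_abs, abs_of_nonneg (by linarith)]; linarith
  · rw [Prod.snd_sub, pi_norm_le_iff_of_nonneg hη]
    intro j
    have := ha.2 j
    rw [Pi.sub_apply, Real.norm_eq_abs, abs_of_nonneg (by linarith)]; linarith

lemma sub_le_of_mem_Qb2 {c c' a : Co k m} {η : ℝ} (hη : 0 ≤ η) (ha : a ∈ Qb c η)
    (ha' : a ∈ Qb c' η) : ‖c - c'‖ ≤ η := by
  rw [Prod.norm_def]
  refine max_le ?_ ?_
  · rw [Prod.fst_sub, pi_norm_le_iff_of_nonneg hη]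
    intro j
    have h1 := ha.1 j
    have h2 := ha'.1 j
    rw [Pi.sub_apply, Real.norm_eq_abs, abs_le]
    constructor <;> linarith
  · rw [Prod.snd_sub, pi_norm_le_iff_of_nonneg hη]
    intro j
    have h1 := ha.2 j
    have h2 := ha'.2 j
    rw [Pi.sub_apply, Real.norm_eq_abs, abs_le]
    constructor <;> linarith

theorem cap (hL : T_LWK) (hI : T_INN) (hQ : T_CUB) (d k m : ℕ) (Γ : Set (E d)) (Cb ε : ℝ)
    (hk : 2 ≤ k) (hkm : k + m = d + 1) (hΓ : IsCompact Γ) (h0 : (0 : E d) ∉ Γ) (hε : 0 < ε) :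
    ∃ (C δ : ℝ), 0 < C ∧ 0 < δ ∧ (∀ ξ0 ∈ Γ, ∀ ξ, ‖ξ - ξ0‖ ≤ δ → ξ ≠ 0) ∧
    ∀ (R : ℝ) (ξ : Fin k → E d)
    (g : Fin m → E d × ℝ) (b : Fin k → E d → ℂ) (z : E d × ℝ) (Y : Finset (E d × ℝ)), 1 ≤ R →
    (∀ j, ξ j ∈ Γ) → (∀ j, ‖g j‖ ≤ Cb) → (∀ i, TS (Metric.ball (ξ i) δ) (b i)) →
    (∀ c : Co k m, ‖c‖ ≤ Cb * ‖Ps (fun j => -(‖ξ j‖⁻¹ • ξ j)) g c‖) →
    (∀ y ∈ Y, ‖y - z‖ ≤ R) → (∀ y ∈ Y, ∀ y' ∈ Y, y ≠ y' → 1 ≤ ‖y - y'‖) →
    (∀ y ∈ Y, ∀ i, 1 ≤ ‖U (b i) y.1 y.2‖) →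
    (Y.card : ℝ≥0∞) ≤ ENNReal.ofReal (C * R ^ ε) * ∏ i, l2 (b i) ^ (1 / ((k : ℝ) - 1)) := by
  obtain ⟨C, δ, hC, hδ, hne, hitr⟩ := itr hL hI hQ d k m Γ Cb ε hk hkm hΓ h0 hε
  -- the neighbourhood for the pointwise bound
  have hΓ' : IsCompact (Metric.cthickening δ Γ) := hΓ.cthickening
  have h0' : (0 : E d) ∉ Metric.cthickening δ Γ := by
    rw [hΓ.cthickening_eq_biUnion_closedBall hδ.le]
    simp only [mem_iUnion, Metric.mem_closedBall, not_exists]
    intro ξ0 hξ0 hd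
    rw [dist_eq_norm] at hd
    exact hne ξ0 hξ0 0 hd rfl
  obtain ⟨CB, hCB, hber⟩ := ber (Metric.cthickening δ Γ) hΓ' h0'
  set q : ℝ := 1 / ((k : ℝ) - 1) with hq
  have hk1 : (0 : ℝ) < (k : ℝ) - 1 := by
    have : (2 : ℝ) ≤ k := by exact_mod_cast hk
    linarith
  have hq0 : 0 < q := by positivity
  set κ : ℝ := k + m * |Cb| + 1 with hκ
  have hκ0 : 1 ≤ κ := by
    have : 0 ≤ (k : ℝ) + m * |Cb| := by positivity
    linarith
  set η : ℝ := κ⁻¹ with hη
  have hη0 : 0 < η := by positivity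
  have hη1 : η ≤ 1 := inv_le_one_of_one_le₀ hκ0
  set B : ℝ := |Cb| with hB
  refine ⟨(η ^ (d + 1))⁻¹ * (CB ^ q) ^ k * (C * (2 * B + 1) ^ ε), δ, by positivity, hδ, hne, ?_⟩
  intro R ξ g b z Y hR hξ hg hb hinv hYR hYs hYU
  set v : Fin k → E d := fun j => -(‖ξ j‖⁻¹ • ξ j) with hv
  have hvn : ∀ j, ‖v j‖ ≤ 1 := by
    intro j
    rw [hv]
    simp only [norm_neg, norm_smul, norm_inv, norm_norm]
    rcases eq_or_ne ‖ξ j‖ 0 with h | h
    · rw [h]; simp
    · field_simp; exact le_rfl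
  -- coordinates of the points
  have hex : ∀ y : E d × ℝ, ∃ c : Co k m, Ps v g c = y - z := fun y =>
    Ps_surj v g Cb hkm hinv (y - z)
  choose cc hcc using hex
  have hcn : ∀ y ∈ Y, ‖cc y‖ ≤ B * R := by
    intro y hy
    refine (hinv (cc y)).trans ?_
    rw [hcc]
    calc Cb * ‖y - z‖ ≤ |Cb| * ‖y - z‖ := by gcongr; exact le_abs_self _
      _ ≤ B * R := by rw [hB]; gcongr; exact hYR y hy
  have hnear : ∀ y, ∀ a ∈ Qb (cc y) η, ‖y - (z + Ps v g a)‖ ≤ 1 := by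
    intro y a ha
    have h1 : y - (z + Ps v g a) = Ps v g (cc y - a) := by
      rw [Ps_sub, hcc]; abel
    rw [h1]
    refine (norm_Ps_le v g Cb hvn hg _).trans ?_
    have h2 := sub_le_of_mem_Qb hη0.le ha
    rw [norm_sub_rev] at h2
    calc (k + m * |Cb|) * ‖cc y - a‖ ≤ κ * η := by
          gcongr; linarith
      _ = 1 := by rw [hη]; field_simp
  have hdisj : (Y : Set (E d × ℝ)).PairwiseDisjoint (fun y => Qb (cc y) η) := by
    intro y hy y' hy' hne'
    rw [Function.onFun, Set.disjoint_left]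
    intro a ha ha'
    have h1 := sub_le_of_mem_Qb2 hη0.le ha ha'
    have h2 : y - y' = Ps v g (cc y - cc y') := by
      rw [Ps_sub, hcc, hcc]; abel
    have h3 := hYs y hy y' hy' hne'
    rw [h2] at h3
    have h4 := norm_Ps_le v g Cb hvn hg (cc y - cc y')
    have h5 : (k + m * |Cb|) * ‖cc y - cc y'‖ ≤ (κ - 1) * η := by
      have : (k : ℝ) + m * |Cb| = κ - 1 := by rw [hκ]; ring
      rw [this]
      have : 0 ≤ κ - 1 := by linarith
      gcongr
    have h6 : (κ - 1) * η < 1 := by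
      rw [sub_mul, one_mul, hη, mul_inv_cancel₀ (by positivity)]
      have : 0 < κ⁻¹ := by positivity
      linarith
    linarith
  -- the big cube
  set c0 : Co k m := (fun _ => -(B * R), fun _ => -(B * R)) with hc0
  have hsub : (⋃ y ∈ Y, Qb (cc y) η) ⊆ Qb c0 ((2 * B + 1) * R) := by
    intro a ha
    simp only [mem_iUnion] at ha
    obtain ⟨y, hy, ha⟩ := ha
    have h1 := hcn y hy
    have h2 : ∀ j, |(cc y).1 j| ≤ B * R := fun j =>
      ((norm_le_pi_norm (cc y).1 j).trans (norm_fst_le (cc y))).trans h1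
    have h3 : ∀ j, |(cc y).2 j| ≤ B * R := fun j =>
      ((norm_le_pi_norm (cc y).2 j).trans (norm_snd_le (cc y))).trans h1
    refine ⟨fun j => ?_, fun j => ?_⟩
    · have h4 := abs_le.1 (h2 j)
      have h5 := ha.1 j
      simp only [hc0]
      constructor <;> nlinarith
    · have h4 := abs_le.1 (h3 j)
      have h5 := ha.2 j
      simp only [hc0]
      constructor <;> nlinarith
  have hone : ∀ y ∈ Y, ∀ a ∈ Qb (cc y) η, (1 : ℝ≥0∞) ≤ ENNReal.ofReal ((CB ^ q) ^ k) *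
      ∏ i, EU 1 (b i) (z + Ps v g a) ^ q := by
    intro y hy a ha
    have h1 : ∀ i, (1 : ℝ≥0∞) ≤ ENNReal.ofReal (CB ^ q) * EU 1 (b i) (z + Ps v g a) ^ q := by
      intro i
      have hbT : TS (Metric.cthickening δ Γ) (b i) := by
        refine ⟨(hb i).1, (hb i).2.trans ?_⟩
        intro η' hη'
        rw [Metric.mem_ball] at hη'
        exact Metric.mem_cthickening_of_dist_le η' (ξ i) δ Γ (hξ i) hη'.le
      have h2 := hber (b i) hbT y (z + Ps v g a) (hnear y a ha)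
      have h3 : (1 : ℝ≥0∞) ≤ ENNReal.ofReal (‖U (b i) y.1 y.2‖ ^ 2) := by
        rw [← ENNReal.ofReal_one]
        exact ENNReal.ofReal_le_ofReal (one_le_pow₀ (hYU y hy i))
      have h4 := ENNReal.rpow_le_rpow (h3.trans h2) hq0.le
      rw [ENNReal.one_rpow, ENNReal.mul_rpow_of_nonneg _ _ hq0.le,
        ENNReal.ofReal_rpow_of_pos hCB] at h4
      exact h4
    calc (1 : ℝ≥0∞) = ∏ _i : Fin k, 1 := by simp
      _ ≤ ∏ i, (ENNReal.ofReal (CB ^ q) * EU 1 (b i) (z + Ps v g a) ^ q) :=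
          Finset.prod_le_prod' fun i _ => h1 i
      _ = _ := by
          rw [Finset.prod_mul_distrib, Finset.prod_const, Finset.card_univ, Fintype.card_fin,
            ← ENNReal.ofReal_pow (by positivity)]
  -- counting
  have hcount : (Y.card : ℝ≥0∞) * ENNReal.ofReal (η ^ (d + 1)) ≤
      ENNReal.ofReal ((CB ^ q) ^ k) * (ENNReal.ofReal (C * ((2 * B + 1) * R) ^ ε) *
        ∏ i, l2 (b i) ^ q) := by
    calc (Y.card : ℝ≥0∞) * ENNReal.ofReal (η ^ (d + 1))
        = ∑ y ∈ Y, volume (Qb (cc y) η) := by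
          rw [← nsmul_eq_mul, ← Finset.sum_const]
          refine Finset.sum_congr rfl fun y _ => ?_
          rw [(hQ k m).1 _ _ hη0.le, hkm]
      _ = ∑ y ∈ Y, ∫⁻ _a in Qb (cc y) η, 1 := by simp
      _ ≤ ∑ y ∈ Y, ∫⁻ a in Qb (cc y) η, ENNReal.ofReal ((CB ^ q) ^ k) *
            ∏ i, EU 1 (b i) (z + Ps v g a) ^ q :=
          Finset.sum_le_sum fun y hy => setLIntegral_mono' (meas_Qb _ _) (hone y hy)
      _ = ∫⁻ a in ⋃ y ∈ Y, Qb (cc y) η, ENNReal.ofReal ((CB ^ q) ^ k) *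
            ∏ i, EU 1 (b i) (z + Ps v g a) ^ q := by
          rw [lintegral_biUnion_finset hdisj (fun y _ => meas_Qb _ _)]
      _ ≤ ∫⁻ a in Qb c0 ((2 * B + 1) * R), ENNReal.ofReal ((CB ^ q) ^ k) *
            ∏ i, EU 1 (b i) (z + Ps v g a) ^ q := lintegral_mono_set hsub
      _ = ENNReal.ofReal ((CB ^ q) ^ k) * ∫⁻ a in Qb c0 ((2 * B + 1) * R),
            ∏ i, EU 1 (b i) (z + Ps v g a) ^ q :=
          lintegral_const_mul' _ _ ENNReal.ofReal_ne_top
      _ ≤ _ := by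
          gcongr
          refine hitr ((2 * B + 1) * R) ξ g b ?_ hξ hg hb hinv z c0
          have : 0 ≤ B := abs_nonneg _
          nlinarith
  have hηd : ENNReal.ofReal (η ^ (d + 1)) * ENNReal.ofReal ((η ^ (d + 1))⁻¹) = 1 := by
    rw [← ENNReal.ofReal_mul (by positivity), mul_inv_cancel₀ (by positivity), ENNReal.ofReal_one]
  calc (Y.card : ℝ≥0∞) = ((Y.card : ℝ≥0∞) * ENNReal.ofReal (η ^ (d + 1))) *
        ENNReal.ofReal ((η ^ (d + 1))⁻¹) := by rw [mul_assoc, hηd, mul_one]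
    _ ≤ ENNReal.ofReal ((CB ^ q) ^ k) * (ENNReal.ofReal (C * ((2 * B + 1) * R) ^ ε) *
        ∏ i, l2 (b i) ^ q) * ENNReal.ofReal ((η ^ (d + 1))⁻¹) := by gcongr
    _ = _ := by
        have hBn : 0 ≤ 2 * B + 1 := by have : 0 ≤ B := abs_nonneg _; linarith
        have hmul : ((2 * B + 1) * R) ^ ε = (2 * B + 1) ^ ε * R ^ ε :=
          Real.mul_rpow hBn (by linarith)
        rw [hmul]
        have t3 : ∀ A D F : ℝ, 0 ≤ A → 0 ≤ D → ENNReal.ofReal (A * D * F) =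
            ENNReal.ofReal A * ENNReal.ofReal D * ENNReal.ofReal F := by
          intro A D F hA hD
          rw [ENNReal.ofReal_mul (by positivity), ENNReal.ofReal_mul hA]
        have t4 : (η ^ (d + 1))⁻¹ * (CB ^ q) ^ k * (C * (2 * B + 1) ^ ε) * R ^ ε =
            (η ^ (d + 1))⁻¹ * (CB ^ q) ^ k * (C * ((2 * B + 1) ^ ε * R ^ ε)) := by ring
        rw [t4, t3 _ _ _ (by positivity) (by positivity)]
        ring

end

end Pool.Agent.H84.KL
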