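import Mathlib

/-! Definitions for the discrete `k`-linear restriction theorem for the cone (MP_ee74d2_an). -/

open MeasureTheory Set
open scoped ENNReal NNReal RealInnerProductSpace

namespace Pool.Agent.H84.KL

noncomputable section

/-- `ℝ^d` -/
abbrev E (d : ℕ) := EuclideanSpace ℝ (Fin d)

/-- `e(x) = exp(2πi x)` -/
def e (x : ℝ) : ℂ := Complex.exp (2 * Real.pi * x * Complex.I)

/-- smooth with compact support -/
def TC {d : ℕ} (b : E d → ℂ) : Prop := ContDiff ℝ (⊤ : ℕ∞) b ∧ HasCompactSupport b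

/-- smooth with compact support in `S` -/
def TS {d : ℕ} (S : Set (E d)) (b : E d → ℂ) : Prop := TC b ∧ Function.support b ⊆ S

/-- inverse Fourier transform -/
def Fi {d : ℕ} (b : E d → ℂ) (x : E d) : ℂ := ∫ ξ, e ⟪x, ξ⟫ * b ξ

/-- the wave `e^{it|D|}` with Fourier transform `b` of the data -/
def U {d : ℕ} (b : E d → ℂ) (x : E d) (t : ℝ) : ℂ := ∫ ξ, e (⟪x, ξ⟫ + t * ‖ξ‖) * b ξ

/-- the growing weight at scale `r` -/
def Wg {d : ℕ} (r : ℝ) (x : E d) : ℝ := 1 + ∑ i, (x i / r) ^ (2 * (d + 1))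

/-- the decreasing weight at scale `r` -/
def wt {d : ℕ} (r : ℝ) (x : E d) : ℝ := (Wg r x)⁻¹

/-- weighted energy at scale `r` near `y` -/
def En {d : ℕ} (r : ℝ) (y : E d) (g : E d → ℂ) : ℝ≥0∞ :=
  ∫⁻ x, ENNReal.ofReal (wt r (x - y) * ‖g x‖ ^ 2)

/-- energy of the wave with data `b` at scale `r` near the point `z` of space-time -/
def EU {d : ℕ} (r : ℝ) (b : E d → ℂ) (z : E d × ℝ) : ℝ≥0∞ := En r z.1 (fun x => U b x z.2)

/-- `∫ |b|²` -/
def l2 {d : ℕ} (b : E d → ℂ) : ℝ≥0∞ := ∫⁻ ξ, ENNReal.ofReal (‖b ξ‖ ^ 2)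

/-- unit vector -/
def ev {d : ℕ} (i : Fin d) : E d := EuclideanSpace.single i (1 : ℝ)

/-- `j`-th derivative in the direction of the `i`-th coordinate -/
def pd {d : ℕ} (i : Fin d) (j : ℕ) (m : E d → ℂ) (ξ : E d) : ℂ :=
  iteratedDeriv j (fun t : ℝ => m (ξ + t • ev i)) 0

/-- coordinates in space-time: `k` light directions and `m` passive directions -/
abbrev Co (k m : ℕ) := (Fin k → ℝ) × (Fin m → ℝ)

/-- the point of space-time with coordinates `c` -/
def Ps {d k m : ℕ} (v : Fin k → E d) (g : Fin m → E d × ℝ) (c : Co k m) : E d × ℝ :=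
  ∑ i, c.1 i • ((v i, 1) : E d × ℝ) + ∑ j, c.2 j • g j

/-- the position of the point with coordinates `a` transported to time `0` with velocity `v_i` -/
def La {d k m : ℕ} (v : Fin k → E d) (g : Fin m → E d × ℝ) (i : Fin k) (a : Co k m) : E d :=
  (Ps v g a).1 - (Ps v g a).2 • v i

/-- half open cube with corner `c` and side `r` -/
def Qb {k m : ℕ} (c : Co k m) (r : ℝ) : Set (Co k m) :=
  {a | (∀ i, c.1 i ≤ a.1 i ∧ a.1 i < c.1 i + r) ∧ ∀ j, c.2 j ≤ a.2 j ∧ a.2 j < c.2 j + r}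

end

end Pool.Agent.H84.KL
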