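import Pool.Agent.H84.KL.GRW

/-! Growth bound for multipliers. -/

open MeasureTheory Set SchwartzMap FourierTransform LineDeriv
open scoped ENNReal NNReal RealInnerProductSpace

namespace Pool.Agent.H84.KL

noncomputable section

variable {d : ℕ}

lemma line_smooth (m : E d → ℂ) (hm : ContDiff ℝ (⊤ : ℕ∞) m) (i : Fin d) (ξ : E d) :
    ContDiff ℝ (⊤ : ℕ∞) (fun t : ℝ => m (ξ + t • ev i)) := by
  refine hm.comp ?_
  fun_prop

lemma pd_mul (m f : E d → ℂ) (hm : ContDiff ℝ (⊤ : ℕ∞) m) (hf : ContDiff ℝ (⊤ : ℕ∞) f)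
    (i : Fin d) (n : ℕ) (ξ : E d) :
    pd i n (fun ξ => m ξ * f ξ) ξ = ∑ j ∈ Finset.range (n + 1),
      (n.choose j : ℂ) * pd i j m ξ * pd i (n - j) f ξ := by
  unfold pd
  have h1 : ContDiffAt ℝ n (fun t : ℝ => m (ξ + t • ev i)) 0 :=
    (line_smooth m hm i ξ).contDiffAt.of_le (by exact_mod_cast le_top)
  have h2 : ContDiffAt ℝ n (fun t : ℝ => f (ξ + t • ev i)) 0 :=
    (line_smooth f hf i ξ).contDiffAt.of_le (by exact_mod_cast le_top)
  rw [iteratedDeriv_fun_mul h1 h2]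

/-- the product of a test function and a Schwartz function is a test function -/
lemma TC_mul {m : E d → ℂ} (hm : TC m) (f : 𝓢(E d, ℂ)) : TC (fun ξ => m ξ * f ξ) :=
  ⟨hm.1.mul (f.smooth ⊤), hm.2.mul_right⟩

lemma sum_sq_le (n : ℕ) (a : ℕ → ℝ) :
    (∑ j ∈ Finset.range (n + 1), a j) ^ 2 ≤ (n + 1) * ∑ j ∈ Finset.range (n + 1), a j ^ 2 := by
  have := sq_sum_le_card_mul_sum_sq (s := Finset.range (n + 1)) (f := a)
  simpa using this

lemma pow_le_Wg (r : ℝ) (x : E d) (i : Fin d) (n : ℕ) (hn : n ≤ d + 1) :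
    (x i / r) ^ (2 * n) ≤ Wg r x := by
  have h1 : (x i / r) ^ (2 * n) ≤ 1 + (x i / r) ^ (2 * (d + 1)) := by
    rw [pow_mul, pow_mul]
    set u := (x i / r) ^ 2
    have hu : 0 ≤ u := by positivity
    rcases le_total u 1 with h | h
    · have := pow_le_one₀ (n := n) hu h
      have : 0 ≤ u ^ (d + 1) := by positivity
      linarith
    · have := pow_le_pow_right₀ h hn
      linarith
  have h2 : (x i / r) ^ (2 * (d + 1)) ≤ ∑ i, (x i / r) ^ (2 * (d + 1)) :=
    Finset.single_le_sum (f := fun i => (x i / r) ^ (2 * (d + 1)))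
      (fun i _ => by simp only [pow_mul]; positivity) (Finset.mem_univ i)
  unfold Wg; linarith

/-- the constant -/
def Cg (d : ℕ) (A : ℝ) : ℝ := A ^ 2 * (1 + d * ((d + 2) ^ 2 * 4 ^ (d + 1)))

lemma growth (r A : ℝ) (hr : 0 < r) (m : E d → ℂ) (hm : TC m) (h0 : ∀ ξ, ‖m ξ‖ ≤ A)
    (hA : ∀ (i : Fin d) (j : ℕ) (ξ : E d), j ≤ d + 1 → ‖pd i j m ξ‖ ≤ A * r ^ j)
    (f : 𝓢(E d, ℂ)) :
    Gn r (Fi (fun ξ => m ξ * f ξ)) ≤ ENNReal.ofReal (Cg d A) * Gn r (Fi f) := by
  have hAn : 0 ≤ A := (norm_nonneg _).trans (h0 0)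
  set N := d + 1 with hN
  have hmf := TC_mul hm f
  have hG := Gn_eq (toS hmf) r hr
  have hG0 := Gn_eq f r hr
  rw [toS_coe] at hG
  change Gn r (fun x => Fi (fun ξ => m ξ * f ξ) x) ≤ _ * Gn r (fun x => Fi f x)
  rw [hG]
  have hl : l2 f ≤ Gn r (fun x => Fi f x) := by rw [hG0]; exact le_self_add
  -- the zero order part
  have hA1 : l2 (fun ξ => m ξ * f ξ) ≤ ENNReal.ofReal (A ^ 2) * Gn r (fun x => Fi f x) := by
    refine le_trans ?_ (mul_le_mul' le_rfl hl)
    unfold l2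
    rw [← lintegral_const_mul']
    · refine lintegral_mono fun ξ => ?_
      rw [← ENNReal.ofReal_mul (by positivity)]
      refine ENNReal.ofReal_le_ofReal ?_
      rw [norm_mul, mul_pow]
      have := pow_le_pow_left₀ (norm_nonneg _) (h0 ξ) 2
      gcongr
    · exact ENNReal.ofReal_ne_top
  -- the derivatives
  have hA2 : ∀ i : Fin d, ENNReal.ofReal (((2 * Real.pi * r) ^ (2 * N))⁻¹) *
        ∫⁻ ξ, ENNReal.ofReal (‖pd i N (fun ξ => m ξ * f ξ) ξ‖ ^ 2) ≤
        ENNReal.ofReal (A ^ 2 * ((d + 2) ^ 2 * 4 ^ N)) * Gn r (fun x => Fi f x) := by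
    intro i
    have hp : ∀ ξ, ENNReal.ofReal (‖pd i N (fun ξ => m ξ * f ξ) ξ‖ ^ 2) ≤
        ∑ j ∈ Finset.range (N + 1), ENNReal.ofReal (A ^ 2 * ((d + 2) * 4 ^ N) * r ^ (2 * j)) *
          ENNReal.ofReal (‖pd i (N - j) f ξ‖ ^ 2) := by
      intro ξ
      have h3 : ∀ j ∈ Finset.range (N + 1),
          ENNReal.ofReal (A ^ 2 * ((d + 2) * 4 ^ N) * r ^ (2 * j)) *
          ENNReal.ofReal (‖pd i (N - j) f ξ‖ ^ 2) =
          ENNReal.ofReal (A ^ 2 * ((d + 2) * 4 ^ N) * r ^ (2 * j) * ‖pd i (N - j) f ξ‖ ^ 2) := by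
        intro j _
        rw [← ENNReal.ofReal_mul (by positivity)]
      rw [Finset.sum_congr rfl h3, ← ENNReal.ofReal_sum_of_nonneg]
      swap
      · intro j _; positivity
      refine ENNReal.ofReal_le_ofReal ?_
      rw [pd_mul m f hm.1 (f.smooth ⊤)]
      have h4 : ‖∑ j ∈ Finset.range (N + 1), (N.choose j : ℂ) * pd i j m ξ * pd i (N - j) f ξ‖ ≤
          ∑ j ∈ Finset.range (N + 1), (2 ^ N * (A * r ^ j)) * ‖pd i (N - j) f ξ‖ := by
        refine (norm_sum_le _ _).trans (Finset.sum_le_sum fun j hj => ?_)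
        rw [norm_mul, norm_mul]
        have hj' : j ≤ d + 1 := by
          have := Finset.mem_range.1 hj; omega
        have h5 : ‖(N.choose j : ℂ)‖ ≤ 2 ^ N := by
          rw [Complex.norm_natCast]
          exact_mod_cast Nat.choose_le_two_pow N j
        have := hA i j ξ hj'
        gcongr
      have h6 := pow_le_pow_left₀ (norm_nonneg _) h4 2
      refine h6.trans ((sum_sq_le N _).trans ?_)
      rw [Finset.mul_sum]
      refine Finset.sum_le_sum fun j _ => le_of_eq ?_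
      have h7 : ((2 : ℝ) ^ N) ^ 2 = 4 ^ N := by
        rw [← pow_mul, mul_comm N 2, pow_mul]; norm_num
      have h8 : ((N : ℝ) + 1) = d + 2 := by rw [hN]; push_cast; ring
      rw [h8, mul_pow, mul_pow, mul_pow, h7, ← pow_mul, mul_comm j 2]
      ring
    have h9 : ∀ j ∈ Finset.range (N + 1),
        ENNReal.ofReal (((2 * Real.pi * r) ^ (2 * N))⁻¹) *
        (ENNReal.ofReal (A ^ 2 * ((d + 2) * 4 ^ N) * r ^ (2 * j)) *
          ∫⁻ ξ, ENNReal.ofReal (‖pd i (N - j) f ξ‖ ^ 2)) ≤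
        ENNReal.ofReal (A ^ 2 * ((d + 2) * 4 ^ N)) * Gn r (fun x => Fi f x) := by
      intro j hj
      have hj' : j ≤ N := by have := Finset.mem_range.1 hj; omega
      rw [lint_pd, ← mul_assoc, ← ENNReal.ofReal_mul (by positivity)]
      unfold Gn
      have hc := cont_Fi f
      rw [← lintegral_const_mul _ (by fun_prop),
        ← lintegral_const_mul _ (by have := continuous_Wg (d := d) r; fun_prop)]
      refine lintegral_mono fun x => ?_
      rw [← ENNReal.ofReal_mul (by positivity), ← ENNReal.ofReal_mul (by positivity)]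
      refine ENNReal.ofReal_le_ofReal ?_
      have hW := pow_le_Wg r x i (N - j) (by omega)
      have h10 : ((2 * Real.pi * r) ^ (2 * N))⁻¹ *
          (A ^ 2 * ((d + 2) * 4 ^ N) * r ^ (2 * j)) *
            ((2 * Real.pi * x i) ^ (2 * (N - j)) * ‖Fi f x‖ ^ 2) =
          A ^ 2 * ((d + 2) * 4 ^ N) * (((2 * Real.pi) ^ (2 * j))⁻¹ *
            (x i / r) ^ (2 * (N - j)) * ‖Fi f x‖ ^ 2) := by
        obtain ⟨l, hl⟩ := Nat.exists_eq_add_of_le hj'
        have : N - j = l := by omega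
        rw [this, hl, Nat.mul_add, pow_add, mul_pow (2 * Real.pi) r, mul_pow (2 * Real.pi) r,
          mul_pow (2 * Real.pi) (x i), div_pow]
        field_simp
      rw [h10]
      have h11 : ((2 * Real.pi) ^ (2 * j))⁻¹ ≤ 1 := by
        refine inv_le_one_of_one_le₀ (one_le_pow₀ ?_)
        have := Real.pi_gt_three; linarith
      have h12 : 0 ≤ (x i / r) ^ (2 * (N - j)) := by rw [pow_mul]; positivity
      have h13 : ((2 * Real.pi) ^ (2 * j))⁻¹ * (x i / r) ^ (2 * (N - j)) ≤ 1 * Wg r x := by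
        have := Wg_pos r x
        gcongr
      rw [one_mul] at h13
      gcongr
    calc ENNReal.ofReal (((2 * Real.pi * r) ^ (2 * N))⁻¹) *
          ∫⁻ ξ, ENNReal.ofReal (‖pd i N (fun ξ => m ξ * f ξ) ξ‖ ^ 2)
        ≤ ENNReal.ofReal (((2 * Real.pi * r) ^ (2 * N))⁻¹) *
          ∫⁻ ξ, ∑ j ∈ Finset.range (N + 1),
            ENNReal.ofReal (A ^ 2 * ((d + 2) * 4 ^ N) * r ^ (2 * j)) *
            ENNReal.ofReal (‖pd i (N - j) f ξ‖ ^ 2) := by
          gcongr with ξ; exact hp ξ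
      _ = ∑ j ∈ Finset.range (N + 1), ENNReal.ofReal (((2 * Real.pi * r) ^ (2 * N))⁻¹) *
          (ENNReal.ofReal (A ^ 2 * ((d + 2) * 4 ^ N) * r ^ (2 * j)) *
            ∫⁻ ξ, ENNReal.ofReal (‖pd i (N - j) f ξ‖ ^ 2)) := by
          have hc : ∀ n, Continuous (fun ξ => pd i n f ξ) := by
            intro n
            have : (fun ξ => pd i n f ξ) = fun ξ =>
                ((fun g : 𝓢(E d, ℂ) => ∂_{ev i} g)^[n] f) ξ := by
              ext ξ; exact pd_eq f i n ξ
            rw [this]; exact SchwartzMap.continuous _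
          rw [lintegral_finsetSum _ (fun j _ => by have := hc (N - j); fun_prop), Finset.mul_sum]
          refine Finset.sum_congr rfl fun j _ => ?_
          rw [lintegral_const_mul _ (by have := hc (N - j); fun_prop)]
      _ ≤ ∑ j ∈ Finset.range (N + 1),
          ENNReal.ofReal (A ^ 2 * ((d + 2) * 4 ^ N)) * Gn r (fun x => Fi f x) :=
          Finset.sum_le_sum h9
      _ = ENNReal.ofReal (A ^ 2 * ((d + 2) ^ 2 * 4 ^ N)) * Gn r (fun x => Fi f x) := by
          rw [Finset.sum_const, Finset.card_range, nsmul_eq_mul, ← mul_assoc]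
          congr 1
          rw [← ENNReal.ofReal_natCast, ← ENNReal.ofReal_mul (by positivity)]
          congr 1
          rw [hN]; push_cast; ring
  calc l2 (fun ξ => m ξ * f ξ) + ∑ i : Fin d,
        ENNReal.ofReal (((2 * Real.pi * r) ^ (2 * (d + 1)))⁻¹) *
        ∫⁻ ξ, ENNReal.ofReal (‖pd i (d + 1) (fun ξ => m ξ * f ξ) ξ‖ ^ 2)
      ≤ ENNReal.ofReal (A ^ 2) * Gn r (fun x => Fi f x) +
        ∑ i : Fin d, ENNReal.ofReal (A ^ 2 * ((d + 2) ^ 2 * 4 ^ N)) *
          Gn r (fun x => Fi f x) := by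
        refine add_le_add hA1 (Finset.sum_le_sum fun i _ => ?_)
        exact hA2 i
    _ = ENNReal.ofReal (Cg d A) * Gn r (fun x => Fi f x) := by
        rw [Finset.sum_const, Finset.card_univ, Fintype.card_fin, nsmul_eq_mul, ← mul_assoc,
          ← add_mul]
        congr 1
        rw [← ENNReal.ofReal_natCast, ← ENNReal.ofReal_mul (by positivity),
          ← ENNReal.ofReal_add (by positivity) (by positivity)]
        congr 1
        unfold Cg; ring

end

end Pool.Agent.H84.KL
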