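import Pool.Agent.H84.KL.Defs

/-! Growth lemma for the weights (Plancherel). -/

open MeasureTheory Set SchwartzMap FourierTransform LineDeriv
open scoped ENNReal NNReal RealInnerProductSpace

namespace Pool.Agent.H84.KL

noncomputable section

variable {d : ℕ}

lemma e_eq (x : ℝ) : e x = (Real.fourierChar x : ℂ) := by
  rw [Real.fourierChar_apply, e]; push_cast; ring_nf

lemma norm_e (x : ℝ) : ‖e x‖ = 1 := by
  have : (2 * Real.pi * x * Complex.I : ℂ) = ((2 * Real.pi * x : ℝ) : ℂ) * Complex.I := by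
    push_cast; ring
  rw [e, this, Complex.norm_exp_ofReal_mul_I]

lemma e_add (x y : ℝ) : e (x + y) = e x * e y := by
  simp only [e]; rw [← Complex.exp_add]; push_cast; ring_nf

lemma e_neg (x : ℝ) : e (-x) = (starRingEnd ℂ) (e x) := by
  simp only [e]; rw [← Complex.exp_conj]; simp [Complex.conj_ofNat]

lemma e_zero : e 0 = 1 := by simp [e]

lemma contDiff_e : ContDiff ℝ (⊤ : ℕ∞) e := by
  unfold e
  exact Complex.contDiff_exp.comp ((contDiff_const.mul Complex.ofRealCLM.contDiff).mul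
    contDiff_const)

lemma continuous_e : Continuous e := contDiff_e.continuous

lemma Fi_eq (b : E d → ℂ) (x : E d) : Fi b x = 𝓕⁻ b x := by
  rw [Real.fourierInv_eq]
  unfold Fi
  congr 1; ext ξ
  rw [e_eq, real_inner_comm]
  rfl

lemma Fi_coe (f : 𝓢(E d, ℂ)) (x : E d) : Fi f x = 𝓕⁻ f x := by
  rw [Fi_eq, SchwartzMap.fourierInv_coe]

/-- Schwartz function of a test function -/
def toS {b : E d → ℂ} (h : TC b) : 𝓢(E d, ℂ) := h.2.toSchwartzMap h.1

@[simp] lemma toS_coe {b : E d → ℂ} (h : TC b) : ((toS h : 𝓢(E d, ℂ)) : E d → ℂ) = b := rfl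

lemma pd_eq_iter (f : 𝓢(E d, ℂ)) (i : Fin d) (n : ℕ) (ξ : E d) :
    iteratedDeriv n (fun t : ℝ => f (ξ + t • ev i)) =
      fun t => ((fun g : 𝓢(E d, ℂ) => ∂_{ev i} g)^[n] f) (ξ + t • ev i) := by
  induction n with
  | zero => simp
  | succ n ih =>
    rw [iteratedDeriv_succ, ih]
    ext t
    rw [Function.iterate_succ_apply', lineDerivOp_apply_eq_fderiv]
    set g := ((fun g : 𝓢(E d, ℂ) => ∂_{ev i} g)^[n] f)
    have h1 : HasDerivAt (fun t : ℝ => ξ + t • ev i) (ev i) t := by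
      simpa using ((hasDerivAt_id t).smul_const (ev i)).const_add ξ
    exact ((g.hasFDerivAt _).comp_hasDerivAt t h1).deriv

lemma pd_eq (f : 𝓢(E d, ℂ)) (i : Fin d) (n : ℕ) (ξ : E d) :
    pd i n f ξ = ((fun g : 𝓢(E d, ℂ) => ∂_{ev i} g)^[n] f) ξ := by
  unfold pd
  rw [pd_eq_iter]; simp

lemma Fi_iter (f : 𝓢(E d, ℂ)) (i : Fin d) (n : ℕ) (x : E d) :
    Fi ((fun g : 𝓢(E d, ℂ) => ∂_{ev i} g)^[n] f) x =
      (-(2 * Real.pi * Complex.I) * (x i : ℂ)) ^ n * Fi f x := by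
  induction n generalizing x with
  | zero => simp
  | succ n ih =>
    rw [Function.iterate_succ_apply', Fi_coe, fourierInv_lineDerivOp_eq]
    have : (inner ℝ · (ev i : E d)).HasTemperateGrowth := by fun_prop
    rw [_root_.smul_apply, smulLeftCLM_apply_apply this, ← Fi_coe, ih]
    have h : ⟪x, (ev i : E d)⟫ = x i := by
      simp [ev, EuclideanSpace.inner_single_right]
    rw [h]
    rw [Complex.real_smul, smul_eq_mul]
    ring

lemma lint_sq (f : 𝓢(E d, ℂ)) :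
    ∫⁻ x, ENNReal.ofReal (‖Fi f x‖ ^ 2) = ∫⁻ x, ENNReal.ofReal (‖f x‖ ^ 2) := by
  have hi : ∀ g : 𝓢(E d, ℂ), ∫⁻ x, ENNReal.ofReal (‖g x‖ ^ 2) =
      ENNReal.ofReal (∫ x, ‖g x‖ ^ 2) := by
    intro g
    rw [ofReal_integral_eq_lintegral_ofReal]
    · have := (g.memLp 2 (μ := volume)).integrable_norm_pow (by norm_num)
      simpa using this
    · exact Filter.Eventually.of_forall (fun x => by positivity)
  have h1 := integral_norm_sq_fourier (𝓕⁻ f)
  rw [FourierTransform.fourier_fourierInv_eq] at h1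
  rw [hi f, h1, ← hi]
  refine lintegral_congr fun x => ?_
  rw [Fi_coe]

lemma lint_pd (f : 𝓢(E d, ℂ)) (i : Fin d) (n : ℕ) :
    ∫⁻ ξ, ENNReal.ofReal (‖pd i n f ξ‖ ^ 2) =
      ∫⁻ x, ENNReal.ofReal ((2 * Real.pi * x i) ^ (2 * n) * ‖Fi f x‖ ^ 2) := by
  simp_rw [pd_eq]
  rw [← lint_sq]
  refine lintegral_congr fun x => ?_
  congr 1
  rw [Fi_iter, norm_mul, norm_pow, mul_pow]
  congr 1
  have : ‖(-(2 * Real.pi * Complex.I) * (x i : ℂ))‖ = |2 * Real.pi * x i| := by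
    simp [abs_mul]
  rw [this, ← pow_mul, mul_comm n 2, pow_mul, sq_abs, ← pow_mul]

lemma Wg_pos (r : ℝ) (x : E d) : 1 ≤ Wg r x := by
  unfold Wg
  have : 0 ≤ ∑ i, (x i / r) ^ (2 * (d + 1)) :=
    Finset.sum_nonneg fun i _ => by
      rw [pow_mul]; positivity
  linarith

lemma wt_pos (r : ℝ) (x : E d) : 0 < wt r x := by
  have := Wg_pos r x
  unfold wt; positivity

lemma wt_le_one (r : ℝ) (x : E d) : wt r x ≤ 1 := by
  have := Wg_pos r x
  exact inv_le_one_of_one_le₀ this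

lemma Wg_mul_wt (r : ℝ) (x : E d) : Wg r x * wt r x = 1 := by
  have := Wg_pos r x
  unfold wt; field_simp

lemma continuous_Wg (r : ℝ) : Continuous (Wg r : E d → ℝ) := by
  unfold Wg; fun_prop

lemma continuous_wt (r : ℝ) : Continuous (wt r : E d → ℝ) := by
  unfold wt
  exact (continuous_Wg r).inv₀ fun x => by have := Wg_pos r x; positivity

/-- energy with the growing weight -/
def Gn (r : ℝ) (g : E d → ℂ) : ℝ≥0∞ := ∫⁻ x, ENNReal.ofReal (Wg r x * ‖g x‖ ^ 2)

lemma cont_Fi (f : 𝓢(E d, ℂ)) : Continuous (fun x => Fi f x) := by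
  have : (fun x => Fi f x) = fun x => (𝓕⁻ f) x := by
    ext x; exact Fi_coe f x
  rw [this]; exact (𝓕⁻ f).continuous

/-- the energy with growing weight in terms of derivatives -/
lemma Gn_eq (f : 𝓢(E d, ℂ)) (r : ℝ) (hr : 0 < r) :
    Gn r (fun x => Fi f x) = l2 f + ∑ i : Fin d,
      ENNReal.ofReal (((2 * Real.pi * r) ^ (2 * (d + 1)))⁻¹) *
        ∫⁻ ξ, ENNReal.ofReal (‖pd i (d + 1) f ξ‖ ^ 2) := by
  unfold Gn
  have h1 : ∀ x : E d, ENNReal.ofReal (Wg r x * ‖Fi f x‖ ^ 2) =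
      ENNReal.ofReal (‖Fi f x‖ ^ 2) + ∑ i : Fin d,
        ENNReal.ofReal (((2 * Real.pi * r) ^ (2 * (d + 1)))⁻¹) *
        ENNReal.ofReal ((2 * Real.pi * x i) ^ (2 * (d + 1)) * ‖Fi f x‖ ^ 2) := by
    intro x
    have h2 : ∀ i : Fin d, ENNReal.ofReal (((2 * Real.pi * r) ^ (2 * (d + 1)))⁻¹) *
        ENNReal.ofReal ((2 * Real.pi * x i) ^ (2 * (d + 1)) * ‖Fi f x‖ ^ 2) =
        ENNReal.ofReal ((x i / r) ^ (2 * (d + 1)) * ‖Fi f x‖ ^ 2) := by
      intro i
      rw [← ENNReal.ofReal_mul (by positivity)]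
      congr 1
      rw [div_pow, mul_pow (2 * Real.pi) r, mul_pow (2 * Real.pi) (x i)]
      have : (0 : ℝ) < (2 * Real.pi) ^ (2 * (d + 1)) := by positivity
      field_simp
    simp_rw [h2]
    rw [← ENNReal.ofReal_sum_of_nonneg, ← ENNReal.ofReal_add]
    · congr 1
      unfold Wg
      rw [add_mul, one_mul, Finset.sum_mul]
    · positivity
    · exact Finset.sum_nonneg fun i _ => by
        have : 0 ≤ (x i / r) ^ (2 * (d + 1)) := by rw [pow_mul]; positivity
        positivity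
    · intro i _
      have : 0 ≤ (x i / r) ^ (2 * (d + 1)) := by rw [pow_mul]; positivity
      positivity
  simp_rw [h1]
  have hc := cont_Fi f
  rw [lintegral_add_left (by fun_prop), lintegral_finsetSum _ (fun i _ => by fun_prop)]
  congr 1
  · exact lint_sq f
  · refine Finset.sum_congr rfl fun i _ => ?_
    rw [lintegral_const_mul _ (by fun_prop), lint_pd]

end

end Pool.Agent.H84.KL
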