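import Pool.Agent.H84.KL.STP

/-! Iteration of the step: the multilinear estimate for small caps. -/

open MeasureTheory Set
open scoped ENNReal NNReal RealInnerProductSpace Topology

namespace Pool.Agent.H84.KL

noncomputable section

variable {d k m : ℕ}

lemma Qb_mono (c : Co k m) {r r' : ℝ} (h : r ≤ r') : Qb c r ⊆ Qb c r' := by
  intro a ha
  refine ⟨fun i => ⟨(ha.1 i).1, (ha.1 i).2.trans_le (by linarith)⟩,
    fun i => ⟨(ha.2 i).1, (ha.2 i).2.trans_le (by linarith)⟩⟩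

lemma meas_prod (r q : ℝ) (v : Fin k → E d) (g : Fin m → E d × ℝ) (z : E d × ℝ)
    (b : Fin k → E d → ℂ) (hb : ∀ i, TC (b i)) :
    Measurable (fun a : Co k m => ∏ i, EU r (b i) (z + Ps v g a) ^ q) := by
  refine Finset.measurable_prod _ fun i _ => Measurable.pow_const ?_ _
  exact (meas_EU (b i) (hb i) r).comp (continuous_const.add (cont_Ps v g)).measurable

theorem itr (hL : T_LWK) (hI : T_INN) (hQ : T_CUB) (d k m : ℕ) (Γ : Set (E d)) (Cb ε : ℝ)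
    (hk : 2 ≤ k) (hkm : k + m = d + 1) (hΓ : IsCompact Γ) (h0 : (0 : E d) ∉ Γ) (hε : 0 < ε) :
    ∃ (C δ : ℝ), 0 < C ∧ 0 < δ ∧ (∀ ξ0 ∈ Γ, ∀ ξ, ‖ξ - ξ0‖ ≤ δ → ξ ≠ 0) ∧
    ∀ (R : ℝ) (ξ : Fin k → E d)
    (g : Fin m → E d × ℝ) (b : Fin k → E d → ℂ), 1 ≤ R →
    (∀ j, ξ j ∈ Γ) → (∀ j, ‖g j‖ ≤ Cb) → (∀ i, TS (Metric.ball (ξ i) δ) (b i)) →
    (∀ c : Co k m, ‖c‖ ≤ Cb * ‖Ps (fun j => -(‖ξ j‖⁻¹ • ξ j)) g c‖) →
    ∀ (z : E d × ℝ) (c : Co k m),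
    ∫⁻ a in Qb c R, ∏ i, EU 1 (b i) (z + Ps (fun j => -(‖ξ j‖⁻¹ • ξ j)) g a) ^
        (1 / ((k : ℝ) - 1)) ≤
      ENNReal.ofReal (C * R ^ ε) * ∏ i, l2 (b i) ^ (1 / ((k : ℝ) - 1)) := by
  obtain ⟨C, L0, hC, hL0, hne, hstp⟩ := stp hL hI hQ d k m Γ Cb hk hkm hΓ h0
  -- choice of `N`
  obtain ⟨N, hN⟩ : ∃ N : ℕ, L0 + 1 ≤ N ∧ C ≤ (N : ℝ) ^ ε := by
    obtain ⟨N, hN⟩ := exists_nat_ge (max (L0 + 1) (C ^ (1 / ε)))
    refine ⟨N, (le_max_left _ _).trans hN, ?_⟩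
    have h1 : C ^ (1 / ε) ≤ N := (le_max_right _ _).trans hN
    have h2 := Real.rpow_le_rpow (by positivity) h1 hε.le
    rwa [← Real.rpow_mul hC.le, one_div, inv_mul_cancel₀ hε.ne', Real.rpow_one] at h2
  obtain ⟨hN1, hNC⟩ := hN
  have hN2 : (1 : ℝ) < N := by linarith
  have hN0 : (0 : ℝ) < N := by linarith
  have hNL : L0 ≤ N := by linarith
  have hNn : 1 ≤ N := by exact_mod_cast hN2.le
  refine ⟨(N : ℝ) ^ (d + 1), (N : ℝ)⁻¹, by positivity, by positivity, ?_, ?_⟩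
  · intro ξ0 hξ0 ξ hξ
    refine hne ξ0 hξ0 ξ (hξ.trans ?_)
    exact inv_anti₀ (by linarith) hNL
  intro R ξ g b hR hξ hg hb hinv z c
  set v : Fin k → E d := fun j => -(‖ξ j‖⁻¹ • ξ j) with hv
  set q : ℝ := 1 / ((k : ℝ) - 1) with hq
  have hk1 : (0 : ℝ) < (k : ℝ) - 1 := by
    have : (2 : ℝ) ≤ k := by exact_mod_cast hk
    linarith
  have hq0 : 0 < q := by positivity
  have hbT : ∀ i, TC (b i) := fun i => (hb i).1
  -- the iteration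
  have key : ∀ n : ℕ, ∀ c : Co k m,
      ∫⁻ a in Qb c ((N : ℝ) ^ (n + 1)), ∏ i, EU (N : ℝ) (b i) (z + Ps v g a) ^ q ≤
      (ENNReal.ofReal (C * ((N : ℝ) ^ (d + 1))⁻¹)) ^ n *
      ∫⁻ a in Qb c ((N : ℝ) ^ (n + 1)), ∏ i, EU ((N : ℝ) ^ (n + 1)) (b i) (z + Ps v g a) ^ q := by
    intro n
    induction n with
    | zero => intro c; simp
    | succ n ih =>
      intro c
      have h1 := (hQ k m).2 (fun a => ∏ i, EU (N : ℝ) (b i) (z + Ps v g a) ^ q)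
        (fun a => ∏ i, EU ((N : ℝ) ^ (n + 1)) (b i) (z + Ps v g a) ^ q) ((N : ℝ) ^ (n + 1))
        ((ENNReal.ofReal (C * ((N : ℝ) ^ (d + 1))⁻¹)) ^ n) N (by positivity) hNn
        (meas_prod _ q v g z b hbT) (meas_prod _ q v g z b hbT) ih c
      have h2 := hstp (N : ℝ) ((N : ℝ) ^ (n + 1)) ξ g b hNL
        (by
          calc (N : ℝ) = (N : ℝ) ^ 1 := (pow_one _).symm
            _ ≤ (N : ℝ) ^ (n + 1) := pow_le_pow_right₀ hN2.le (by omega)) hξ hg hb hinv z c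
      have h3 : (N : ℝ) * (N : ℝ) ^ (n + 1) = (N : ℝ) ^ (n + 1 + 1) := by
        rw [pow_succ (N : ℝ) (n + 1)]; ring
      rw [h3] at h1 h2
      refine h1.trans ?_
      rw [pow_succ (ENNReal.ofReal (C * ((N : ℝ) ^ (d + 1))⁻¹)) n, mul_assoc]
      exact mul_le_mul' le_rfl h2
  obtain ⟨n, hn1, hn2⟩ := exists_nat_pow_near hR hN2
  have hpow : (0 : ℝ) < (N : ℝ) ^ (n + 1) := by positivity
  have hl2 : ∫⁻ a in Qb c ((N : ℝ) ^ (n + 1)),
      ∏ i, EU ((N : ℝ) ^ (n + 1)) (b i) (z + Ps v g a) ^ q ≤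
      ENNReal.ofReal (((N : ℝ) ^ (n + 1)) ^ (d + 1)) * ∏ i, l2 (b i) ^ q := by
    calc _ ≤ ∫⁻ _a in Qb c ((N : ℝ) ^ (n + 1)), ∏ i, l2 (b i) ^ q := by
          refine lintegral_mono fun a => Finset.prod_le_prod' fun i _ => ?_
          refine ENNReal.rpow_le_rpow (EU_le (b i) (hbT i) ?_ _ _) hq0.le
          intro hmem
          have h4 := tsupport_ball (hb i) hmem
          rw [Metric.mem_closedBall, dist_eq_norm] at h4
          refine hne (ξ i) (hξ i) 0 (h4.trans ?_) rfl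
          exact inv_anti₀ (by linarith) hNL
      _ = _ := by
          rw [setLIntegral_const, (hQ k m).1 c _ hpow.le, hkm, mul_comm]
  calc ∫⁻ a in Qb c R, ∏ i, EU 1 (b i) (z + Ps v g a) ^ q
      ≤ ∫⁻ a in Qb c ((N : ℝ) ^ (n + 1)), ∏ i, EU 1 (b i) (z + Ps v g a) ^ q :=
        lintegral_mono_set (Qb_mono c hn2.le)
    _ ≤ ∫⁻ a in Qb c ((N : ℝ) ^ (n + 1)), ∏ i, EU (N : ℝ) (b i) (z + Ps v g a) ^ q := by
        refine lintegral_mono fun a => Finset.prod_le_prod' fun i _ => ?_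
        exact ENNReal.rpow_le_rpow (EU_mono _ _ _ _ one_pos hN2.le) hq0.le
    _ ≤ _ := key n c
    _ ≤ (ENNReal.ofReal (C * ((N : ℝ) ^ (d + 1))⁻¹)) ^ n *
          (ENNReal.ofReal (((N : ℝ) ^ (n + 1)) ^ (d + 1)) * ∏ i, l2 (b i) ^ q) := by gcongr
    _ = ENNReal.ofReal (C ^ n * (N : ℝ) ^ (d + 1)) * ∏ i, l2 (b i) ^ q := by
        rw [← mul_assoc, ← ENNReal.ofReal_pow (by positivity), ← ENNReal.ofReal_mul (by positivity)]
        congr 2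
        rw [mul_pow, inv_pow]
        have : ((N : ℝ) ^ (n + 1)) ^ (d + 1) = ((N : ℝ) ^ (d + 1)) ^ n * (N : ℝ) ^ (d + 1) := by
          ring
        rw [this]
        field_simp
    _ ≤ _ := by
        refine mul_le_mul' (ENNReal.ofReal_le_ofReal ?_) le_rfl
        rw [mul_comm]
        refine mul_le_mul_of_nonneg_left ?_ (by positivity)
        calc C ^ n ≤ ((N : ℝ) ^ ε) ^ n := by gcongr
          _ = ((N : ℝ) ^ n) ^ ε := by
            rw [← Real.rpow_natCast, ← Real.rpow_mul hN0.le, ← Real.rpow_natCast (N : ℝ) n,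
              ← Real.rpow_mul hN0.le, mul_comm]
          _ ≤ R ^ ε := by gcongr

end

end Pool.Agent.H84.KL
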