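import Pool.Agent.H84.KL.PAR

/-! Mollification. -/

open MeasureTheory Set
open scoped ENNReal NNReal RealInnerProductSpace Topology Convolution

namespace Pool.Agent.H84.KL

noncomputable section

variable {d : ℕ}

lemma mollify (Γ : Set (E d)) (hΓ : IsCompact Γ) (δ : ℝ) (hδ : 0 < δ) (b : E d → ℂ)
    (hb : Continuous b) (hbs : Function.support b ⊆ Γ) (η : ℝ) (hη : 0 < η) :
    ∃ b' : E d → ℂ, TS (Metric.cthickening δ Γ) b' ∧
      (∀ z : E d × ℝ, ‖U b z.1 z.2 - U b' z.1 z.2‖ ≤ η) ∧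
      l2 b' ≤ 2 * l2 b + ENNReal.ofReal η := by
  set K := Metric.cthickening δ Γ with hK
  have hKc : IsCompact K := hΓ.cthickening
  have hΓK : Γ ⊆ K := Metric.self_subset_cthickening Γ
  set V : ℝ := (volume K).toReal + 1 with hV
  have hV0 : 0 < V := by positivity
  have hVK : volume K ≤ ENNReal.ofReal V := by
    rw [← ENNReal.ofReal_toReal hKc.measure_lt_top.ne]
    refine ENNReal.ofReal_le_ofReal ?_
    rw [hV]; linarith
  have hcs : HasCompactSupport b :=
    HasCompactSupport.of_support_subset_isCompact hΓ hbs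
  -- choice of the error
  set ε0 : ℝ := min (η / V) (Real.sqrt (η / (2 * V))) with hε0
  have hε0p : 0 < ε0 := lt_min (by positivity) (Real.sqrt_pos.2 (by positivity))
  have hε1 : ε0 * V ≤ η := by
    calc ε0 * V ≤ (η / V) * V := by gcongr; exact min_le_left _ _
      _ = η := by field_simp
  have hε2 : 2 * ε0 ^ 2 * V ≤ η := by
    have h1 : ε0 ^ 2 ≤ η / (2 * V) := by
      calc ε0 ^ 2 ≤ (Real.sqrt (η / (2 * V))) ^ 2 := by
            gcongr; exact min_le_right _ _
        _ = _ := Real.sq_sqrt (by positivity)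
    calc 2 * ε0 ^ 2 * V ≤ 2 * (η / (2 * V)) * V := by gcongr
      _ = η := by field_simp
  -- uniform continuity
  have huc : UniformContinuous b := hcs.uniformContinuous_of_continuous hb
  obtain ⟨δ1, hδ1, hδ1'⟩ := Metric.uniformContinuous_iff.1 huc ε0 hε0p
  set τ := min δ δ1 with hτ
  have hτ0 : 0 < τ := lt_min hδ hδ1
  let φ : ContDiffBump (0 : E d) := ⟨τ / 2, τ, by linarith, by linarith⟩
  set b' : E d → ℂ := (φ.normed volume ⋆[ContinuousLinearMap.lsmul ℝ ℝ, volume] b) with hb'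
  have hclose : ∀ x, ‖b x - b' x‖ ≤ ε0 := by
    intro x
    rw [← dist_eq_norm, dist_comm]
    refine φ.dist_normed_convolution_le hb.aestronglyMeasurable fun y hy => ?_
    refine (hδ1' ?_).le
    rw [Metric.mem_ball] at hy
    exact lt_of_lt_of_le hy (min_le_right _ _)
  have hsup : Function.support b' ⊆ K := by
    refine (support_convolution_subset _).trans ?_
    intro x hx
    obtain ⟨u, hu, w, hw, rfl⟩ := Set.mem_add.1 hx
    rw [φ.support_normed_eq, Metric.mem_ball, dist_zero_right] at hu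
    refine Metric.mem_cthickening_of_dist_le (u + w) w δ Γ (hbs hw) ?_
    rw [dist_eq_norm, add_sub_cancel_right]
    exact hu.le.trans (min_le_left _ _)
  have hsm : ContDiff ℝ (⊤ : ℕ∞) b' := by
    refine φ.hasCompactSupport_normed.contDiff_convolution_left _ φ.contDiff_normed ?_
    exact hb.locallyIntegrable
  have hcs' : HasCompactSupport b' := HasCompactSupport.of_support_subset_isCompact hKc hsup
  have hdiff : ∀ x, x ∉ K → b x - b' x = 0 := by
    intro x hx
    have h1 : b x = 0 := by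
      by_contra h; exact hx (hΓK (hbs h))
    have h2 : b' x = 0 := by
      by_contra h; exact hx (hsup h)
    rw [h1, h2, sub_zero]
  refine ⟨b', ⟨⟨hsm, hcs'⟩, hsup⟩, ?_, ?_⟩
  · intro z
    have h1 : U b z.1 z.2 - U b' z.1 z.2 = U (fun ξ => b ξ - b' ξ) z.1 z.2 := by
      unfold U
      have hce := continuous_e
      have i1 : Integrable (fun ξ => e (⟪z.1, ξ⟫ + z.2 * ‖ξ‖) * b ξ) :=
        (by fun_prop : Continuous fun ξ => e (⟪z.1, ξ⟫ + z.2 * ‖ξ‖) * b ξ)
          |>.integrable_of_hasCompactSupport hcs.mul_left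
      have i2 := U_int b' ⟨hsm, hcs'⟩ z.1 z.2
      rw [← integral_sub i1 i2]
      congr 1; ext ξ; ring
    rw [h1]
    unfold U
    have h2 : ∫ ξ, e (⟪z.1, ξ⟫ + z.2 * ‖ξ‖) * (b ξ - b' ξ) =
        ∫ ξ in K, e (⟪z.1, ξ⟫ + z.2 * ‖ξ‖) * (b ξ - b' ξ) := by
      rw [setIntegral_eq_integral_of_forall_compl_eq_zero]
      intro x hx
      rw [hdiff x hx, mul_zero]
    rw [h2]
    refine (norm_setIntegral_le_of_norm_le_const hKc.measure_lt_top
      (C := ε0) (fun ξ _ => ?_)).trans ?_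
    · rw [norm_mul, norm_e, one_mul]; exact hclose ξ
    · refine le_trans ?_ hε1
      gcongr
      rw [hV]
      have : volume.real K = (volume K).toReal := rfl
      rw [this]; linarith
  · unfold l2
    have h3 : ∀ ξ, ENNReal.ofReal (‖b' ξ‖ ^ 2) ≤ 2 * ENNReal.ofReal (‖b ξ‖ ^ 2) +
        K.indicator (fun _ => ENNReal.ofReal (2 * ε0 ^ 2)) ξ := by
      intro ξ
      by_cases hξ : ξ ∈ K
      · rw [indicator_of_mem hξ]
        have h4 : ‖b' ξ‖ ≤ ‖b ξ‖ + ε0 := by
          have := hclose ξ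
          have h5 : ‖b' ξ‖ ≤ ‖b ξ‖ + ‖b ξ - b' ξ‖ := by
            calc ‖b' ξ‖ = ‖b ξ - (b ξ - b' ξ)‖ := by congr 1; ring
              _ ≤ _ := norm_sub_le _ _
          linarith
        have h6 : ‖b' ξ‖ ^ 2 ≤ 2 * ‖b ξ‖ ^ 2 + 2 * ε0 ^ 2 := by
          have h7 : 0 ≤ ‖b' ξ‖ := norm_nonneg _
          nlinarith [sq_nonneg (‖b ξ‖ - ε0)]
        calc ENNReal.ofReal (‖b' ξ‖ ^ 2) ≤ ENNReal.ofReal (2 * ‖b ξ‖ ^ 2 + 2 * ε0 ^ 2) :=
              ENNReal.ofReal_le_ofReal h6
          _ = _ := by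
              rw [ENNReal.ofReal_add (by positivity) (by positivity),
                ENNReal.ofReal_mul (by norm_num)]
              simp
      · have h2 : b' ξ = 0 := by
          by_contra h; exact hξ (hsup h)
        rw [h2]; simp
    calc ∫⁻ ξ, ENNReal.ofReal (‖b' ξ‖ ^ 2) ≤ ∫⁻ ξ, (2 * ENNReal.ofReal (‖b ξ‖ ^ 2) +
        K.indicator (fun _ => ENNReal.ofReal (2 * ε0 ^ 2)) ξ) := lintegral_mono h3
      _ = 2 * (∫⁻ ξ, ENNReal.ofReal (‖b ξ‖ ^ 2)) + ENNReal.ofReal (2 * ε0 ^ 2) * volume K := by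
          rw [lintegral_add_left (by fun_prop), lintegral_const_mul _ (by fun_prop),
            lintegral_indicator hKc.isClosed.measurableSet, setLIntegral_const]
      _ ≤ _ := by
          gcongr
          calc ENNReal.ofReal (2 * ε0 ^ 2) * volume K ≤
                ENNReal.ofReal (2 * ε0 ^ 2) * ENNReal.ofReal V := by gcongr
            _ = ENNReal.ofReal (2 * ε0 ^ 2 * V) := by rw [← ENNReal.ofReal_mul (by positivity)]
            _ ≤ _ := ENNReal.ofReal_le_ofReal hε2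

/-- a lower bound for the energy -/
lemma l2_lower (Γ : Set (E d)) (hΓ : IsCompact Γ) (b : E d → ℂ) (hb : Continuous b)
    (hbs : Function.support b ⊆ Γ) (z : E d × ℝ) (h : 1 ≤ ‖U b z.1 z.2‖) :
    1 ≤ volume Γ * l2 b := by
  have hcs : HasCompactSupport b :=
    HasCompactSupport.of_support_subset_isCompact hΓ hbs
  have h1 : (1 : ℝ≥0∞) ≤ ∫⁻ ξ, Γ.indicator (fun _ => (1 : ℝ≥0∞)) ξ * ENNReal.ofReal ‖b ξ‖ := by
    calc (1 : ℝ≥0∞) ≤ ENNReal.ofReal ‖U b z.1 z.2‖ := by
          rw [← ENNReal.ofReal_one]; exact ENNReal.ofReal_le_ofReal h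
      _ = ‖U b z.1 z.2‖ₑ := ofReal_norm _
      _ ≤ ∫⁻ ξ, ‖e (⟪z.1, ξ⟫ + z.2 * ‖ξ‖) * b ξ‖ₑ := by
          unfold U; exact enorm_integral_le_lintegral_enorm _
      _ = _ := by
          refine lintegral_congr fun ξ => ?_
          rw [← ofReal_norm, norm_mul, norm_e, one_mul]
          by_cases hξ : ξ ∈ Γ
          · rw [indicator_of_mem hξ, one_mul]
          · have : b ξ = 0 := by
              by_contra h'; exact hξ (hbs h')
            rw [this]; simp
  have hCS := ENNReal.lintegral_mul_le_Lp_mul_Lq (volume : Measure (E d))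
    (f := Γ.indicator (fun _ => (1 : ℝ≥0∞))) (g := fun ξ => ENNReal.ofReal ‖b ξ‖)
    Real.HolderConjugate.two_two
    ((measurable_const.indicator hΓ.isClosed.measurableSet).aemeasurable) (by fun_prop)
  simp only [Pi.mul_apply] at hCS
  have e1 : ∫⁻ ξ, (Γ.indicator (fun _ => (1 : ℝ≥0∞)) ξ) ^ (2 : ℝ) = volume Γ := by
    have : ∀ ξ, (Γ.indicator (fun _ => (1 : ℝ≥0∞)) ξ) ^ (2 : ℝ) =
        Γ.indicator (fun _ => (1 : ℝ≥0∞)) ξ := by
      intro ξ
      by_cases hξ : ξ ∈ Γ
      · rw [indicator_of_mem hξ, ENNReal.one_rpow]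
      · rw [indicator_of_notMem hξ, ENNReal.zero_rpow_of_pos (by norm_num)]
    simp_rw [this]
    rw [lintegral_indicator hΓ.isClosed.measurableSet, setLIntegral_const, one_mul]
  have e2 : ∫⁻ ξ, (ENNReal.ofReal ‖b ξ‖) ^ (2 : ℝ) = l2 b := by
    unfold l2
    refine lintegral_congr fun ξ => ?_
    rw [ENNReal.ofReal_rpow_of_nonneg (norm_nonneg _) (by norm_num), Real.rpow_two]
  rw [e1, e2] at hCS
  have h2 := ENNReal.rpow_le_rpow (h1.trans hCS) (z := 2) (by norm_num)
  rw [ENNReal.one_rpow, ENNReal.mul_rpow_of_nonneg _ _ (by norm_num), ← ENNReal.rpow_mul,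
    ← ENNReal.rpow_mul] at h2
  norm_num at h2
  exact h2

end

end Pool.Agent.H84.KL
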