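import Pool.Agent.H84.KL.GRB

/-! Multiplier lemma for the decreasing weights (duality). -/

open MeasureTheory Set SchwartzMap FourierTransform LineDeriv
open scoped ENNReal NNReal RealInnerProductSpace

namespace Pool.Agent.H84.KL

noncomputable section

variable {d : ℕ}

lemma wt_temp (r : ℝ) : Function.HasTemperateGrowth (wt r : E d → ℝ) := by
  let P : E d → E d := fun x => ∑ i : Fin d, ((r⁻¹ * ⟪(ev i : E d), x⟫) ^ (d + 1)) • (ev i : E d)
  have hP : Function.HasTemperateGrowth P := by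
    refine Function.HasTemperateGrowth.sum (s := Finset.univ)
      (f := fun (i : Fin d) (x : E d) => ((r⁻¹ * ⟪(ev i : E d), x⟫) ^ (d + 1)) • (ev i : E d))
      fun i _ => ?_
    refine Function.HasTemperateGrowth.smul (𝕜 := ℝ)
      (f := fun x : E d => (r⁻¹ * ⟪(ev i : E d), x⟫) ^ (d + 1)) ?_
      (Function.HasTemperateGrowth.const _)
    refine Function.HasTemperateGrowth.pow (f := fun x : E d => r⁻¹ * ⟪(ev i : E d), x⟫) ?_ _
    have h1 : Function.HasTemperateGrowth (fun _ : E d => r⁻¹) :=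
      Function.HasTemperateGrowth.const _
    have h2 : Function.HasTemperateGrowth (fun x : E d => ⟪(ev i : E d), x⟫) :=
      (innerSL ℝ (ev i : E d)).hasTemperateGrowth
    exact h1.mul h2
  have h2 : wt r = fun x : E d => (1 + ‖P x‖ ^ 2) ^ (-1 : ℝ) := by
    ext x
    rw [Real.rpow_neg_one, wt, Wg]
    congr 2
    rw [EuclideanSpace.norm_sq_eq]
    refine Finset.sum_congr rfl fun i _ => ?_
    have h3 : P x i = (x i / r) ^ (d + 1) := by
      simp only [P, ev, EuclideanSpace.inner_single_left, map_one, one_mul]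
      rw [WithLp.ofLp_sum, Finset.sum_apply, Finset.sum_eq_single i]
      · simp [div_eq_inv_mul]
      · intro j _ hj
        simp [Ne.symm hj]
      · simp
    rw [h3, Real.norm_eq_abs, sq_abs, ← pow_mul, mul_comm]
  rw [h2]
  exact (Function.hasTemperateGrowth_one_add_norm_sq_rpow (E d) (-1)).comp hP

/-- polarised Plancherel -/
lemma planch (F G : 𝓢(E d, ℂ)) :
    ∫ x, (starRingEnd ℂ) (Fi F x) * Fi G x = ∫ ξ, (starRingEnd ℂ) (F ξ) * G ξ := by
  have h := integral_inner_fourier_fourier (𝓕⁻ F) (𝓕⁻ G)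
  rw [FourierTransform.fourier_fourierInv_eq, FourierTransform.fourier_fourierInv_eq] at h
  have h1 : ∀ x : E d, (starRingEnd ℂ) (Fi F x) * Fi G x = inner ℂ (𝓕⁻ F x) (𝓕⁻ G x) := by
    intro x
    rw [Fi_coe, Fi_coe]
    simp [mul_comm]
  simp_rw [h1, ← h]
  refine integral_congr_ae (Filter.Eventually.of_forall fun x => ?_)
  simp [mul_comm]

lemma Fi_fourier (h : 𝓢(E d, ℂ)) (x : E d) : Fi (𝓕 h : 𝓢(E d, ℂ)) x = h x := by
  rw [Fi_coe, FourierTransform.fourierInv_fourier_eq]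

lemma lint_sq_lt_top (f : 𝓢(E d, ℂ)) : ∫⁻ x, ENNReal.ofReal (‖f x‖ ^ 2) < ⊤ := by
  have := (f.memLp 2 (μ := volume)).integrable_norm_pow (by norm_num)
  have h2 := this.lintegral_lt_top
  simpa using h2

lemma TC_conj {m : E d → ℂ} (hm : TC m) : TC (fun ξ => (starRingEnd ℂ) (m ξ)) := by
  refine ⟨Complex.conjCLE.contDiff.comp hm.1, ?_⟩
  have := hm.2.comp_left (g := fun z : ℂ => (starRingEnd ℂ) z) (map_zero _)
  exact this

lemma iteratedDeriv_conj (n : ℕ) (f : ℝ → ℂ) (hf : ContDiff ℝ (⊤ : ℕ∞) f) :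
    iteratedDeriv n (fun t => (starRingEnd ℂ) (f t)) =
      fun t => (starRingEnd ℂ) (iteratedDeriv n f t) := by
  induction n with
  | zero => simp
  | succ n ih =>
    rw [iteratedDeriv_succ, ih]
    ext t
    rw [iteratedDeriv_succ]
    have h1 : DifferentiableAt ℝ (iteratedDeriv n f) t := by
      have := hf.differentiable_iteratedDeriv n (by exact_mod_cast (ENat.natCast_lt_top n))
      exact this t
    exact ((Complex.conjCLE : ℂ →L[ℝ] ℂ).hasFDerivAt.comp_hasDerivAt t h1.hasDerivAt).deriv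

lemma pd_conj {m : E d → ℂ} (hm : TC m) (i : Fin d) (j : ℕ) (ξ : E d) :
    ‖pd i j (fun ξ => (starRingEnd ℂ) (m ξ)) ξ‖ = ‖pd i j m ξ‖ := by
  unfold pd
  rw [iteratedDeriv_conj j _ (line_smooth m hm.1 i ξ)]
  simp

/-- multiplier lemma with centre `0` and Schwartz data -/
lemma mul0 (r A : ℝ) (hr : 0 < r) (m : E d → ℂ) (hm : TC m) (h0 : ∀ ξ, ‖m ξ‖ ≤ A)
    (hA : ∀ (i : Fin d) (j : ℕ) (ξ : E d), j ≤ d + 1 → ‖pd i j m ξ‖ ≤ A * r ^ j)
    (f : 𝓢(E d, ℂ)) :
    En r 0 (Fi (fun ξ => m ξ * f ξ)) ≤ ENNReal.ofReal (Cg d A) * En r 0 (Fi f) := by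
  -- the function `h`
  have hmf := TC_mul hm f
  set G : 𝓢(E d, ℂ) := toS hmf with hG
  have hGF : (fun ξ => m ξ * f ξ) = (G : E d → ℂ) := by rw [hG, toS_coe]
  rw [hGF]
  set g : 𝓢(E d, ℂ) := 𝓕⁻ G with hg
  set w : E d → ℂ := fun x => (wt r x : ℂ) with hw
  have hwt : w.HasTemperateGrowth := Function.Complex.hasTemperateGrowth_ofReal.comp (wt_temp r)
  set h : 𝓢(E d, ℂ) := smulLeftCLM ℂ w g with hh
  have hhx : ∀ x, h x = (wt r x : ℂ) * g x := by
    intro x; rw [hh, smulLeftCLM_apply_apply hwt]; rfl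
  have hgx : ∀ x, Fi G x = g x := fun x => by rw [Fi_coe]
  -- finiteness
  set X := En r 0 (Fi G) with hX
  have hXeq : X = ∫⁻ x, ENNReal.ofReal (wt r x * ‖g x‖ ^ 2) := by
    rw [hX, En]; simp only [sub_zero, hgx]
  have hXtop : X ≠ ⊤ := by
    refine ne_of_lt (lt_of_le_of_lt ?_ (lint_sq_lt_top g))
    rw [hXeq]
    refine lintegral_mono fun x => ENNReal.ofReal_le_ofReal ?_
    have := wt_le_one r x
    have h2 : 0 ≤ ‖g x‖ ^ 2 := by positivity
    nlinarith
  -- the conjugate multiplier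
  have hmc := TC_conj hm
  have hmh := TC_mul hmc (𝓕 h)
  set K : 𝓢(E d, ℂ) := toS hmh with hK
  have hgr := growth r A hr _ hmc (fun ξ => by simpa using h0 ξ)
    (fun i j ξ hj => by rw [pd_conj hm]; exact hA i j ξ hj) (𝓕 h)
  have hK0 : (fun ξ => (starRingEnd ℂ) (m ξ) * (𝓕 h) ξ) = (K : E d → ℂ) := by
    rw [hK, toS_coe]
  rw [hK0] at hgr
  have hGh : Gn r (Fi (𝓕 h : 𝓢(E d, ℂ))) = X := by
    rw [hXeq, Gn]
    refine lintegral_congr fun x => ?_
    congr 1
    rw [Fi_fourier, hhx, norm_mul, mul_pow, Complex.norm_real, Real.norm_eq_abs,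
      abs_of_pos (wt_pos r x)]
    have := Wg_mul_wt r x
    calc Wg r x * (wt r x ^ 2 * ‖g x‖ ^ 2) = (Wg r x * wt r x) * (wt r x * ‖g x‖ ^ 2) := by ring
      _ = _ := by rw [this, one_mul]
  rw [hGh] at hgr
  -- the duality identity
  have hint : (∫ x, ((wt r x * ‖g x‖ ^ 2 : ℝ) : ℂ)) =
      ∫ x, (starRingEnd ℂ) (Fi K x) * Fi f x := by
    rw [planch]
    have e1 : ∀ ξ, (starRingEnd ℂ) (K ξ) * f ξ = (starRingEnd ℂ) ((𝓕 h) ξ) * G ξ := by
      intro ξ
      rw [← hK0, ← hGF]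
      simp only [map_mul, Complex.conj_conj]
      ring
    simp_rw [e1]
    rw [← planch]
    refine integral_congr_ae (Filter.Eventually.of_forall fun x => ?_)
    simp only
    rw [Fi_fourier, hgx, hhx]
    simp only [map_mul, Complex.conj_ofReal]
    rw [mul_assoc, ← Complex.normSq_eq_conj_mul_self, Complex.normSq_eq_norm_sq]
    push_cast; ring
  have hreal : X = ENNReal.ofReal (∫ x, wt r x * ‖g x‖ ^ 2) := by
    rw [hXeq, ofReal_integral_eq_lintegral_ofReal]
    · have h1 := (g.memLp 2 (μ := volume)).integrable_norm_pow (by norm_num)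
      have h1' : Integrable (fun x => ‖g x‖ ^ 2) := by simpa using h1
      refine Integrable.mono' h1' ?_ ?_
      · have := continuous_wt (d := d) r
        have := g.continuous
        exact (by fun_prop : Continuous fun x => wt r x * ‖g x‖ ^ 2).aestronglyMeasurable
      · refine Filter.Eventually.of_forall fun x => ?_
        have := wt_le_one r x
        have h3 := wt_pos r x
        have h2 : 0 ≤ ‖g x‖ ^ 2 := by positivity
        rw [Real.norm_eq_abs, abs_of_nonneg (by positivity)]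
        nlinarith
    · exact Filter.Eventually.of_forall fun x => by
        have h3 := wt_pos r x
        positivity
  have hbound : X ≤ ∫⁻ x, ENNReal.ofReal (Real.sqrt (Wg r x) * ‖Fi K x‖) *
      ENNReal.ofReal (Real.sqrt (wt r x) * ‖Fi f x‖) := by
    have h1 : X = ‖∫ x, (starRingEnd ℂ) (Fi K x) * Fi f x‖ₑ := by
      rw [← hint, integral_complex_ofReal, hreal, ← ofReal_norm, Complex.norm_real,
        Real.norm_eq_abs, abs_of_nonneg]
      exact integral_nonneg fun x => by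
        have h3 := wt_pos r x
        positivity
    rw [h1]
    refine (enorm_integral_le_lintegral_enorm _).trans (le_of_eq ?_)
    refine lintegral_congr fun x => ?_
    rw [← ofReal_norm, ← ENNReal.ofReal_mul (by positivity)]
    congr 1
    rw [norm_mul, RCLike.norm_conj]
    have h3 := wt_pos r x
    have h4 : Real.sqrt (Wg r x) * Real.sqrt (wt r x) = 1 := by
      rw [← Real.sqrt_mul (by have := Wg_pos r x; linarith), Wg_mul_wt, Real.sqrt_one]
    calc ‖Fi K x‖ * ‖Fi f x‖ = (Real.sqrt (Wg r x) * Real.sqrt (wt r x)) *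
          (‖Fi K x‖ * ‖Fi f x‖) := by rw [h4, one_mul]
      _ = _ := by ring
  -- Cauchy-Schwarz
  have hcK := cont_Fi K
  have hcf := cont_Fi f
  have hCS := ENNReal.lintegral_mul_le_Lp_mul_Lq (volume : Measure (E d))
    (f := fun x => ENNReal.ofReal (Real.sqrt (Wg r x) * ‖Fi K x‖))
    (g := fun x => ENNReal.ofReal (Real.sqrt (wt r x) * ‖Fi f x‖)) Real.HolderConjugate.two_two
    (by have := continuous_Wg (d := d) r; fun_prop)
    (by have := continuous_wt (d := d) r; fun_prop)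
  have e1 : ∫⁻ x, ENNReal.ofReal (Real.sqrt (Wg r x) * ‖Fi K x‖) ^ (2 : ℝ) = Gn r (Fi K) := by
    unfold Gn
    refine lintegral_congr fun x => ?_
    rw [ENNReal.ofReal_rpow_of_nonneg (by positivity) (by norm_num)]
    congr 1
    rw [Real.rpow_two, mul_pow, Real.sq_sqrt (by have := Wg_pos r x; linarith)]
  have e2 : ∫⁻ x, ENNReal.ofReal (Real.sqrt (wt r x) * ‖Fi f x‖) ^ (2 : ℝ) = En r 0 (Fi f) := by
    unfold En
    refine lintegral_congr fun x => ?_
    rw [ENNReal.ofReal_rpow_of_nonneg (by positivity) (by norm_num), sub_zero]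
    congr 1
    rw [Real.rpow_two, mul_pow, Real.sq_sqrt (wt_pos r x).le]
  simp only [Pi.mul_apply] at hCS
  rw [e1, e2] at hCS
  have hfin := hbound.trans hCS
  set Y := En r 0 (Fi f) with hY
  set C := ENNReal.ofReal (Cg d A) with hC
  -- X ≤ (C X)^{1/2} Y^{1/2}
  have h5 : X ≤ (C * X) ^ (1 / 2 : ℝ) * Y ^ (1 / 2 : ℝ) :=
    hfin.trans (mul_le_mul' (ENNReal.rpow_le_rpow hgr (by norm_num)) le_rfl)
  have h6 : X ^ (2 : ℝ) ≤ (C * X) * Y := by
    have := ENNReal.rpow_le_rpow h5 (z := 2) (by norm_num)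
    rw [ENNReal.mul_rpow_of_nonneg _ _ (by norm_num), ← ENNReal.rpow_mul, ← ENNReal.rpow_mul] at this
    norm_num at this
    exact_mod_cast this
  rcases eq_or_ne X 0 with h0' | h0'
  · rw [h0']; exact zero_le
  · have h7 : X * X ≤ X * (C * Y) := by
      have : X ^ (2 : ℝ) = X * X := by
        rw [ENNReal.rpow_two, sq]
      rw [← this]
      calc X ^ (2 : ℝ) ≤ (C * X) * Y := h6
        _ = X * (C * Y) := by ring
    exact (ENNReal.mul_le_mul_iff_right h0' hXtop).1 h7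

lemma TC_e {b : E d → ℂ} (hb : TC b) (y : E d) : TC (fun ξ => e ⟪y, ξ⟫ * b ξ) := by
  refine ⟨?_, hb.2.mul_left⟩
  refine ContDiff.mul (contDiff_e.comp ?_) hb.1
  exact (innerSL ℝ y).contDiff

lemma Fi_shift (b : E d → ℂ) (x y : E d) :
    Fi b (x + y) = Fi (fun ξ => e ⟪y, ξ⟫ * b ξ) x := by
  unfold Fi
  congr 1; ext ξ
  rw [inner_add_left, e_add]; ring

lemma En_shift (r : ℝ) (y : E d) (g : E d → ℂ) : En r y g = En r 0 (fun x => g (x + y)) := by
  unfold En
  rw [← lintegral_add_right_eq_self _ y]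
  simp

/-- multiplier lemma -/
theorem mul_lem (r A : ℝ) (hr : 0 < r) (m b : E d → ℂ) (hm : TC m) (hb : TC b)
    (h0 : ∀ ξ, ‖m ξ‖ ≤ A)
    (hA : ∀ (i : Fin d) (j : ℕ) (ξ : E d), j ≤ d + 1 → ‖pd i j m ξ‖ ≤ A * r ^ j) (y : E d) :
    En r y (Fi (fun ξ => m ξ * b ξ)) ≤ ENNReal.ofReal (Cg d A) * En r y (Fi b) := by
  rw [En_shift r y, En_shift r y (Fi b)]
  have h1 := mul0 r A hr m hm h0 hA (toS (TC_e hb y))
  have e1 : (fun x => Fi (fun ξ => m ξ * b ξ) (x + y)) =
      Fi (fun ξ => m ξ * (toS (TC_e hb y)) ξ) := by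
    ext x
    rw [Fi_shift]
    congr 1; ext ξ
    rw [toS_coe]; ring
  have e2 : (fun x => Fi b (x + y)) = Fi (toS (TC_e hb y)) := by
    ext x
    rw [Fi_shift, toS_coe]
  rw [e1, e2]
  exact h1

end

end Pool.Agent.H84.KL
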