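import Pool.Agent.H84.KL.CAP

/-! Decomposition into small caps. -/

open MeasureTheory Set
open scoped ENNReal NNReal RealInnerProductSpace Topology

namespace Pool.Agent.H84.KL

noncomputable section

variable {d k m : ℕ}

lemma decomp (δ : ℝ) (hδ : 0 < δ) (F : Finset (E d)) : ∀ b : E d → ℂ, TC b →
    Function.support b ⊆ ⋃ c ∈ F, Metric.ball c (δ / 2) →
    ∃ β : E d → E d → ℂ, (∀ c ∈ F, TS (Metric.ball c δ) (β c) ∧ ∀ ξ, ‖β c ξ‖ ≤ ‖b ξ‖) ∧
      ∀ ξ, b ξ = ∑ c ∈ F, β c ξ := by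
  classical
  induction F using Finset.induction_on with
  | empty =>
    intro b _ hs
    refine ⟨fun _ _ => 0, by simp, fun ξ => ?_⟩
    simp only [Finset.sum_empty]
    by_contra h
    have := hs h
    simp at this
  | insert c0 F hc0 ih =>
    intro b hb hs
    let ρ : ContDiffBump c0 := ⟨δ / 2, δ, by linarith, by linarith⟩
    set φ : E d → ℂ := fun ξ => (ρ ξ : ℂ) with hφ
    have hφs : ContDiff ℝ (⊤ : ℕ∞) φ := Complex.ofRealCLM.contDiff.comp ρ.contDiff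
    have hφ1 : ∀ ξ, ‖φ ξ‖ ≤ 1 := by
      intro ξ
      simp only [hφ, Complex.norm_real, Real.norm_eq_abs]
      rw [abs_of_nonneg ρ.nonneg]; exact ρ.le_one
    have hφ2 : ∀ ξ, ‖1 - φ ξ‖ ≤ 1 := by
      intro ξ
      have : (1 : ℂ) - φ ξ = ((1 - ρ ξ : ℝ) : ℂ) := by simp [hφ]
      rw [this, Complex.norm_real, Real.norm_eq_abs,
        abs_of_nonneg (by have := ρ.le_one (x := ξ); linarith)]
      have := ρ.nonneg (x := ξ)
      linarith
    obtain ⟨β, hβ1, hβ2⟩ := ih (fun ξ => (1 - φ ξ) * b ξ)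
      ⟨(contDiff_const.sub hφs).mul hb.1, hb.2.mul_left⟩ (by
        intro ξ hξ
        have h1 : b ξ ≠ 0 := fun h => hξ (by simp [h])
        have h2 : 1 - φ ξ ≠ 0 := fun h => hξ (by simp [h])
        have h3 := hs h1
        simp only [Finset.mem_insert, iUnion_iUnion_eq_or_left, mem_union] at h3
        rcases h3 with h3 | h3
        · exfalso
          refine h2 ?_
          have : ρ ξ = 1 := ρ.one_of_mem_closedBall (Metric.ball_subset_closedBall h3)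
          simp [hφ, this]
        · exact h3)
    refine ⟨fun c => if c = c0 then fun ξ => φ ξ * b ξ else β c, ?_, ?_⟩
    · intro c hc
      by_cases h : c = c0
      · subst h
        simp only [if_true]
        refine ⟨⟨⟨hφs.mul hb.1, hb.2.mul_left⟩, ?_⟩, ?_⟩
        · intro ξ hξ
          have h1 : φ ξ ≠ 0 := fun h => hξ (by simp [h])
          have h2 : ρ ξ ≠ 0 := fun h => h1 (by simp [hφ, h])
          have h3 : ξ ∈ Function.support (ρ : E d → ℝ) := h2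
          rw [ρ.support_eq] at h3
          exact h3
        · intro ξ
          rw [norm_mul]
          calc ‖φ ξ‖ * ‖b ξ‖ ≤ 1 * ‖b ξ‖ := by gcongr; exact hφ1 ξ
            _ = _ := one_mul _
      · simp only [h, if_false]
        have hcF : c ∈ F := by
          rcases Finset.mem_insert.1 hc with h' | h'
          · exact absurd h' h
          · exact h'
        refine ⟨(hβ1 c hcF).1, fun ξ => ((hβ1 c hcF).2 ξ).trans ?_⟩
        rw [norm_mul]
        calc ‖1 - φ ξ‖ * ‖b ξ‖ ≤ 1 * ‖b ξ‖ := by gcongr; exact hφ2 ξ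
          _ = _ := one_mul _
    · intro ξ
      rw [Finset.sum_insert hc0]
      simp only [if_true]
      have h1 : ∑ c ∈ F, (if c = c0 then fun ξ => φ ξ * b ξ else β c) ξ = ∑ c ∈ F, β c ξ := by
        refine Finset.sum_congr rfl fun c hc => ?_
        have : c ≠ c0 := fun h => hc0 (h ▸ hc)
        simp [this]
      rw [h1, ← hβ2]; ring

lemma U_int (b : E d → ℂ) (hb : TC b) (x : E d) (t : ℝ) :
    Integrable (fun ξ => e (⟪x, ξ⟫ + t * ‖ξ‖) * b ξ) := by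
  have h1 : Continuous (fun ξ : E d => e (⟪x, ξ⟫ + t * ‖ξ‖) * b ξ) := by
    have h2 := continuous_e
    have h3 := hb.1.continuous
    fun_prop
  exact h1.integrable_of_hasCompactSupport hb.2.mul_left

lemma U_sum (F : Finset (E d)) (β : E d → E d → ℂ) (hβ : ∀ c ∈ F, TC (β c)) (b : E d → ℂ)
    (hb : ∀ ξ, b ξ = ∑ c ∈ F, β c ξ) (x : E d) (t : ℝ) :
    U b x t = ∑ c ∈ F, U (β c) x t := by
  unfold U
  rw [← integral_finsetSum _ (fun c hc => U_int (β c) (hβ c hc) x t)]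
  congr 1; ext ξ
  rw [hb, Finset.mul_sum]

lemma U_smul (M : ℝ) (b : E d → ℂ) (x : E d) (t : ℝ) :
    U (fun ξ => (M : ℂ) * b ξ) x t = (M : ℂ) * U b x t := by
  unfold U
  rw [← integral_const_mul]
  congr 1; ext ξ; ring

theorem par (hL : T_LWK) (hI : T_INN) (hQ : T_CUB) (d k m : ℕ) (Γ : Set (E d))
    (Γj : Fin k → Set (E d)) (Cb ε : ℝ)
    (hk : 2 ≤ k) (hkm : k + m = d + 1) (hΓ : IsCompact Γ) (h0 : (0 : E d) ∉ Γ) (hε : 0 < ε)
    (hΓj : ∀ j, IsCompact (Γj j)) (hsub : ∀ j, Γj j ⊆ Γ)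
    (htr : ∀ ξ : Fin k → E d, (∀ j, ξ j ∈ Γj j) → ∃ g : Fin m → E d × ℝ, (∀ j, ‖g j‖ ≤ Cb) ∧
      ∀ c : Co k m, ‖c‖ ≤ Cb * ‖Ps (fun j => -(‖ξ j‖⁻¹ • ξ j)) g c‖) :
    ∃ C : ℝ, 0 < C ∧ ∀ (R : ℝ) (b : Fin k → E d → ℂ) (z : E d × ℝ) (Y : Finset (E d × ℝ)),
    1 ≤ R → (∀ i, TS (Γj i) (b i)) →
    (∀ y ∈ Y, ‖y - z‖ ≤ R) → (∀ y ∈ Y, ∀ y' ∈ Y, y ≠ y' → 1 ≤ ‖y - y'‖) →
    (∀ y ∈ Y, ∀ i, 1 ≤ ‖U (b i) y.1 y.2‖) →
    (Y.card : ℝ≥0∞) ≤ ENNReal.ofReal (C * R ^ ε) * ∏ i, l2 (b i) ^ (1 / ((k : ℝ) - 1)) := by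
  classical
  obtain ⟨C, δ, hC, hδ, hne, hcap⟩ := cap hL hI hQ d k m Γ Cb ε hk hkm hΓ h0 hε
  set q : ℝ := 1 / ((k : ℝ) - 1) with hq
  have hk1 : (0 : ℝ) < (k : ℝ) - 1 := by
    have : (2 : ℝ) ≤ k := by exact_mod_cast hk
    linarith
  have hq0 : 0 < q := by positivity
  -- finite covers
  have hcov : ∀ j, ∃ F : Finset (E d), (∀ c ∈ F, c ∈ Γj j) ∧
      Γj j ⊆ ⋃ c ∈ F, Metric.ball c (δ / 2) := fun j =>
    (hΓj j).elim_nhds_subcover (fun c => Metric.ball c (δ / 2))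
      (fun c _ => Metric.ball_mem_nhds c (by linarith))
  choose F hF1 hF2 using hcov
  obtain ⟨M, hM1, hMF⟩ : ∃ M : ℝ, 1 ≤ M ∧ ∀ j, ((F j).card : ℝ) < M := by
    refine ⟨1 + ∑ j, ((F j).card : ℝ), ?_, ?_⟩
    · have : 0 ≤ ∑ j, ((F j).card : ℝ) := Finset.sum_nonneg fun j _ => Nat.cast_nonneg _
      linarith
    · intro j
      have : ((F j).card : ℝ) ≤ ∑ j, ((F j).card : ℝ) :=
        Finset.single_le_sum (f := fun j => ((F j).card : ℝ)) (fun _ _ => Nat.cast_nonneg _)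
          (Finset.mem_univ j)
      linarith
  set P := Fintype.piFinset F with hP
  refine ⟨((P.card : ℝ) + 1) * (C * ((M ^ 2) ^ q) ^ k), by positivity, ?_⟩
  intro R b z Y hR hb hYR hYs hYU
  -- decomposition
  have hdec : ∀ j, ∃ β : E d → E d → ℂ, (∀ c ∈ F j, TS (Metric.ball c δ) (β c) ∧
      ∀ ξ, ‖β c ξ‖ ≤ ‖b j ξ‖) ∧ ∀ ξ, b j ξ = ∑ c ∈ F j, β c ξ := fun j =>
    decomp δ hδ (F j) (b j) (hb j).1 ((hb j).2.trans (hF2 j))
  choose β hβ1 hβ2 using hdec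
  -- a large piece at each point
  have hpiece : ∀ y : E d × ℝ, ∀ j, y ∈ Y → ∃ c ∈ F j, 1 ≤ M * ‖U (β j c) y.1 y.2‖ := by
    intro y j hy
    by_contra hcon
    push Not at hcon
    have h1 := hYU y hy j
    rw [U_sum (F j) (β j) (fun c hc => (hβ1 j c hc).1.1) (b j) (hβ2 j)] at h1
    have h2 : M * ‖∑ c ∈ F j, U (β j c) y.1 y.2‖ ≤ ∑ _c ∈ F j, (1 : ℝ) := by
      calc M * ‖∑ c ∈ F j, U (β j c) y.1 y.2‖ ≤ M * ∑ c ∈ F j, ‖U (β j c) y.1 y.2‖ := by
            gcongr; exact norm_sum_le _ _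
        _ = ∑ c ∈ F j, M * ‖U (β j c) y.1 y.2‖ := Finset.mul_sum _ _ _
        _ ≤ _ := Finset.sum_le_sum fun c hc => (hcon c hc).le
    rw [Finset.sum_const, nsmul_eq_mul, mul_one] at h2
    have h3 := hMF j
    nlinarith
  have hch : ∀ y : E d × ℝ, ∀ j, ∃ c : E d, y ∈ Y → c ∈ F j ∧ 1 ≤ M * ‖U (β j c) y.1 y.2‖ := by
    intro y j
    by_cases hy : y ∈ Y
    · obtain ⟨c, hc, h⟩ := hpiece y j hy
      exact ⟨c, fun _ => ⟨hc, h⟩⟩
    · exact ⟨0, fun h => absurd h hy⟩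
  choose Φ hΦ using hch
  have hΦP : ∀ y ∈ Y, Φ y ∈ P := by
    intro y hy
    rw [hP, Fintype.mem_piFinset]
    exact fun j => (hΦ y j hy).1
  have hcard : Y.card = ∑ c ∈ P, (Y.filter (fun y => Φ y = c)).card :=
    Finset.card_eq_sum_card_fiberwise hΦP
  have hfib : ∀ c ∈ P, ((Y.filter (fun y => Φ y = c)).card : ℝ≥0∞) ≤
      ENNReal.ofReal (C * ((M ^ 2) ^ q) ^ k * R ^ ε) * ∏ i, l2 (b i) ^ q := by
    intro c hc
    rw [hP, Fintype.mem_piFinset] at hc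
    obtain ⟨g, hg1, hg2⟩ := htr c (fun j => hF1 j (c j) (hc j))
    have hTS : ∀ i, TS (Metric.ball (c i) δ) (fun ξ => (M : ℂ) * β i (c i) ξ) := by
      intro i
      have h := (hβ1 i (c i) (hc i)).1
      refine ⟨⟨contDiff_const.mul h.1.1, h.1.2.mul_left⟩, ?_⟩
      intro ξ hξ
      have h5 : β i (c i) ξ ≠ 0 := by
        intro h'
        have h6 : (M : ℂ) * β i (c i) ξ = 0 := by rw [h', mul_zero]
        exact hξ h6
      exact h.2 h5
    have hUc : ∀ y ∈ Y.filter (fun y => Φ y = c), ∀ i,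
        1 ≤ ‖U (fun ξ => (M : ℂ) * β i (c i) ξ) y.1 y.2‖ := by
      intro y hy i
      rw [U_smul, norm_mul, Complex.norm_real, Real.norm_eq_abs, abs_of_pos (by linarith)]
      obtain ⟨hyY, hyc⟩ := Finset.mem_filter.1 hy
      have := (hΦ y i hyY).2
      rwa [hyc] at this
    have h1 := hcap R c g (fun i ξ => (M : ℂ) * β i (c i) ξ) z (Y.filter (fun y => Φ y = c)) hR
      (fun j => hsub j (hF1 j (c j) (hc j))) hg1 hTS
      hg2 (fun y hy => hYR y (Finset.mem_filter.1 hy).1)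
      (fun y hy y' hy' => hYs y (Finset.mem_filter.1 hy).1 y' (Finset.mem_filter.1 hy').1) hUc
    refine h1.trans ?_
    have h2 : ∀ i, l2 (fun ξ => (M : ℂ) * β i (c i) ξ) ^ q ≤
        ENNReal.ofReal ((M ^ 2) ^ q) * l2 (b i) ^ q := by
      intro i
      have h3 : l2 (fun ξ => (M : ℂ) * β i (c i) ξ) ≤ ENNReal.ofReal (M ^ 2) * l2 (b i) := by
        unfold l2
        rw [← lintegral_const_mul' _ _ ENNReal.ofReal_ne_top]
        refine lintegral_mono fun ξ => ?_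
        rw [← ENNReal.ofReal_mul (by positivity)]
        refine ENNReal.ofReal_le_ofReal ?_
        rw [norm_mul, Complex.norm_real, Real.norm_eq_abs, abs_of_pos (by linarith), mul_pow]
        have := (hβ1 i (c i) (hc i)).2 ξ
        gcongr
      refine (ENNReal.rpow_le_rpow h3 hq0.le).trans (le_of_eq ?_)
      rw [ENNReal.mul_rpow_of_nonneg _ _ hq0.le,
        ENNReal.ofReal_rpow_of_pos (show 0 < M ^ 2 by positivity)]
    calc ENNReal.ofReal (C * R ^ ε) * ∏ i, l2 (fun ξ => (M : ℂ) * β i (c i) ξ) ^ q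
        ≤ ENNReal.ofReal (C * R ^ ε) * ∏ i, (ENNReal.ofReal ((M ^ 2) ^ q) * l2 (b i) ^ q) := by
          gcongr with i; exact h2 i
      _ = _ := by
          rw [Finset.prod_mul_distrib, Finset.prod_const, Finset.card_univ, Fintype.card_fin,
            ← ENNReal.ofReal_pow (by positivity), ← mul_assoc,
            ← ENNReal.ofReal_mul (by positivity)]
          congr 2; ring
  rw [hcard]
  push_cast
  calc ∑ c ∈ P, ((Y.filter (fun y => Φ y = c)).card : ℝ≥0∞)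
      ≤ ∑ _c ∈ P, ENNReal.ofReal (C * ((M ^ 2) ^ q) ^ k * R ^ ε) * ∏ i, l2 (b i) ^ q :=
        Finset.sum_le_sum hfib
    _ = ENNReal.ofReal ((P.card : ℝ) * (C * ((M ^ 2) ^ q) ^ k * R ^ ε)) *
          ∏ i, l2 (b i) ^ q := by
        rw [Finset.sum_const, nsmul_eq_mul, ← mul_assoc,
          ENNReal.ofReal_mul (p := (P.card : ℝ)) (Nat.cast_nonneg _), ENNReal.ofReal_natCast]
    _ ≤ _ := by
        refine mul_le_mul' (ENNReal.ofReal_le_ofReal ?_) le_rfl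
        have h1 : (P.card : ℝ) * (C * ((M ^ 2) ^ q) ^ k * R ^ ε) =
            (P.card : ℝ) * (C * ((M ^ 2) ^ q) ^ k) * R ^ ε := by ring
        rw [h1]
        have h2 : 0 ≤ C * ((M ^ 2) ^ q) ^ k := by positivity
        have h3 : 0 ≤ R ^ ε := by positivity
        refine mul_le_mul_of_nonneg_right (mul_le_mul_of_nonneg_right ?_ h2) h3
        linarith

end

end Pool.Agent.H84.KL
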