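import Pool.Agent.H84.KL.MUL

/-! Derivatives of `u e(φ)` in one variable. -/

open MeasureTheory Set
open scoped ENNReal NNReal RealInnerProductSpace

namespace Pool.Agent.H84.KL

noncomputable section

/-- constant of the phase bound -/
def Kp (C : ℝ) : ℕ → ℝ
  | 0 => 1
  | n + 1 => Kp C n * (1 + 2 * Real.pi * C * 2 ^ n)

lemma Kp_nonneg {C : ℝ} (hC : 0 ≤ C) (n : ℕ) : 0 ≤ Kp C n := by
  induction n with
  | zero => simp [Kp]
  | succ n ih => rw [Kp]; positivity

lemma iteratedDeriv_ofReal' (n : ℕ) (f : ℝ → ℝ) (hf : ContDiff ℝ (⊤ : ℕ∞) f) :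
    iteratedDeriv n (fun t => ((f t : ℝ) : ℂ)) = fun t => ((iteratedDeriv n f t : ℝ) : ℂ) := by
  induction n with
  | zero => simp
  | succ n ih =>
    rw [iteratedDeriv_succ, ih]
    ext t
    rw [iteratedDeriv_succ]
    have h1 : DifferentiableAt ℝ (iteratedDeriv n f) t := by
      have := hf.differentiable_iteratedDeriv n (by exact_mod_cast (ENat.natCast_lt_top n))
      exact this t
    exact (h1.hasDerivAt.ofReal_comp).deriv

lemma deriv_ue (u : ℝ → ℂ) (φ : ℝ → ℝ) (hu : ContDiff ℝ (⊤ : ℕ∞) u)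
    (hφ : ContDiff ℝ (⊤ : ℕ∞) φ) :
    deriv (fun s => u s * e (φ s)) =
      fun s => (deriv u s + (2 * Real.pi * Complex.I) * (((deriv φ s : ℝ) : ℂ) * u s)) *
        e (φ s) := by
  ext s
  have h1 : HasDerivAt u (deriv u s) s :=
    (hu.differentiable (by simp)).differentiableAt.hasDerivAt
  have h2 : HasDerivAt φ (deriv φ s) s :=
    (hφ.differentiable (by simp)).differentiableAt.hasDerivAt
  have h3 : HasDerivAt (fun s => e (φ s))
      (e (φ s) * (2 * Real.pi * ((deriv φ s : ℝ) : ℂ) * Complex.I)) s := by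
    unfold e
    have h4 := (h2.ofReal_comp.const_mul (2 * Real.pi : ℂ)).mul_const Complex.I
    have h5 := h4.cexp
    convert h5 using 1
  rw [show (fun s => u s * e (φ s)) = u * fun s => e (φ s) from rfl, (h1.mul h3).deriv]
  ring

lemma phase_bound (n : ℕ) : ∀ (u : ℝ → ℂ) (φ : ℝ → ℝ) (t r C B : ℝ), 0 < r → 0 ≤ C → 0 ≤ B →
    ContDiff ℝ (⊤ : ℕ∞) u → ContDiff ℝ (⊤ : ℕ∞) φ →
    (∀ l < n, ‖iteratedDeriv l (deriv φ) t‖ ≤ C * r ^ (l + 1)) →
    (∀ l ≤ n, ‖iteratedDeriv l u t‖ ≤ B * r ^ l) →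
    ‖iteratedDeriv n (fun s => u s * e (φ s)) t‖ ≤ Kp C n * B * r ^ n := by
  induction n with
  | zero =>
    intro u φ t r C B _ _ _ _ _ _ hu
    have := hu 0 le_rfl
    simp only [iteratedDeriv_zero, pow_zero, mul_one] at this ⊢
    rw [norm_mul, norm_e, mul_one, Kp, one_mul]
    exact this
  | succ n ih =>
    intro u φ t r C B hr hC hB hu hφ h1 h2
    have hφ' : ContDiff ℝ (⊤ : ℕ∞) (deriv φ) := by
      have := (contDiff_infty_iff_deriv (f := φ)).1 (by exact_mod_cast hφ)
      exact_mod_cast this.2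
    have hu' : ContDiff ℝ (⊤ : ℕ∞) (deriv u) := by
      have := (contDiff_infty_iff_deriv (f := u)).1 (by exact_mod_cast hu)
      exact_mod_cast this.2
    have hφc : ContDiff ℝ (⊤ : ℕ∞) (fun s => ((deriv φ s : ℝ) : ℂ)) :=
      Complex.ofRealCLM.contDiff.comp hφ'
    rw [iteratedDeriv_succ', deriv_ue u φ hu hφ]
    have key := ih (fun s => deriv u s + (2 * Real.pi * Complex.I) *
      (((deriv φ s : ℝ) : ℂ) * u s)) φ t r C (B * r * (1 + 2 * Real.pi * C * 2 ^ n)) hr hC
      (by positivity) (hu'.add (contDiff_const.mul (hφc.mul hu))) hφ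
      (fun l hl => h1 l (by omega)) ?_
    · refine key.trans (le_of_eq ?_)
      rw [Kp]; ring
    · intro l hl
      have c1 : ContDiffAt ℝ l (deriv u) t := hu'.contDiffAt.of_le (by exact_mod_cast le_top)
      have c2 : ContDiffAt ℝ l (fun s => ((deriv φ s : ℝ) : ℂ)) t :=
        hφc.contDiffAt.of_le (by exact_mod_cast le_top)
      have c3 : ContDiffAt ℝ l u t := hu.contDiffAt.of_le (by exact_mod_cast le_top)
      have e1 : iteratedDeriv l (fun s => deriv u s + (2 * Real.pi * Complex.I) *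
          (((deriv φ s : ℝ) : ℂ) * u s)) t = iteratedDeriv (l + 1) u t +
          (2 * Real.pi * Complex.I) * ∑ i ∈ Finset.range (l + 1), (l.choose i : ℂ) *
            ((iteratedDeriv i (deriv φ) t : ℝ) : ℂ) * iteratedDeriv (l - i) u t := by
        have := iteratedDeriv_add (n := l) (x := t) (f := deriv u)
          (g := fun s => (2 * Real.pi * Complex.I) * (((deriv φ s : ℝ) : ℂ) * u s)) c1
          (contDiffAt_const.mul (c2.mul c3))
        rw [show (fun s => deriv u s + (2 * Real.pi * Complex.I) *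
          (((deriv φ s : ℝ) : ℂ) * u s)) = deriv u + (fun s => (2 * Real.pi * Complex.I) *
          (((deriv φ s : ℝ) : ℂ) * u s)) from rfl, this, ← iteratedDeriv_succ',
          iteratedDeriv_const_mul _ (c2.mul c3), iteratedDeriv_fun_mul c2 c3]
        simp_rw [iteratedDeriv_ofReal' _ _ hφ']
      rw [e1]
      have b1 : ‖iteratedDeriv (l + 1) u t‖ ≤ B * r ^ (l + 1) := h2 _ (by omega)
      have b2 : ‖∑ i ∈ Finset.range (l + 1), (l.choose i : ℂ) *
            ((iteratedDeriv i (deriv φ) t : ℝ) : ℂ) * iteratedDeriv (l - i) u t‖ ≤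
          ∑ i ∈ Finset.range (l + 1), (l.choose i : ℝ) * (C * B * r ^ (l + 1)) := by
        refine (norm_sum_le _ _).trans (Finset.sum_le_sum fun i hi => ?_)
        have hi' : i ≤ l := by have := Finset.mem_range.1 hi; omega
        rw [norm_mul, norm_mul, Complex.norm_natCast, Complex.norm_real]
        have b3 := h1 i (by omega)
        have b4 := h2 (l - i) (by omega)
        have b5 : C * r ^ (i + 1) * (B * r ^ (l - i)) = C * B * r ^ (l + 1) := by
          have : l + 1 = (i + 1) + (l - i) := by omega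
          rw [this, pow_add]; ring
        rw [mul_assoc]
        refine mul_le_mul_of_nonneg_left ?_ (by positivity)
        rw [← b5]
        gcongr
      rw [← Finset.sum_mul] at b2
      have b6 : (∑ i ∈ Finset.range (l + 1), (l.choose i : ℝ)) = 2 ^ l := by
        exact_mod_cast Nat.sum_range_choose l
      rw [b6] at b2
      have b7 : (2 : ℝ) ^ l ≤ 2 ^ n := pow_le_pow_right₀ (by norm_num) (by omega)
      refine (norm_add_le _ _).trans ?_
      rw [norm_mul]
      have b8 : ‖(2 * Real.pi * Complex.I : ℂ)‖ = 2 * Real.pi := by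
        simp [abs_of_pos Real.pi_pos]
      rw [b8]
      have b9 : 2 * Real.pi * ‖∑ i ∈ Finset.range (l + 1), (l.choose i : ℂ) *
            ((iteratedDeriv i (deriv φ) t : ℝ) : ℂ) * iteratedDeriv (l - i) u t‖ ≤
          2 * Real.pi * (2 ^ n * (C * B * r ^ (l + 1))) := by
        refine mul_le_mul_of_nonneg_left (b2.trans ?_) (by positivity)
        gcongr
      calc _ ≤ B * r ^ (l + 1) + 2 * Real.pi * (2 ^ n * (C * B * r ^ (l + 1))) :=
            add_le_add b1 b9
        _ = _ := by rw [pow_succ]; ring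

end

end Pool.Agent.H84.KL
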