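import Pool.Agent.H84.KL.PHB

/-! The multiplier of the transport lemma. -/

open MeasureTheory Set
open scoped ENNReal NNReal RealInnerProductSpace Topology

namespace Pool.Agent.H84.KL

noncomputable section

variable {d : ℕ}

/-- directional derivative -/
def Dv {G : Type*} [NormedAddCommGroup G] [NormedSpace ℝ G] (i : Fin d) (F : E d → G) (ξ : E d) :
    G := fderiv ℝ F ξ (ev i)

variable {G : Type*} [NormedAddCommGroup G] [NormedSpace ℝ G]

lemma Dv_smooth (i : Fin d) (F : E d → G) (hF : ContDiff ℝ (⊤ : ℕ∞) F) :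
    ContDiff ℝ (⊤ : ℕ∞) (Dv i F) := by
  unfold Dv
  have h1 : ContDiff ℝ (⊤ : ℕ∞) (fderiv ℝ F) := hF.fderiv_right (by simp)
  exact h1.clm_apply contDiff_const

lemma Dv_iter_smooth (i : Fin d) (n : ℕ) (F : E d → G) (hF : ContDiff ℝ (⊤ : ℕ∞) F) :
    ContDiff ℝ (⊤ : ℕ∞) ((Dv i)^[n] F) := by
  induction n with
  | zero => exact hF
  | succ n ih => rw [Function.iterate_succ_apply']; exact Dv_smooth i _ ih

lemma iter_line (F : E d → G) (hF : ContDiff ℝ (⊤ : ℕ∞) F) (i : Fin d) (n : ℕ) (ξ : E d) :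
    iteratedDeriv n (fun t : ℝ => F (ξ + t • ev i)) =
      fun t => ((Dv i)^[n] F) (ξ + t • ev i) := by
  induction n with
  | zero => simp
  | succ n ih =>
    rw [iteratedDeriv_succ, ih]
    ext t
    rw [Function.iterate_succ_apply']
    have h0 := Dv_iter_smooth i n F hF
    have h1 : HasDerivAt (fun t : ℝ => ξ + t • (ev i : E d)) (ev i) t := by
      simpa using ((hasDerivAt_id t).smul_const (ev i : E d)).const_add ξ
    exact ((h0.differentiable (by simp) _).hasFDerivAt.comp_hasDerivAt t h1).deriv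

lemma pd_Dv (F : E d → ℂ) (hF : ContDiff ℝ (⊤ : ℕ∞) F) (i : Fin d) (n : ℕ) (ξ : E d) :
    pd i n F ξ = ((Dv i)^[n] F) ξ := by
  unfold pd
  rw [iter_line F hF]; simp

/-- a smooth modification of the norm -/
lemma exists_smooth_norm (c : ℝ) (hc : 0 < c) : ∃ N : E d → ℝ, ContDiff ℝ (⊤ : ℕ∞) N ∧
    ∀ ξ, c / 2 < ‖ξ‖ → N ξ = ‖ξ‖ := by
  let ρ : ContDiffBump (0 : E d) := ⟨c / 4, c / 2, by linarith, by linarith⟩
  refine ⟨fun ξ => (1 - ρ ξ) * ‖ξ‖, ?_, ?_⟩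
  · rw [contDiff_iff_contDiffAt]
    intro ξ
    rcases eq_or_ne ξ 0 with h | h
    · subst h
      have : (fun ξ : E d => (1 - ρ ξ) * ‖ξ‖) =ᶠ[𝓝 0] fun _ => 0 := by
        filter_upwards [Metric.ball_mem_nhds (0 : E d) (by linarith : (0 : ℝ) < c / 4)] with ξ hξ
        have h1 : ρ ξ = 1 := ρ.one_of_mem_closedBall (Metric.ball_subset_closedBall hξ)
        rw [h1]; ring
      exact contDiffAt_const.congr_of_eventuallyEq this
    · exact (contDiffAt_const.sub ρ.contDiffAt).mul (contDiffAt_norm ℝ h)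
  · intro ξ hξ
    have : ρ ξ = 0 := ρ.zero_of_le_dist (by simpa using hξ.le)
    simp only [this]; ring

/-- uniform bounds for the smooth norm -/
lemma norm_bounds (N : E d → ℝ) (hN : ContDiff ℝ (⊤ : ℕ∞) N) (K : Set (E d)) (hK : IsCompact K)
    (n : ℕ) : ∃ B : ℝ, 0 ≤ B ∧ (∀ i : Fin d, ∀ l ≤ n, ∀ ξ ∈ K, ‖((Dv i)^[l] N) ξ‖ ≤ B) ∧
      ∀ i : Fin d, ∀ ξ ∈ K, ‖fderiv ℝ (Dv i N) ξ‖ ≤ B := by
  have h1 : ∀ (i : Fin d) (l : ℕ), ∃ B : ℝ, ∀ ξ ∈ K, ‖((Dv i)^[l] N) ξ‖ ≤ B := fun i l =>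
    hK.exists_bound_of_continuousOn (Dv_iter_smooth i l N hN).continuous.continuousOn
  have h2 : ∀ i : Fin d, ∃ B : ℝ, ∀ ξ ∈ K, ‖fderiv ℝ (Dv i N) ξ‖ ≤ B := fun i =>
    hK.exists_bound_of_continuousOn
      ((Dv_smooth i N hN).continuous_fderiv (by simp)).continuousOn
  choose B1 hB1 using h1
  choose B2 hB2 using h2
  refine ⟨(∑ i, ∑ l ∈ Finset.range (n + 1), |B1 i l|) + ∑ i, |B2 i|, by positivity, ?_, ?_⟩
  · intro i l hl ξ hξ
    refine (hB1 i l ξ hξ).trans ((le_abs_self _).trans ?_)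
    have a1 : |B1 i l| ≤ ∑ l ∈ Finset.range (n + 1), |B1 i l| :=
      Finset.single_le_sum (f := fun l => |B1 i l|) (fun _ _ => abs_nonneg _)
        (Finset.mem_range.2 (by omega))
    have a2 : ∑ l ∈ Finset.range (n + 1), |B1 i l| ≤
        ∑ i, ∑ l ∈ Finset.range (n + 1), |B1 i l| :=
      Finset.single_le_sum (f := fun i => ∑ l ∈ Finset.range (n + 1), |B1 i l|)
        (fun _ _ => by positivity) (Finset.mem_univ i)
    have a3 : 0 ≤ ∑ i, |B2 i| := by positivity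
    linarith
  · intro i ξ hξ
    refine (hB2 i ξ hξ).trans ((le_abs_self _).trans ?_)
    have a2 : |B2 i| ≤ ∑ i, |B2 i| :=
      Finset.single_le_sum (f := fun i => |B2 i|) (fun _ _ => by positivity) (Finset.mem_univ i)
    have a3 : 0 ≤ ∑ i, ∑ l ∈ Finset.range (n + 1), |B1 i l| := by positivity
    linarith

/-- bounds for a fixed bump function -/
lemma bump_bounds (χ : E d → ℂ) (hχ : TC χ) (n : ℕ) :
    ∃ B : ℝ, 0 ≤ B ∧ (∀ ξ, ‖χ ξ‖ ≤ B) ∧ ∀ i : Fin d, ∀ l ≤ n, ∀ ξ, ‖((Dv i)^[l] χ) ξ‖ ≤ B := by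
  have h0 : ∃ B : ℝ, ∀ ξ, ‖χ ξ‖ ≤ B := hχ.2.exists_bound_of_continuous hχ.1.continuous
  have hs : ∀ (i : Fin d) (l : ℕ), HasCompactSupport ((Dv i)^[l] χ) := by
    intro i l
    induction l with
    | zero => exact hχ.2
    | succ l ih =>
      rw [Function.iterate_succ_apply']
      exact ih.fderiv_apply ℝ _
  have h1 : ∀ (i : Fin d) (l : ℕ), ∃ B : ℝ, ∀ ξ, ‖((Dv i)^[l] χ) ξ‖ ≤ B := fun i l =>
    (hs i l).exists_bound_of_continuous (Dv_iter_smooth i l χ hχ.1).continuous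
  choose B1 hB1 using h1
  obtain ⟨B0, hB0⟩ := h0
  refine ⟨(∑ i, ∑ l ∈ Finset.range (n + 1), |B1 i l|) + |B0|, by positivity, ?_, ?_⟩
  · intro ξ
    have a3 : 0 ≤ ∑ i, ∑ l ∈ Finset.range (n + 1), |B1 i l| := by positivity
    have := (hB0 ξ).trans (le_abs_self _)
    linarith
  · intro i l hl ξ
    refine (hB1 i l ξ).trans ((le_abs_self _).trans ?_)
    have a1 : |B1 i l| ≤ ∑ l ∈ Finset.range (n + 1), |B1 i l| :=
      Finset.single_le_sum (f := fun l => |B1 i l|) (fun _ _ => abs_nonneg _)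
        (Finset.mem_range.2 (by omega))
    have a2 : ∑ l ∈ Finset.range (n + 1), |B1 i l| ≤
        ∑ i, ∑ l ∈ Finset.range (n + 1), |B1 i l| :=
      Finset.single_le_sum (f := fun i => ∑ l ∈ Finset.range (n + 1), |B1 i l|)
        (fun _ _ => by positivity) (Finset.mem_univ i)
    have a3 : 0 ≤ |B0| := abs_nonneg _
    linarith

end

end Pool.Agent.H84.KL
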