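import Pool.Agent.H84.KL.PHM

/-! The multiplier of the transport lemma: construction and bounds. -/

open MeasureTheory Set
open scoped ENNReal NNReal RealInnerProductSpace Topology

namespace Pool.Agent.H84.KL

noncomputable section

variable {d : ℕ}

lemma Dv_const_mul (i : Fin d) (s : ℝ) (F : E d → ℝ) (hF : ContDiff ℝ (⊤ : ℕ∞) F) :
    Dv i (fun ξ => s * F ξ) = fun ξ => s * Dv i F ξ := by
  ext ξ
  unfold Dv
  have h := (hF.differentiable (by simp) ξ)
  rw [fderiv_const_mul h]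
  simp

lemma Dv_iter_const_mul (i : Fin d) (n : ℕ) (s : ℝ) (F : E d → ℝ)
    (hF : ContDiff ℝ (⊤ : ℕ∞) F) :
    (Dv i)^[n] (fun ξ => s * F ξ) = fun ξ => s * ((Dv i)^[n] F) ξ := by
  induction n with
  | zero => rfl
  | succ n ih =>
    rw [Function.iterate_succ_apply', ih, Function.iterate_succ_apply',
      Dv_const_mul i s _ (Dv_iter_smooth i n F hF)]

lemma Dv_sub_inner (i : Fin d) (ω : E d) (F : E d → ℝ) (hF : ContDiff ℝ (⊤ : ℕ∞) F) :
    Dv i (fun ξ => F ξ - ⟪ω, ξ⟫) = fun ξ => Dv i F ξ - ⟪ω, (ev i : E d)⟫ := by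
  ext ξ
  unfold Dv
  have h := (hF.differentiable (by simp) ξ)
  have h2 : HasFDerivAt (fun ξ : E d => ⟪ω, ξ⟫) (innerSL ℝ ω) ξ := (innerSL ℝ ω).hasFDerivAt
  rw [(h.hasFDerivAt.fun_sub h2).fderiv]
  rfl

lemma Dv_sub_const (i : Fin d) (c : ℝ) (F : E d → ℝ) :
    Dv i (fun ξ => F ξ - c) = fun ξ => Dv i F ξ := by
  ext ξ
  unfold Dv
  rw [fderiv_sub_const]

theorem phm (Γ : Set (E d)) (C1 : ℝ) (hΓ : IsCompact Γ) (h0 : (0 : E d) ∉ Γ) :
    ∃ (A δ0 : ℝ), 0 < A ∧ 0 < δ0 ∧ δ0 ≤ 1 ∧ (∀ ξ0 ∈ Γ, ∀ ξ, ‖ξ - ξ0‖ ≤ δ0 → ξ ≠ 0) ∧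
    ∀ (ξ0 : E d) (δ r s : ℝ), ξ0 ∈ Γ → 0 < δ → δ ≤ δ0 →
    1 ≤ δ * r → |s| * δ ≤ C1 * r → ∃ m : E d → ℂ, TC m ∧
    (∀ ξ, ‖ξ - ξ0‖ ≤ δ → m ξ = e (s * (‖ξ‖ - ⟪(‖ξ0‖)⁻¹ • ξ0, ξ⟫))) ∧
    (∀ ξ, ‖m ξ‖ ≤ A) ∧
    ∀ (i : Fin d) (j : ℕ) (ξ : E d), j ≤ d + 1 → ‖pd i j m ξ‖ ≤ A * r ^ j := by
  -- lower bound for the norm on `Γ`
  obtain ⟨c, hc, hcΓ⟩ : ∃ c > 0, ∀ ξ ∈ Γ, c ≤ ‖ξ‖ := by
    have h1 : Γᶜ ∈ 𝓝 (0 : E d) := hΓ.isClosed.isOpen_compl.mem_nhds h0
    obtain ⟨c, hc, hcs⟩ := Metric.mem_nhds_iff.1 h1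
    refine ⟨c, hc, fun ξ hξ => ?_⟩
    by_contra hlt
    exact hcs (by simpa using not_le.1 hlt) hξ
  obtain ⟨N, hNs, hN⟩ := exists_smooth_norm (d := d) c hc
  set K := Metric.cthickening 2 Γ with hK
  have hKc : IsCompact K := hΓ.cthickening
  obtain ⟨B, hB, hB1, hB2⟩ := norm_bounds N hNs K hKc (d + 2)
  let ρ : ContDiffBump (0 : E d) := ⟨1, 2, by norm_num, by norm_num⟩
  set χ : E d → ℂ := fun ξ => (ρ ξ : ℂ) with hχ
  have hχT : TC χ := by
    refine ⟨Complex.ofRealCLM.contDiff.comp ρ.contDiff, ?_⟩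
    exact ρ.hasCompactSupport.comp_left (g := fun x : ℝ => (x : ℂ)) (by simp)
  obtain ⟨B', hB', hB0', hB1'⟩ := bump_bounds χ hχT (d + 1)
  set C' := 2 * B * |C1| with hC'
  have hC'n : 0 ≤ C' := by positivity
  set A := 1 + B' + ∑ j ∈ Finset.range (d + 2), Kp C' j * B' with hA
  have hAs : 0 ≤ ∑ j ∈ Finset.range (d + 2), Kp C' j * B' :=
    Finset.sum_nonneg fun j _ => mul_nonneg (Kp_nonneg hC'n j) hB'
  refine ⟨A, min 1 (c / 8), by positivity, by positivity, min_le_left _ _, ?_, ?_⟩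
  · intro ξ0 hξ0 ξ hξ hz
    have h1 := hcΓ ξ0 hξ0
    rw [hz, zero_sub, norm_neg] at hξ
    have := hξ.trans (min_le_right _ _)
    linarith
  intro ξ0 δ r s hξ0 hδ hδ0 hδr hsδ
  have hδ1 : δ ≤ 1 := hδ0.trans (min_le_left _ _)
  have hδc : δ ≤ c / 8 := hδ0.trans (min_le_right _ _)
  have hr1 : 1 ≤ r := by nlinarith
  have hr : 0 < r := by linarith
  have hδr' : δ⁻¹ ≤ r := by
    rw [inv_le_iff_one_le_mul₀ hδ]; linarith
  have hξ0n : c ≤ ‖ξ0‖ := hcΓ ξ0 hξ0
  have hξ0p : 0 < ‖ξ0‖ := by linarith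
  set ω : E d := (‖ξ0‖)⁻¹ • ξ0 with hω
  have hωn : ‖ω‖ = 1 := by
    rw [hω, norm_smul, norm_inv, norm_norm]; field_simp
  -- the multiplier
  refine ⟨fun ξ => χ (δ⁻¹ • (ξ - ξ0)) * e (s * (N ξ - ⟪ω, ξ⟫)), ⟨?_, ?_⟩, ?_, ?_, ?_⟩
  · refine ContDiff.mul (hχT.1.comp ?_) (contDiff_e.comp (contDiff_const.mul (hNs.sub ?_)))
    · fun_prop
    · exact (innerSL ℝ ω).contDiff
  · refine HasCompactSupport.intro (isCompact_closedBall ξ0 (2 * δ)) fun ξ hξ => ?_
    have h1 : χ (δ⁻¹ • (ξ - ξ0)) = 0 := by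
      have : ρ (δ⁻¹ • (ξ - ξ0)) = 0 := by
        refine ρ.zero_of_le_dist ?_
        change 2 ≤ _
        rw [dist_zero_right, norm_smul, norm_inv, Real.norm_eq_abs, abs_of_pos hδ]
        rw [Metric.mem_closedBall, dist_eq_norm, not_le] at hξ
        rw [inv_mul_eq_div, le_div_iff₀ hδ]; exact hξ.le
      simp only [hχ, this, Complex.ofReal_zero]
    rw [h1, zero_mul]
  · intro ξ hξ
    have h1 : χ (δ⁻¹ • (ξ - ξ0)) = 1 := by
      have : ρ (δ⁻¹ • (ξ - ξ0)) = 1 := by
        refine ρ.one_of_mem_closedBall ?_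
        rw [Metric.mem_closedBall, dist_zero_right, norm_smul, norm_inv, Real.norm_eq_abs,
          abs_of_pos hδ]
        change _ ≤ (1 : ℝ)
        rw [inv_mul_eq_div, div_le_one hδ]; exact hξ
      simp only [hχ, this, Complex.ofReal_one]
    have h2 : N ξ = ‖ξ‖ := by
      refine hN ξ ?_
      have : ‖ξ0‖ ≤ ‖ξ‖ + ‖ξ - ξ0‖ := by
        calc ‖ξ0‖ = ‖ξ - (ξ - ξ0)‖ := by congr 1; abel
          _ ≤ _ := norm_sub_le _ _
      linarith
    simp only
    rw [h1, h2, one_mul]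
  · intro ξ
    rw [norm_mul, norm_e, mul_one]
    have := hB0' (δ⁻¹ • (ξ - ξ0))
    linarith
  · intro i j ξ hj
    by_cases hfar : 2 * δ < ‖ξ - ξ0‖
    · have hev : (fun t : ℝ => χ (δ⁻¹ • ((ξ + t • ev i) - ξ0)) *
          e (s * (N (ξ + t • ev i) - ⟪ω, ξ + t • ev i⟫))) =ᶠ[𝓝 0] fun _ => 0 := by
        have hcont : Continuous fun t : ℝ => ‖(ξ + t • (ev i : E d)) - ξ0‖ := by fun_prop
        have h1 : {t : ℝ | 2 * δ < ‖(ξ + t • (ev i : E d)) - ξ0‖} ∈ 𝓝 (0 : ℝ) :=
          (isOpen_lt continuous_const hcont).mem_nhds (by simpa using hfar)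
        filter_upwards [h1] with t ht
        have h2 : χ (δ⁻¹ • ((ξ + t • ev i) - ξ0)) = 0 := by
          have : ρ (δ⁻¹ • ((ξ + t • ev i) - ξ0)) = 0 := by
            refine ρ.zero_of_le_dist ?_
            change 2 ≤ _
            rw [dist_zero_right, norm_smul, norm_inv, Real.norm_eq_abs, abs_of_pos hδ]
            rw [inv_mul_eq_div, le_div_iff₀ hδ]
            exact le_of_lt ht
          simp only [hχ, this, Complex.ofReal_zero]
        rw [h2, zero_mul]
      unfold pd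
      rw [hev.iteratedDeriv_eq]
      have : iteratedDeriv j (fun _ : ℝ => (0 : ℂ)) 0 = 0 := by
        rw [iteratedDeriv_const]; simp
      rw [this, norm_zero]
      have : 0 ≤ A := by positivity
      positivity
    · rw [not_lt] at hfar
      have hball : Metric.closedBall ξ0 2 ⊆ K := by
        intro η hη
        exact Metric.mem_cthickening_of_dist_le η ξ0 2 Γ hξ0 hη
      have hξK : ξ ∈ Metric.closedBall ξ0 2 := by
        rw [Metric.mem_closedBall, dist_eq_norm]; linarith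
      -- derivatives of the phase
      set F : E d → ℝ := fun ξ => s * (N ξ - ⟪ω, ξ⟫) with hF
      have hψs : ContDiff ℝ (⊤ : ℕ∞) (fun ξ : E d => N ξ - ⟪ω, ξ⟫) :=
        hNs.sub (innerSL ℝ ω).contDiff
      have hFs : ContDiff ℝ (⊤ : ℕ∞) F := contDiff_const.mul hψs
      -- gradient of `N` at `ξ0`
      have hgrad : Dv i N ξ0 = ⟪ω, (ev i : E d)⟫ := by
        have hmin : IsLocalMin (fun ξ : E d => N ξ - ⟪ω, ξ⟫) ξ0 := by
          have h1 : {ξ : E d | c / 2 < ‖ξ‖} ∈ 𝓝 ξ0 :=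
            (isOpen_lt continuous_const continuous_norm).mem_nhds
              (by change c / 2 < ‖ξ0‖; linarith)
          filter_upwards [h1] with η hη
          have h2 : N ξ0 - ⟪ω, ξ0⟫ = 0 := by
            rw [hN ξ0 (by linarith), hω, real_inner_smul_left, real_inner_self_eq_norm_sq]
            field_simp; ring
          rw [h2, hN η hη]
          have h3 : ⟪ω, η⟫ ≤ ‖ω‖ * ‖η‖ := real_inner_le_norm _ _
          rw [hωn, one_mul] at h3
          linarith
        have h4 := hmin.fderiv_eq_zero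
        have h5 : Dv i (fun ξ : E d => N ξ - ⟪ω, ξ⟫) ξ0 = 0 := by
          unfold Dv; rw [h4]; rfl
        rw [Dv_sub_inner i ω N hNs] at h5
        linarith
      have hgradξ : ‖Dv i N ξ - ⟪ω, (ev i : E d)⟫‖ ≤ B * ‖ξ - ξ0‖ := by
        rw [← hgrad]
        refine (convex_closedBall ξ0 2).norm_image_sub_le_of_norm_fderiv_le
          (fun η _ => ((Dv_smooth i N hNs).differentiable (by simp)).differentiableAt)
          (fun η hη => hB2 i η (hball hη)) (Metric.mem_closedBall_self (by norm_num)) hξK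
      have hφd : ∀ l < j, ‖iteratedDeriv l (deriv (fun t : ℝ => F (ξ + t • ev i))) 0‖ ≤
          C' * r ^ (l + 1) := by
        intro l hl
        rw [← iteratedDeriv_succ', iter_line F hFs]
        simp only [zero_smul, add_zero]
        have hsabs : |s| * δ ≤ |C1| * r := hsδ.trans (by gcongr; exact le_abs_self _)
        have hDF : Dv i F = fun ξ => s * (Dv i N ξ - ⟪ω, (ev i : E d)⟫) := by
          rw [hF, Dv_const_mul i s _ hψs, Dv_sub_inner i ω N hNs]
        rcases Nat.eq_zero_or_pos l with hl0 | hl0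
        · subst hl0
          simp only [Function.iterate_succ, Function.iterate_zero, Function.comp_apply, id,
            zero_add, pow_one]
          rw [hDF]
          simp only
          rw [norm_mul, Real.norm_eq_abs s]
          calc |s| * ‖Dv i N ξ - ⟪ω, (ev i : E d)⟫‖ ≤ |s| * (B * (2 * δ)) := by
                gcongr
                exact hgradξ.trans (by gcongr)
            _ = 2 * B * (|s| * δ) := by ring
            _ ≤ 2 * B * (|C1| * r) := by gcongr
            _ = C' * r := by rw [hC']; ring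
        · obtain ⟨l', rfl⟩ : ∃ l', l = l' + 1 := ⟨l - 1, by omega⟩
          have hDD : (Dv i)^[l' + 1 + 1] F = fun ξ => s * ((Dv i)^[l' + 1 + 1] N) ξ := by
            rw [Function.iterate_succ_apply, hDF, Function.iterate_succ_apply]
            have h6 : Dv i (fun ξ => s * (Dv i N ξ - ⟪ω, (ev i : E d)⟫)) =
                fun ξ => s * Dv i (Dv i N) ξ := by
              rw [Dv_const_mul i s _ ((Dv_smooth i N hNs).sub contDiff_const), Dv_sub_const]
            rw [h6, Dv_iter_const_mul i l' s _ (Dv_smooth i _ (Dv_smooth i N hNs))]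
            rfl
          rw [hDD]
          simp only
          rw [norm_mul, Real.norm_eq_abs s]
          have h7 := hB1 i (l' + 1 + 1) (by omega) ξ (hball hξK)
          have h8 : |s| ≤ |C1| * r * r := by
            have : |s| ≤ |C1| * r * δ⁻¹ := by
              rw [← div_eq_mul_inv, le_div_iff₀ hδ]; exact hsabs
            exact this.trans (by gcongr)
          calc |s| * ‖((Dv i)^[l' + 1 + 1] N) ξ‖ ≤ (|C1| * r * r) * B := by gcongr
            _ = B * |C1| * r ^ 2 := by ring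
            _ ≤ C' * r ^ (l' + 1 + 1) := by
              rw [hC']
              have h9 : r ^ 2 ≤ r ^ (l' + 1 + 1) := pow_le_pow_right₀ hr1 (by omega)
              have h10 : B * |C1| ≤ 2 * B * |C1| := by
                have : 0 ≤ B * |C1| := by positivity
                linarith
              gcongr
      -- derivatives of the cut-off
      have hud : ∀ l ≤ j, ‖iteratedDeriv l (fun t : ℝ => χ (δ⁻¹ • ((ξ + t • ev i) - ξ0))) 0‖ ≤
          B' * r ^ l := by
        intro l hl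
        have h1 : (fun t : ℝ => χ (δ⁻¹ • ((ξ + t • (ev i : E d)) - ξ0))) =
            fun t => (fun τ : ℝ => χ (δ⁻¹ • (ξ - ξ0) + τ • ev i)) (δ⁻¹ * t) := by
          ext t
          simp only
          congr 1
          rw [← smul_smul, ← smul_add]
          congr 1; abel
        have h2 : ContDiff ℝ l (fun τ : ℝ => χ (δ⁻¹ • (ξ - ξ0) + τ • ev i)) :=
          (line_smooth χ hχT.1 i _).of_le (by exact_mod_cast le_top)
        rw [h1, iteratedDeriv_comp_const_smul h2, iter_line χ hχT.1]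
        simp only [mul_zero, zero_smul, add_zero]
        rw [norm_smul, norm_pow, norm_inv, Real.norm_eq_abs, abs_of_pos hδ, mul_comm]
        have h3 := hB1' i l (by omega) (δ⁻¹ • (ξ - ξ0))
        have h4 : δ⁻¹ ^ l ≤ r ^ l := pow_le_pow_left₀ (by positivity) hδr' l
        gcongr
      have key := phase_bound j (fun t : ℝ => χ (δ⁻¹ • ((ξ + t • ev i) - ξ0)))
        (fun t : ℝ => F (ξ + t • ev i)) 0 r C' B' hr hC'n hB'
        (by
          refine hχT.1.comp ?_
          fun_prop)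
        (by
          refine hFs.comp ?_
          fun_prop) hφd hud
      change ‖iteratedDeriv j (fun s => χ (δ⁻¹ • ((ξ + s • ev i) - ξ0)) *
        e (F (ξ + s • ev i))) 0‖ ≤ _
      refine key.trans ?_
      have h1 : Kp C' j * B' ≤ ∑ j ∈ Finset.range (d + 2), Kp C' j * B' :=
        Finset.single_le_sum (f := fun j => Kp C' j * B')
          (fun j _ => mul_nonneg (Kp_nonneg hC'n j) hB') (Finset.mem_range.2 (by omega))
      gcongr
      linarith

end

end Pool.Agent.H84.KL
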