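import Pool.Agent.H84.KL.TRN

/-! Shift lemmas and measurability. -/

open MeasureTheory Set
open scoped ENNReal NNReal RealInnerProductSpace Topology

namespace Pool.Agent.H84.KL

noncomputable section

variable {d k m : ℕ}

lemma cont_U (b : E d → ℂ) (hb : Continuous b) (hc : HasCompactSupport b) :
    Continuous (fun p : E d × ℝ => U b p.1 p.2) := by
  unfold U
  refine continuous_of_dominated (bound := fun ξ => ‖b ξ‖) ?_ ?_ ?_ ?_
  · intro p
    have := continuous_e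
    exact (by fun_prop : Continuous fun ξ : E d => e (⟪p.1, ξ⟫ + p.2 * ‖ξ‖) * b ξ).aestronglyMeasurable
  · intro p
    refine Filter.Eventually.of_forall fun ξ => ?_
    rw [norm_mul, norm_e, one_mul]
  · exact (hb.integrable_of_hasCompactSupport hc).norm
  · refine Filter.Eventually.of_forall fun ξ => ?_
    have := continuous_e
    fun_prop

lemma meas_EU (b : E d → ℂ) (hb : TC b) (r : ℝ) : Measurable (fun z : E d × ℝ => EU r b z) := by
  unfold EU En
  have h1 : Continuous (fun p : (E d × ℝ) × E d =>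
      ENNReal.ofReal (wt r (p.2 - p.1.1) * ‖U b p.2 p.1.2‖ ^ 2)) := by
    have h2 := cont_U b hb.1.continuous hb.2
    have h5 : Continuous (fun p : (E d × ℝ) × E d => ((p.2, p.1.2) : E d × ℝ)) := by fun_prop
    have h3 : Continuous (fun p : (E d × ℝ) × E d => U b p.2 p.1.2) :=
      Continuous.comp (g := fun p : E d × ℝ => U b p.1 p.2)
        (f := fun p : (E d × ℝ) × E d => ((p.2, p.1.2) : E d × ℝ)) h2 h5
    have h4 : Continuous (fun p : (E d × ℝ) × E d => wt r (p.2 - p.1.1)) :=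
      Continuous.comp (g := fun x : E d => wt r x)
        (f := fun p : (E d × ℝ) × E d => p.2 - p.1.1) (continuous_wt r) (by fun_prop)
    exact ENNReal.continuous_ofReal.comp (h4.mul (h3.norm.pow 2))
  exact h1.measurable.lintegral_prod_right'

lemma cont_Ps (v : Fin k → E d) (g : Fin m → E d × ℝ) :
    Continuous (fun a : Co k m => Ps v g a) := by
  unfold Ps; fun_prop

lemma Ps_sub (v : Fin k → E d) (g : Fin m → E d × ℝ) (a a' : Co k m) :
    Ps v g (a - a') = Ps v g a - Ps v g a' := by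
  unfold Ps
  simp only [Prod.fst_sub, Prod.snd_sub, Pi.sub_apply, sub_smul, Finset.sum_sub_distrib]
  abel

lemma norm_Ps_le (v : Fin k → E d) (g : Fin m → E d × ℝ) (Cb : ℝ) (hv : ∀ j, ‖v j‖ ≤ 1)
    (hg : ∀ j, ‖g j‖ ≤ Cb) (a : Co k m) : ‖Ps v g a‖ ≤ (k + m * |Cb|) * ‖a‖ := by
  unfold Ps
  have h1 : ‖∑ i, a.1 i • ((v i, 1) : E d × ℝ)‖ ≤ ∑ _i : Fin k, ‖a‖ := by
    refine (norm_sum_le _ _).trans (Finset.sum_le_sum fun i _ => ?_)
    rw [norm_smul]
    have a1 : ‖a.1 i‖ ≤ ‖a‖ := (norm_le_pi_norm a.1 i).trans (norm_fst_le a)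
    have a2 : ‖((v i, 1) : E d × ℝ)‖ ≤ 1 := by
      rw [Prod.norm_mk]; simp [hv i]
    calc ‖a.1 i‖ * ‖((v i, 1) : E d × ℝ)‖ ≤ ‖a‖ * 1 := by gcongr
      _ = _ := mul_one _
  have h2 : ‖∑ j, a.2 j • g j‖ ≤ ∑ _j : Fin m, |Cb| * ‖a‖ := by
    refine (norm_sum_le _ _).trans (Finset.sum_le_sum fun i _ => ?_)
    rw [norm_smul]
    have a1 : ‖a.2 i‖ ≤ ‖a‖ := (norm_le_pi_norm a.2 i).trans (norm_snd_le a)
    have a2 := (hg i).trans (le_abs_self Cb)
    calc ‖a.2 i‖ * ‖g i‖ ≤ ‖a‖ * |Cb| := by gcongr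
      _ = _ := mul_comm _ _
  simp only [Finset.sum_const, Finset.card_univ, Fintype.card_fin, nsmul_eq_mul] at h1 h2
  refine (norm_add_le _ _).trans ?_
  calc _ ≤ k * ‖a‖ + m * (|Cb| * ‖a‖) := add_le_add h1 h2
    _ = _ := by ring

/-- changing the `i`-th coordinate moves along the `i`-th light ray -/
lemma Ps_update (v : Fin k → E d) (g : Fin m → E d × ℝ) (i : Fin k) (a : Co k m) (t : ℝ) :
    Ps v g a = Ps v g (Function.update a.1 i t, a.2) + (a.1 i - t) • ((v i, 1) : E d × ℝ) := by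
  unfold Ps
  simp only
  have h : ∑ j, a.1 j • ((v j, 1) : E d × ℝ) =
      ∑ j, Function.update a.1 i t j • ((v j, 1) : E d × ℝ) +
        (a.1 i - t) • ((v i, 1) : E d × ℝ) := by
    rw [← Finset.add_sum_erase _ _ (Finset.mem_univ i),
      ← Finset.add_sum_erase (Finset.univ) (fun j => Function.update a.1 i t j •
        ((v j, 1) : E d × ℝ)) (Finset.mem_univ i)]
    rw [Function.update_self]
    have h2 : ∑ j ∈ Finset.univ.erase i, Function.update a.1 i t j • ((v j, 1) : E d × ℝ) =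
        ∑ j ∈ Finset.univ.erase i, a.1 j • ((v j, 1) : E d × ℝ) := by
      refine Finset.sum_congr rfl fun j hj => ?_
      rw [Function.update_of_ne (Finset.ne_of_mem_erase hj)]
    rw [h2, sub_smul]
    abel
  rw [h]
  abel

lemma La_update (v : Fin k → E d) (g : Fin m → E d × ℝ) (i : Fin k) (a : Co k m) (t : ℝ) :
    La v g i (Function.update a.1 i t, a.2) = La v g i a := by
  unfold La
  rw [Ps_update v g i a t]
  simp only [Prod.fst_add, Prod.snd_add, Prod.smul_fst, Prod.smul_snd, smul_eq_mul, mul_one,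
    add_smul]
  abel

/-- transport lemma with both estimates: along the ray up to distance `C1 L r` and all directions
up to distance `C1 r` -/
theorem shf (Γ : Set (E d)) (C1 : ℝ) (hΓ : IsCompact Γ) (h0 : (0 : E d) ∉ Γ) :
    ∃ (C L0 : ℝ), 0 < C ∧ 1 ≤ L0 ∧ (∀ ξ0 ∈ Γ, ∀ ξ, ‖ξ - ξ0‖ ≤ L0⁻¹ → ξ ≠ 0) ∧
    ∀ (ξ0 : E d) (L r : ℝ) (b : E d → ℂ), ξ0 ∈ Γ → L0 ≤ L → L ≤ r →
      TS (Metric.ball ξ0 L⁻¹) b →
      (∀ (p : E d × ℝ) (s : ℝ), |s| ≤ C1 * (L * r) →
        EU r b (p + s • ((-(‖ξ0‖⁻¹ • ξ0), 1) : E d × ℝ)) ≤ ENNReal.ofReal C * EU r b p) ∧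
      (∀ (p p' : E d × ℝ), ‖p' - p‖ ≤ C1 * r → EU r b p' ≤ ENNReal.ofReal C * EU r b p) := by
  obtain ⟨C, δ0, hC, hδ0, hδ1, hne, h⟩ := trn Γ (2 * |C1|) hΓ h0
  refine ⟨C, δ0⁻¹, hC, (one_le_inv₀ hδ0).2 hδ1, ?_, ?_⟩
  · intro ξ0 hξ0 ξ hξ
    rw [inv_inv] at hξ
    exact hne ξ0 hξ0 ξ hξ
  intro ξ0 L r b hξ0 hL hLr hb
  have hL1 : 1 ≤ L := ((one_le_inv₀ hδ0).2 hδ1).trans hL
  have hLp : 0 < L := by linarith
  have hr : 0 < r := by linarith
  have h1 : L⁻¹ ≤ δ0 := by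
    rw [inv_le_comm₀ hLp hδ0]; exact hL
  have h2 : 1 ≤ L⁻¹ * r := by
    rw [inv_mul_eq_div, one_le_div hLp]; exact hLr
  have hC1 : 0 ≤ |C1| := abs_nonneg _
  constructor
  · intro p s hs
    have h3 : |s| * L⁻¹ ≤ 2 * |C1| * r := by
      rw [← div_eq_mul_inv, div_le_iff₀ hLp]
      have : C1 * (L * r) ≤ |C1| * (L * r) := by gcongr; exact le_abs_self _
      have h5 : 0 ≤ |C1| * (L * r) := by positivity
      nlinarith
    have := h ξ0 L⁻¹ r s 0 b hξ0 (by positivity) h1 h2 h3 (by simp; positivity) hb p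
    refine le_trans (le_of_eq ?_) this
    congr 1
    ext
    · simp
    · simp
  · intro p p' hp
    set s := (p' - p).2 with hs
    set v := -(‖ξ0‖⁻¹ • ξ0) with hv
    have hs1 : |s| ≤ |C1| * r := by
      have : |s| ≤ ‖p' - p‖ := by
        rw [hs, ← Real.norm_eq_abs]; exact norm_snd_le (p' - p)
      exact this.trans (hp.trans (by gcongr; exact le_abs_self _))
    have hvn : ‖v‖ ≤ 1 := by
      rw [hv, norm_neg, norm_smul, norm_inv, norm_norm]
      rcases eq_or_ne ‖ξ0‖ 0 with h | h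
      · rw [h]; simp
      · field_simp; exact le_rfl
    have h3 : |s| * L⁻¹ ≤ 2 * |C1| * r := by
      have : L⁻¹ ≤ 1 := inv_le_one_of_one_le₀ hL1
      have h6 : 0 ≤ |s| := abs_nonneg _
      nlinarith
    have h4 : ‖(p' - p).1 - s • v‖ ≤ 2 * |C1| * r := by
      refine (norm_sub_le _ _).trans ?_
      rw [norm_smul, Real.norm_eq_abs]
      have h5 : ‖(p' - p).1‖ ≤ |C1| * r :=
        (norm_fst_le (p' - p)).trans (hp.trans (by gcongr; exact le_abs_self _))
      have h6 : |s| * ‖v‖ ≤ |C1| * r * 1 := by gcongr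
      linarith
    have := h ξ0 L⁻¹ r s ((p' - p).1 - s • v) b hξ0 (by positivity) h1 h2 h3 h4 hb p
    refine le_trans (le_of_eq ?_) this
    congr 1
    ext1
    · simp only [← hv]
      rw [Prod.fst_sub]; abel
    · simp only [hs, Prod.snd_sub]; ring

end

end Pool.Agent.H84.KL
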