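import Pool.Agent.H84.KL.SHF
import Pool.Agent.H84.KL.Targets

/-! The step of the induction on scales, part A: one factor. -/

open MeasureTheory Set
open scoped ENNReal NNReal RealInnerProductSpace Topology

namespace Pool.Agent.H84.KL

noncomputable section

variable {d k m : ℕ}

/-- the coordinates `a` with the `i`-th active one replaced by that of `c` -/
def up (c : Co k m) (i : Fin k) (a : Co k m) : Co k m := (Function.update a.1 i (c.1 i), a.2)

lemma cont_up (c : Co k m) (i : Fin k) : Continuous (up c i) := by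
  unfold up
  refine Continuous.prodMk ?_ continuous_snd
  exact Continuous.update continuous_fst i continuous_const

lemma up_sub_le (c : Co k m) (i : Fin k) (a : Co k m) (ρ : ℝ) (hρ : 0 ≤ ρ)
    (h1 : ∀ j, j ≠ i → |a.1 j - c.1 j| ≤ ρ) (h2 : ∀ j, |a.2 j - c.2 j| ≤ ρ) :
    ‖up c i a - c‖ ≤ ρ := by
  rw [Prod.norm_def]
  refine max_le ?_ ?_
  · rw [Prod.fst_sub, pi_norm_le_iff_of_nonneg hρ]
    intro j
    rw [Pi.sub_apply, Real.norm_eq_abs]
    unfold up
    rcases eq_or_ne j i with h | h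
    · subst h; simpa using hρ
    · simp only [Function.update_of_ne h]; exact h1 j h
  · rw [Prod.snd_sub, pi_norm_le_iff_of_nonneg hρ]
    intro j
    rw [Pi.sub_apply, Real.norm_eq_abs]
    exact h2 j

/-- the set of integration of `T_INN` -/
def Ai (c : Co k m) (i : Fin k) (ρ : ℝ) : Set (Co k m) :=
  {a : Co k m | (0 ≤ a.1 i ∧ a.1 i < 1) ∧
      (∀ j, j ≠ i → |a.1 j - c.1 j| ≤ ρ) ∧ ∀ j, |a.2 j - c.2 j| ≤ ρ}

lemma meas_Ai (c : Co k m) (i : Fin k) (ρ : ℝ) : MeasurableSet (Ai c i ρ) := by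
  have e1 : Ai c i ρ = ({a : Co k m | 0 ≤ a.1 i} ∩ {a : Co k m | a.1 i < 1}) ∩
      ((⋂ j, ⋂ (_ : j ≠ i), {a : Co k m | |a.1 j - c.1 j| ≤ ρ}) ∩
        ⋂ j, {a : Co k m | |a.2 j - c.2 j| ≤ ρ}) := by
    ext a; simp [Ai]
  rw [e1]
  refine MeasurableSet.inter (MeasurableSet.inter ?_ ?_) (MeasurableSet.inter ?_ ?_)
  · exact (isClosed_le continuous_const
      (by fun_prop : Continuous fun a : Co k m => a.1 i)).measurableSet
  · exact (isOpen_lt (by fun_prop : Continuous fun a : Co k m => a.1 i)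
      continuous_const).measurableSet
  · refine MeasurableSet.iInter fun j => MeasurableSet.iInter fun _ => ?_
    exact (isClosed_le (by fun_prop : Continuous fun a : Co k m => |a.1 j - c.1 j|)
      continuous_const).measurableSet
  · refine MeasurableSet.iInter fun j => ?_
    exact (isClosed_le (by fun_prop : Continuous fun a : Co k m => |a.2 j - c.2 j|)
      continuous_const).measurableSet

/-- the energy of one factor integrated over the slice -/
theorem one_factor (hI : T_INN) (d k m : ℕ) (Γ : Set (E d)) (Cb : ℝ)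
    (hkm : k + m = d + 1) (hΓ : IsCompact Γ) (h0 : (0 : E d) ∉ Γ) :
    ∃ (C L0 : ℝ), 0 < C ∧ 1 ≤ L0 ∧ ∀ (L r : ℝ) (ξ : Fin k → E d)
    (g : Fin m → E d × ℝ) (i : Fin k) (b : E d → ℂ), L0 ≤ L → L ≤ r →
    (∀ j, ξ j ∈ Γ) → (∀ j, ‖g j‖ ≤ Cb) → TS (Metric.ball (ξ i) L⁻¹) b →
    (∀ c : Co k m, ‖c‖ ≤ Cb * ‖Ps (fun j => -(‖ξ j‖⁻¹ • ξ j)) g c‖) →
    ∀ (z : E d × ℝ) (c : Co k m),
    ∫⁻ a in Ai c i (2 * (L * r)), EU r b (z + Ps (fun j => -(‖ξ j‖⁻¹ • ξ j)) g (up c i a)) ≤
      ENNReal.ofReal (C * r ^ d) *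
        EU (L * r) b (z + Ps (fun j => -(‖ξ j‖⁻¹ • ξ j)) g c) := by
  obtain ⟨C1, L0, hC1, hL0, hne, hs⟩ := shf Γ (2 * (k + m * |Cb|)) hΓ h0
  obtain ⟨C2, hC2, hI2⟩ := hI d k m Cb 2 hkm
  refine ⟨C1 * C2, L0, by positivity, hL0, ?_⟩
  intro L r ξ g i b hL hLr hξ hg hb hinv z c
  set v : Fin k → E d := fun j => -(‖ξ j‖⁻¹ • ξ j) with hv
  have hL1 : 1 ≤ L := hL0.trans hL
  have hr : 0 < r := by linarith
  have hvn : ∀ j, ‖v j‖ ≤ 1 := by
    intro j
    rw [hv]
    simp only [norm_neg, norm_smul, norm_inv, norm_norm]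
    rcases eq_or_ne ‖ξ j‖ 0 with h | h
    · rw [h]; simp
    · field_simp; exact le_rfl
  set ρ := L * r with hρ
  have hρ0 : 0 < ρ := by positivity
  set y0 : E d := z.1 + (Ps v g c).2 • v i with hy0
  set tc : ℝ := z.2 + (Ps v g c).2 with htc
  -- transport to the common time
  have h1 : ∀ a ∈ Ai c i (2 * ρ), EU r b (z + Ps v g (up c i a)) ≤
      ENNReal.ofReal C1 * EU r b (y0 + La v g i a, tc) := by
    intro a ha
    have h2 : ‖up c i a - c‖ ≤ 2 * ρ := up_sub_le c i a _ (by positivity) ha.2.1 ha.2.2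
    set s := (Ps v g (up c i a)).2 - (Ps v g c).2 with hs'
    have h3 : |s| ≤ 2 * (k + m * |Cb|) * (L * r) := by
      have h4 : |s| ≤ ‖Ps v g (up c i a - c)‖ := by
        rw [Ps_sub, hs', ← Prod.snd_sub, ← Real.norm_eq_abs]
        exact norm_snd_le _
      refine h4.trans ((norm_Ps_le v g Cb hvn hg _).trans ?_)
      calc (k + m * |Cb|) * ‖up c i a - c‖ ≤ (k + m * |Cb|) * (2 * ρ) := by gcongr
        _ = _ := by rw [hρ]; ring
    have h5 := (hs (ξ i) L r b (hξ i) hL hLr hb).1 (y0 + La v g i a, tc) s h3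
    refine le_trans (le_of_eq ?_) h5
    congr 1
    have h6 : La v g i a = (Ps v g (up c i a)).1 - (Ps v g (up c i a)).2 • v i := by
      rw [← La_update v g i a (c.1 i)]; rfl
    have h7 : v i = -(‖ξ i‖⁻¹ • ξ i) := rfl
    ext1
    · simp only [Prod.fst_add, Prod.smul_fst]
      rw [← h7, h6, hy0, hs', sub_smul]
      abel
    · simp only [Prod.snd_add, Prod.smul_snd, smul_eq_mul, mul_one]
      rw [htc, hs']; ring
  have hmeasLa : Continuous (fun a : Co k m => La v g i a) := by
    unfold La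
    have := cont_Ps v g
    fun_prop
  calc ∫⁻ a in Ai c i (2 * ρ), EU r b (z + Ps v g (up c i a))
      ≤ ∫⁻ a in Ai c i (2 * ρ), ENNReal.ofReal C1 * EU r b (y0 + La v g i a, tc) :=
        setLIntegral_mono' (meas_Ai _ _ _) h1
    _ = ENNReal.ofReal C1 * ∫⁻ a in Ai c i (2 * ρ), EU r b (y0 + La v g i a, tc) := by
        rw [lintegral_const_mul' _ _ ENNReal.ofReal_ne_top]
    _ = ENNReal.ofReal C1 * ∫⁻ a in Ai c i (2 * ρ), ∫⁻ x,
          ENNReal.ofReal (wt r (x - y0 - La v g i a)) * ENNReal.ofReal (‖U b x tc‖ ^ 2) := by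
        congr 1
        refine lintegral_congr fun a => ?_
        unfold EU En
        refine lintegral_congr fun x => ?_
        rw [ENNReal.ofReal_mul (wt_pos _ _).le, sub_sub]
    _ = ENNReal.ofReal C1 * ∫⁻ x, ∫⁻ a in Ai c i (2 * ρ),
          ENNReal.ofReal (wt r (x - y0 - La v g i a)) * ENNReal.ofReal (‖U b x tc‖ ^ 2) := by
        congr 1
        refine lintegral_lintegral_swap ?_
        refine Measurable.aemeasurable ?_
        have c1 : Continuous (fun p : Co k m × E d => wt r (p.2 - y0 - La v g i p.1)) :=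
          Continuous.comp (g := fun x : E d => wt r x)
            (f := fun p : Co k m × E d => p.2 - y0 - La v g i p.1) (continuous_wt r)
            ((continuous_snd.sub continuous_const).sub (hmeasLa.comp continuous_fst))
        have c2 : Continuous (fun x : E d => U b x tc) :=
          Continuous.comp (g := fun p : E d × ℝ => U b p.1 p.2)
            (f := fun x : E d => ((x, tc) : E d × ℝ)) (cont_U b hb.1.1.continuous hb.1.2)
            (by fun_prop)
        have c3 : Continuous (fun p : Co k m × E d => ‖U b p.2 tc‖ ^ 2) :=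
          (c2.comp continuous_snd).norm.pow 2
        exact (ENNReal.continuous_ofReal.comp c1).measurable.mul
          (ENNReal.continuous_ofReal.comp c3).measurable
    _ ≤ ENNReal.ofReal C1 * ∫⁻ x,
          ENNReal.ofReal (C2 * r ^ d * wt (L * r) (x - y0 - La v g i c)) *
            ENNReal.ofReal (‖U b x tc‖ ^ 2) := by
        gcongr with x
        rw [lintegral_mul_const' _ _ ENNReal.ofReal_ne_top]
        gcongr
        exact hI2 i v g L r (x - y0) c hL1 hr hvn hg hinv
    _ = ENNReal.ofReal (C1 * C2 * r ^ d) * EU (L * r) b (z + Ps v g c) := by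
        have h8 : ∀ x : E d, ENNReal.ofReal (C2 * r ^ d * wt (L * r) (x - y0 - La v g i c)) *
            ENNReal.ofReal (‖U b x tc‖ ^ 2) = ENNReal.ofReal (C2 * r ^ d) *
            ENNReal.ofReal (wt (L * r) (x - (z + Ps v g c).1) * ‖U b x (z + Ps v g c).2‖ ^ 2) := by
          intro x
          have h9 : x - y0 - La v g i c = x - (z + Ps v g c).1 := by
            rw [hy0]; unfold La
            rw [Prod.fst_add]; abel
          have h10 : (z + Ps v g c).2 = tc := by rw [Prod.snd_add]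
          rw [h9, h10, ENNReal.ofReal_mul (by positivity), mul_assoc,
            ← ENNReal.ofReal_mul (wt_pos _ _).le]
        simp_rw [h8]
        rw [lintegral_const_mul' _ _ ENNReal.ofReal_ne_top, ← mul_assoc,
          ← ENNReal.ofReal_mul hC1.le]
        unfold EU En
        rw [← mul_assoc]

end

end Pool.Agent.H84.KL
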