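import Pool.Agent.H84.KL.STA

/-! The step of the induction on scales. -/

open MeasureTheory Set
open scoped ENNReal NNReal RealInnerProductSpace Topology

namespace Pool.Agent.H84.KL

noncomputable section

variable {d k m : ℕ}

lemma up_eq_of_update (c : Co k m) (i : Fin k) (a : Co k m) (t : ℝ) :
    up c i (Function.update a.1 i t, a.2) = up c i a := by
  unfold up
  simp only [Function.update_idem]

/-- the restricted energy of one factor -/
def fi (c : Co k m) (ρ r : ℝ) (v : Fin k → E d) (g : Fin m → E d × ℝ) (z : E d × ℝ)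
    (b : Fin k → E d → ℂ) (i : Fin k) (a : Co k m) : ℝ≥0∞ :=
  {a : Co k m | ∀ j, j ≠ i → |a.1 j - c.1 j| ≤ ρ}.indicator
    (fun a => EU r (b i) (z + Ps v g (up c i a))) a

lemma meas_Bi (c : Co k m) (i : Fin k) (ρ : ℝ) :
    MeasurableSet {a : Co k m | ∀ j, j ≠ i → |a.1 j - c.1 j| ≤ ρ} := by
  have e1 : {a : Co k m | ∀ j, j ≠ i → |a.1 j - c.1 j| ≤ ρ} =
      ⋂ j, ⋂ (_ : j ≠ i), {a : Co k m | |a.1 j - c.1 j| ≤ ρ} := by
    ext a; simp
  rw [e1]
  refine MeasurableSet.iInter fun j => MeasurableSet.iInter fun _ => ?_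
  exact (isClosed_le (by fun_prop : Continuous fun a : Co k m => |a.1 j - c.1 j|)
    continuous_const).measurableSet

lemma meas_fi (c : Co k m) (ρ r : ℝ) (v : Fin k → E d) (g : Fin m → E d × ℝ) (z : E d × ℝ)
    (b : Fin k → E d → ℂ) (hb : ∀ i, TC (b i)) (i : Fin k) :
    Measurable (fi c ρ r v g z b i) := by
  unfold fi
  refine Measurable.indicator ?_ (meas_Bi c i ρ)
  refine (meas_EU (b i) (hb i) r).comp ?_
  exact (continuous_const.add ((cont_Ps v g).comp (cont_up c i))).measurable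

theorem stp (hL : T_LWK) (hI : T_INN) (hQ : T_CUB) (d k m : ℕ) (Γ : Set (E d)) (Cb : ℝ)
    (hk : 2 ≤ k) (hkm : k + m = d + 1) (hΓ : IsCompact Γ) (h0 : (0 : E d) ∉ Γ) :
    ∃ (C L0 : ℝ), 0 < C ∧ 1 ≤ L0 ∧ (∀ ξ0 ∈ Γ, ∀ ξ, ‖ξ - ξ0‖ ≤ L0⁻¹ → ξ ≠ 0) ∧
    ∀ (L r : ℝ) (ξ : Fin k → E d)
    (g : Fin m → E d × ℝ) (b : Fin k → E d → ℂ), L0 ≤ L → L ≤ r →
    (∀ j, ξ j ∈ Γ) → (∀ j, ‖g j‖ ≤ Cb) → (∀ i, TS (Metric.ball (ξ i) L⁻¹) (b i)) →
    (∀ c : Co k m, ‖c‖ ≤ Cb * ‖Ps (fun j => -(‖ξ j‖⁻¹ • ξ j)) g c‖) →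
    ∀ (z : E d × ℝ) (c : Co k m),
    ∫⁻ a in Qb c (L * r), ∏ i, EU r (b i) (z + Ps (fun j => -(‖ξ j‖⁻¹ • ξ j)) g a) ^
        (1 / ((k : ℝ) - 1)) ≤
      ENNReal.ofReal (C * (L ^ (d + 1))⁻¹) *
      ∫⁻ a in Qb c (L * r), ∏ i, EU (L * r) (b i)
        (z + Ps (fun j => -(‖ξ j‖⁻¹ • ξ j)) g a) ^ (1 / ((k : ℝ) - 1)) := by
  obtain ⟨C1, L1, hC1, hL1, hne, hs⟩ := shf Γ (k + m * |Cb| + 1) hΓ h0
  obtain ⟨C2, L2, hC2, hL2, h2⟩ := one_factor hI d k m Γ Cb hkm hΓ h0
  obtain ⟨C3, hC3, h3⟩ := hL k m C1 hk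
  set q : ℝ := 1 / ((k : ℝ) - 1) with hq
  have hk1 : (0 : ℝ) < (k : ℝ) - 1 := by
    have : (2 : ℝ) ≤ k := by exact_mod_cast hk
    linarith
  have hq0 : 0 < q := by positivity
  refine ⟨(C1 ^ q) ^ k * C3 * (C2 ^ q) ^ k * (C1 ^ q) ^ k, max L1 L2, by positivity,
    hL1.trans (le_max_left _ _), ?_, ?_⟩
  · intro ξ0 hξ0 ξ hξ
    refine hne ξ0 hξ0 ξ (hξ.trans ?_)
    exact inv_anti₀ (by linarith) (le_max_left _ _)
  intro L r ξ g b hLL hLr hξ hg hb hinv z c
  set v : Fin k → E d := fun j => -(‖ξ j‖⁻¹ • ξ j) with hv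
  have hL1' : L1 ≤ L := (le_max_left _ _).trans hLL
  have hL2' : L2 ≤ L := (le_max_right _ _).trans hLL
  have hLone : 1 ≤ L := hL1.trans hL1'
  have hr : 0 < r := by linarith
  have hvn : ∀ j, ‖v j‖ ≤ 1 := by
    intro j
    rw [hv]
    simp only [norm_neg, norm_smul, norm_inv, norm_norm]
    rcases eq_or_ne ‖ξ j‖ 0 with h | h
    · rw [h]; simp
    · field_simp; exact le_rfl
  set ρ := L * r with hρ
  have hρ0 : 0 < ρ := by positivity
  have hrρ : r ≤ ρ := by
    rw [hρ]; nlinarith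
  have hkb : (0 : ℝ) ≤ k + m * |Cb| := by positivity
  -- slow variation at scale `r` and `ρ`
  have hslow : ∀ (i : Fin k) (a a' : Co k m), ‖a' - a‖ ≤ r →
      EU r (b i) (z + Ps v g a') ≤ ENNReal.ofReal C1 * EU r (b i) (z + Ps v g a) := by
    intro i a a' haa
    refine (hs (ξ i) L r (b i) (hξ i) hL1' hLr (hb i)).2 _ _ ?_
    have : z + Ps v g a' - (z + Ps v g a) = Ps v g (a' - a) := by rw [Ps_sub]; abel
    rw [this]
    refine (norm_Ps_le v g Cb hvn hg _).trans ?_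
    calc (k + m * |Cb|) * ‖a' - a‖ ≤ (k + m * |Cb|) * r := by gcongr
      _ ≤ (k + m * |Cb| + 1) * r := mul_le_mul_of_nonneg_right (by linarith) hr.le
  have hslowρ : ∀ (i : Fin k) (a a' : Co k m), ‖a' - a‖ ≤ ρ →
      EU ρ (b i) (z + Ps v g a') ≤ ENNReal.ofReal C1 * EU ρ (b i) (z + Ps v g a) := by
    intro i a a' haa
    refine (hs (ξ i) L ρ (b i) (hξ i) hL1' (hLr.trans hrρ) (hb i)).2 _ _ ?_
    have : z + Ps v g a' - (z + Ps v g a) = Ps v g (a' - a) := by rw [Ps_sub]; abel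
    rw [this]
    refine (norm_Ps_le v g Cb hvn hg _).trans ?_
    calc (k + m * |Cb|) * ‖a' - a‖ ≤ (k + m * |Cb|) * ρ := by gcongr
      _ ≤ (k + m * |Cb| + 1) * ρ := mul_le_mul_of_nonneg_right (by linarith) hρ0.le
  -- the functions `f_i`
  set f := fi c ρ r v g z b with hf
  have hbT : ∀ i, TC (b i) := fun i => (hb i).1
  have hfm : ∀ i, Measurable (f i) := meas_fi c ρ r v g z b hbT
  set S : Set (Fin m → ℝ) := {w | ∀ j, |w j - c.2 j| ≤ ρ} with hS
  set S' : Set (Fin m → ℝ) := {w | ∀ j, |w j - c.2 j| ≤ 2 * ρ} with hS'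
  have hSm : ∀ τ : ℝ, MeasurableSet {w : Fin m → ℝ | ∀ j, |w j - c.2 j| ≤ τ} := by
    intro τ
    have e1 : {w : Fin m → ℝ | ∀ j, |w j - c.2 j| ≤ τ} =
        ⋂ j, {w : Fin m → ℝ | |w j - c.2 j| ≤ τ} := by ext a; simp
    rw [e1]
    refine MeasurableSet.iInter fun j => ?_
    exact (isClosed_le (by fun_prop : Continuous fun a : Fin m → ℝ => |a j - c.2 j|)
      continuous_const).measurableSet
  have hSS : ∀ w ∈ S, ∀ w', ‖w - w'‖ ≤ r → w' ∈ S' := by
    intro w hw w' hww j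
    have a1 := hw j
    have a2 : |w j - w' j| ≤ r := by
      have := norm_le_pi_norm (w - w') j
      rw [Pi.sub_apply, Real.norm_eq_abs] at this
      exact this.trans hww
    have a3 : |w' j - c.2 j| ≤ |w j - c.2 j| + |w j - w' j| := by
      have : w' j - c.2 j = (w j - c.2 j) - (w j - w' j) := by ring
      rw [this]; exact abs_sub _ _
    linarith
  have hind : ∀ i (a : Co k m) (t : ℝ), f i (Function.update a.1 i t, a.2) = f i a := by
    intro i a t
    rw [hf]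
    unfold fi
    have hiff : ((Function.update a.1 i t, a.2) : Co k m) ∈
        {a : Co k m | ∀ j, j ≠ i → |a.1 j - c.1 j| ≤ ρ} ↔
        a ∈ {a : Co k m | ∀ j, j ≠ i → |a.1 j - c.1 j| ≤ ρ} := by
      simp only [mem_ofPred_eq]
      refine forall_congr' fun j => imp_congr_right fun hj => ?_
      rw [Function.update_of_ne hj]
    by_cases hmem : a ∈ {a : Co k m | ∀ j, j ≠ i → |a.1 j - c.1 j| ≤ ρ}
    · rw [indicator_of_mem (hiff.2 hmem), indicator_of_mem hmem, up_eq_of_update]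
    · rw [indicator_of_notMem (fun h => hmem (hiff.1 h)), indicator_of_notMem hmem]
  have hvar : ∀ i (a : Fin k → ℝ) (w w' : Fin m → ℝ), w ∈ S → ‖w - w'‖ ≤ r →
      f i (a, w) ≤ ENNReal.ofReal C1 * f i (a, w') := by
    intro i a w w' _ hww
    rw [hf]
    unfold fi
    by_cases hmem : ((a, w) : Co k m) ∈ {a : Co k m | ∀ j, j ≠ i → |a.1 j - c.1 j| ≤ ρ}
    · have hmem' : ((a, w') : Co k m) ∈ {a : Co k m | ∀ j, j ≠ i → |a.1 j - c.1 j| ≤ ρ} := hmem
      rw [indicator_of_mem hmem, indicator_of_mem hmem']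
      refine hslow i _ _ ?_
      have : up c i (a, w) - up c i (a, w') = (0, w - w') := by
        unfold up; simp
      rw [this, Prod.norm_mk, norm_zero, max_eq_right (norm_nonneg _)]
      exact hww
    · rw [indicator_of_notMem hmem]; exact zero_le
  have hLW := h3 r S S' f hr (hSm ρ) (hSm (2 * ρ)) hSS hfm hind hvar
  -- bound by `f` on the cube
  have hQB : ∀ a ∈ Qb c ρ, (∀ j, |a.1 j - c.1 j| ≤ ρ) ∧ ∀ j, |a.2 j - c.2 j| ≤ ρ := by
    intro a ha
    refine ⟨fun j => ?_, fun j => ?_⟩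
    · have := ha.1 j
      rw [abs_of_nonneg (by linarith)]; linarith
    · have := ha.2 j
      rw [abs_of_nonneg (by linarith)]; linarith
  have hbound : ∀ a ∈ Qb c ρ, ∏ i, EU r (b i) (z + Ps v g a) ^ q ≤
      ENNReal.ofReal ((C1 ^ q) ^ k) * ∏ i, f i a ^ q := by
    intro a ha
    have h5 : ∀ i, EU r (b i) (z + Ps v g a) ^ q ≤ ENNReal.ofReal (C1 ^ q) * f i a ^ q := by
      intro i
      have h6 : EU r (b i) (z + Ps v g a) ≤ ENNReal.ofReal C1 * f i a := by
        rw [hf]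
        unfold fi
        have hmem : a ∈ {a : Co k m | ∀ j, j ≠ i → |a.1 j - c.1 j| ≤ ρ} :=
          fun j _ => (hQB a ha).1 j
        rw [indicator_of_mem hmem, Ps_update v g i a (c.1 i), ← add_assoc]
        refine (hs (ξ i) L r (b i) (hξ i) hL1' hLr (hb i)).1 _ _ ?_
        have := (hQB a ha).1 i
        refine this.trans ?_
        rw [← hρ]
        nlinarith
      refine (ENNReal.rpow_le_rpow h6 hq0.le).trans (le_of_eq ?_)
      rw [ENNReal.mul_rpow_of_nonneg _ _ hq0.le, ENNReal.ofReal_rpow_of_pos hC1]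
    calc ∏ i, EU r (b i) (z + Ps v g a) ^ q ≤ ∏ i, (ENNReal.ofReal (C1 ^ q) * f i a ^ q) :=
          Finset.prod_le_prod' fun i _ => h5 i
      _ = _ := by
          rw [Finset.prod_mul_distrib, Finset.prod_const, Finset.card_univ, Fintype.card_fin,
            ← ENNReal.ofReal_pow (by positivity)]
  -- the slices
  have hslice : ∀ i, (∫⁻ a in {a : Co k m | (0 ≤ a.1 i ∧ a.1 i < 1) ∧ a.2 ∈ S'}, f i a) ≤
      ENNReal.ofReal (C2 * r ^ d) * EU ρ (b i) (z + Ps v g c) := by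
    intro i
    refine le_trans ?_ (h2 L r ξ g i (b i) hL2' hLr hξ hg (hb i) hinv z c)
    rw [hf]
    unfold fi
    rw [setLIntegral_indicator (meas_Bi c i ρ)]
    refine lintegral_mono_set ?_
    intro a ha
    refine ⟨ha.2.1, fun j hj => ?_, fun j => ?_⟩
    · exact (ha.1 j hj).trans (by rw [← hρ]; linarith)
    · exact ha.2.2 j
  -- the value at the corner
  set X := ∏ i, EU ρ (b i) (z + Ps v g c) ^ q with hX
  have hcorner : X * ENNReal.ofReal (ρ ^ (d + 1)) ≤ ENNReal.ofReal ((C1 ^ q) ^ k) *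
      ∫⁻ a in Qb c ρ, ∏ i, EU ρ (b i) (z + Ps v g a) ^ q := by
    have h5 : ∀ a ∈ Qb c ρ, X ≤ ENNReal.ofReal ((C1 ^ q) ^ k) *
        ∏ i, EU ρ (b i) (z + Ps v g a) ^ q := by
      intro a ha
      have h6 : ∀ i, EU ρ (b i) (z + Ps v g c) ^ q ≤
          ENNReal.ofReal (C1 ^ q) * EU ρ (b i) (z + Ps v g a) ^ q := by
        intro i
        have h7 : ‖c - a‖ ≤ ρ := by
          rw [Prod.norm_def]
          refine max_le ?_ ?_
          · rw [Prod.fst_sub, pi_norm_le_iff_of_nonneg hρ0.le]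
            intro j
            rw [Pi.sub_apply, Real.norm_eq_abs, abs_sub_comm]
            exact (hQB a ha).1 j
          · rw [Prod.snd_sub, pi_norm_le_iff_of_nonneg hρ0.le]
            intro j
            rw [Pi.sub_apply, Real.norm_eq_abs, abs_sub_comm]
            exact (hQB a ha).2 j
        refine (ENNReal.rpow_le_rpow (hslowρ i a c h7) hq0.le).trans (le_of_eq ?_)
        rw [ENNReal.mul_rpow_of_nonneg _ _ hq0.le, ENNReal.ofReal_rpow_of_pos hC1]
      calc X ≤ ∏ i, (ENNReal.ofReal (C1 ^ q) * EU ρ (b i) (z + Ps v g a) ^ q) :=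
            Finset.prod_le_prod' fun i _ => h6 i
        _ = _ := by
            rw [Finset.prod_mul_distrib, Finset.prod_const, Finset.card_univ, Fintype.card_fin,
              ← ENNReal.ofReal_pow (by positivity)]
    have hvol : volume (Qb c ρ) = ENNReal.ofReal (ρ ^ (d + 1)) := by
      rw [(hQ k m).1 c ρ hρ0.le, hkm]
    have hQm : MeasurableSet (Qb c ρ) := by
      have e1 : Qb c ρ = (⋂ j, {a : Co k m | c.1 j ≤ a.1 j}) ∩
          (⋂ j, {a : Co k m | a.1 j < c.1 j + ρ}) ∩ ((⋂ j, {a : Co k m | c.2 j ≤ a.2 j}) ∩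
          (⋂ j, {a : Co k m | a.2 j < c.2 j + ρ})) := by
        ext a; simp [Qb, forall_and]
      rw [e1]
      refine MeasurableSet.inter (MeasurableSet.inter ?_ ?_) (MeasurableSet.inter ?_ ?_)
      · exact MeasurableSet.iInter fun j => (isClosed_le continuous_const
          (by fun_prop : Continuous fun a : Co k m => a.1 j)).measurableSet
      · exact MeasurableSet.iInter fun j => (isOpen_lt
          (by fun_prop : Continuous fun a : Co k m => a.1 j) continuous_const).measurableSet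
      · exact MeasurableSet.iInter fun j => (isClosed_le continuous_const
          (by fun_prop : Continuous fun a : Co k m => a.2 j)).measurableSet
      · exact MeasurableSet.iInter fun j => (isOpen_lt
          (by fun_prop : Continuous fun a : Co k m => a.2 j) continuous_const).measurableSet
    rw [← hvol, ← lintegral_const_mul' _ _ ENNReal.ofReal_ne_top, ← setLIntegral_const]
    exact setLIntegral_mono' hQm h5
  -- assembly
  have hQS : Qb c ρ ⊆ {a : Co k m | a.2 ∈ S} := fun a ha => (hQB a ha).2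
  have hmain : ∫⁻ a in Qb c ρ, ∏ i, EU r (b i) (z + Ps v g a) ^ q ≤
      ENNReal.ofReal ((C1 ^ q) ^ k * C3 * (C2 ^ q) ^ k * r ^ (d + 1)) * X := by
    have hQm : ∀ᵐ a ∂(volume.restrict (Qb c ρ)), a ∈ Qb c ρ := by
      refine ae_restrict_mem ?_
      have e1 : Qb c ρ = (⋂ j, {a : Co k m | c.1 j ≤ a.1 j}) ∩
          (⋂ j, {a : Co k m | a.1 j < c.1 j + ρ}) ∩ ((⋂ j, {a : Co k m | c.2 j ≤ a.2 j}) ∩
          (⋂ j, {a : Co k m | a.2 j < c.2 j + ρ})) := by
        ext a; simp [Qb, forall_and]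
      rw [e1]
      refine MeasurableSet.inter (MeasurableSet.inter ?_ ?_) (MeasurableSet.inter ?_ ?_)
      · exact MeasurableSet.iInter fun j => (isClosed_le continuous_const
          (by fun_prop : Continuous fun a : Co k m => a.1 j)).measurableSet
      · exact MeasurableSet.iInter fun j => (isOpen_lt
          (by fun_prop : Continuous fun a : Co k m => a.1 j) continuous_const).measurableSet
      · exact MeasurableSet.iInter fun j => (isClosed_le continuous_const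
          (by fun_prop : Continuous fun a : Co k m => a.2 j)).measurableSet
      · exact MeasurableSet.iInter fun j => (isOpen_lt
          (by fun_prop : Continuous fun a : Co k m => a.2 j) continuous_const).measurableSet
    have s1 : ∫⁻ a in Qb c ρ, ∏ i, EU r (b i) (z + Ps v g a) ^ q ≤
        ENNReal.ofReal ((C1 ^ q) ^ k) * ∫⁻ a in {a : Co k m | a.2 ∈ S}, ∏ i, f i a ^ q := by
      calc ∫⁻ a in Qb c ρ, ∏ i, EU r (b i) (z + Ps v g a) ^ q
          ≤ ∫⁻ a in Qb c ρ, ENNReal.ofReal ((C1 ^ q) ^ k) * ∏ i, f i a ^ q := by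
            refine lintegral_mono_ae ?_
            filter_upwards [hQm] with a ha
            exact hbound a ha
        _ = ENNReal.ofReal ((C1 ^ q) ^ k) * ∫⁻ a in Qb c ρ, ∏ i, f i a ^ q :=
            lintegral_const_mul' _ _ ENNReal.ofReal_ne_top
        _ ≤ _ := mul_le_mul' le_rfl (lintegral_mono_set hQS)
    have s2 : ∏ i, (∫⁻ a in {a : Co k m | (0 ≤ a.1 i ∧ a.1 i < 1) ∧ a.2 ∈ S'}, f i a) ^ q ≤
        ENNReal.ofReal (((C2 * r ^ d) ^ q) ^ k) * X := by
      calc _ ≤ ∏ i, (ENNReal.ofReal (C2 * r ^ d) * EU ρ (b i) (z + Ps v g c)) ^ q :=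
            Finset.prod_le_prod' fun i _ => ENNReal.rpow_le_rpow (hslice i) hq0.le
        _ = _ := by
            simp_rw [ENNReal.mul_rpow_of_nonneg _ _ hq0.le,
              ENNReal.ofReal_rpow_of_pos (show 0 < C2 * r ^ d by positivity)]
            rw [Finset.prod_mul_distrib, Finset.prod_const, Finset.card_univ, Fintype.card_fin,
              ← ENNReal.ofReal_pow (by positivity)]
    have s3 : (C1 ^ q) ^ k * (C3 * r ^ (-((m : ℝ) / ((k : ℝ) - 1)))) *
        ((C2 * r ^ d) ^ q) ^ k = (C1 ^ q) ^ k * C3 * (C2 ^ q) ^ k * r ^ (d + 1) := by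
      have t1 : ((C2 * r ^ d) ^ q) ^ k = (C2 ^ q) ^ k * r ^ ((d : ℝ) * q * k) := by
        rw [Real.mul_rpow hC2.le (by positivity), mul_pow, ← Real.rpow_natCast r d,
          ← Real.rpow_mul hr.le, ← Real.rpow_natCast (r ^ ((d : ℝ) * q)) k,
          ← Real.rpow_mul hr.le]
      have t2 : r ^ (-((m : ℝ) / ((k : ℝ) - 1))) * r ^ ((d : ℝ) * q * k) = r ^ (d + 1) := by
        rw [← Real.rpow_add hr, ← Real.rpow_natCast r (d + 1)]
        congr 1
        have hm : (m : ℝ) = d + 1 - k := by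
          have : ((k + m : ℕ) : ℝ) = ((d + 1 : ℕ) : ℝ) := by rw [hkm]
          push_cast at this; linarith
        rw [hm, hq]
        push_cast
        field_simp
        ring
      rw [t1, ← t2]; ring
    calc _ ≤ ENNReal.ofReal ((C1 ^ q) ^ k) * ∫⁻ a in {a : Co k m | a.2 ∈ S}, ∏ i, f i a ^ q := s1
      _ ≤ ENNReal.ofReal ((C1 ^ q) ^ k) *
          (ENNReal.ofReal (C3 * r ^ (-((m : ℝ) / ((k : ℝ) - 1)))) *
            (ENNReal.ofReal (((C2 * r ^ d) ^ q) ^ k) * X)) := by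
          gcongr
          exact hLW.trans (by gcongr)
      _ = ENNReal.ofReal ((C1 ^ q) ^ k * (C3 * r ^ (-((m : ℝ) / ((k : ℝ) - 1)))) *
        ((C2 * r ^ d) ^ q) ^ k) * X := by
          have t3 : ∀ A B D : ℝ, 0 ≤ A → 0 ≤ B → ENNReal.ofReal (A * B * D) =
              ENNReal.ofReal A * ENNReal.ofReal B * ENNReal.ofReal D := by
            intro A B D hA hB
            rw [ENNReal.ofReal_mul (by positivity), ENNReal.ofReal_mul hA]
          rw [t3 _ _ _ (by positivity) (by positivity)]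
          ring
      _ = _ := by rw [s3]
  have hρd : ENNReal.ofReal (ρ ^ (d + 1)) * ENNReal.ofReal ((ρ ^ (d + 1))⁻¹) = 1 := by
    rw [← ENNReal.ofReal_mul (by positivity), mul_inv_cancel₀ (by positivity), ENNReal.ofReal_one]
  calc ∫⁻ a in Qb c ρ, ∏ i, EU r (b i) (z + Ps v g a) ^ q
      ≤ ENNReal.ofReal ((C1 ^ q) ^ k * C3 * (C2 ^ q) ^ k * r ^ (d + 1)) * X := hmain
    _ = ENNReal.ofReal ((C1 ^ q) ^ k * C3 * (C2 ^ q) ^ k * r ^ (d + 1)) *
        ENNReal.ofReal ((ρ ^ (d + 1))⁻¹) * (X * ENNReal.ofReal (ρ ^ (d + 1))) := by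
        calc _ = ENNReal.ofReal ((C1 ^ q) ^ k * C3 * (C2 ^ q) ^ k * r ^ (d + 1)) * X * 1 := by
              rw [mul_one]
          _ = _ := by rw [← hρd]; ring
    _ ≤ ENNReal.ofReal ((C1 ^ q) ^ k * C3 * (C2 ^ q) ^ k * r ^ (d + 1)) *
        ENNReal.ofReal ((ρ ^ (d + 1))⁻¹) * (ENNReal.ofReal ((C1 ^ q) ^ k) *
      ∫⁻ a in Qb c ρ, ∏ i, EU ρ (b i) (z + Ps v g a) ^ q) := by gcongr
    _ = _ := by
        rw [← mul_assoc, ← ENNReal.ofReal_mul (by positivity),
          ← ENNReal.ofReal_mul (by positivity)]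
        congr 2
        rw [hρ, mul_pow]
        field_simp

end

end Pool.Agent.H84.KL
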