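import Pool.Agent.H84.KL.PHN
import Pool.Agent.H84.KL.WT

/-! Transport of the energy along light rays. -/

open MeasureTheory Set
open scoped ENNReal NNReal RealInnerProductSpace Topology

namespace Pool.Agent.H84.KL

noncomputable section

variable {d : ℕ}

/-- the symbol at time `t` -/
def bt (b : E d → ℂ) (t : ℝ) (ξ : E d) : ℂ := e (t * ‖ξ‖) * b ξ

lemma U_eq_Fi (b : E d → ℂ) (x : E d) (t : ℝ) : U b x t = Fi (bt b t) x := by
  unfold U Fi bt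
  congr 1; ext ξ
  rw [e_add]; ring

/-- if `b` vanishes near `0` then `bt b t` is a test function -/
lemma TC_bt {b : E d → ℂ} (hb : TC b) (h0 : (0 : E d) ∉ tsupport b) (t : ℝ) : TC (bt b t) := by
  refine ⟨?_, hb.2.mul_left⟩
  rw [contDiff_iff_contDiffAt]
  intro ξ
  unfold bt
  rcases eq_or_ne ξ 0 with h | h
  · subst h
    have h1 : b =ᶠ[𝓝 0] 0 := notMem_tsupport_iff_eventuallyEq.1 h0
    have h2 : (fun ξ : E d => e (t * ‖ξ‖) * b ξ) =ᶠ[𝓝 0] fun _ => 0 := by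
      filter_upwards [h1] with ξ hξ
      rw [hξ]; simp
    exact contDiffAt_const.congr_of_eventuallyEq h2
  · refine ContDiffAt.mul ?_ hb.1.contDiffAt
    exact contDiff_e.contDiffAt.comp ξ (contDiffAt_const.mul (contDiffAt_norm ℝ h))

lemma tsupport_ball {b : E d → ℂ} {ξ0 : E d} {δ : ℝ} (hb : TS (Metric.ball ξ0 δ) b) :
    tsupport b ⊆ Metric.closedBall ξ0 δ :=
  closure_minimal (hb.2.trans Metric.ball_subset_closedBall) Metric.isClosed_closedBall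

theorem trn (Γ : Set (E d)) (C1 : ℝ) (hΓ : IsCompact Γ) (h0 : (0 : E d) ∉ Γ) :
    ∃ (C δ0 : ℝ), 0 < C ∧ 0 < δ0 ∧ δ0 ≤ 1 ∧ (∀ ξ0 ∈ Γ, ∀ ξ, ‖ξ - ξ0‖ ≤ δ0 → ξ ≠ 0) ∧
    ∀ (ξ0 : E d) (δ r s : ℝ) (h : E d) (b : E d → ℂ), ξ0 ∈ Γ → 0 < δ → δ ≤ δ0 →
    1 ≤ δ * r → |s| * δ ≤ C1 * r → ‖h‖ ≤ C1 * r → TS (Metric.ball ξ0 δ) b → ∀ z : E d × ℝ,
    EU r b (z.1 + s • (-(‖ξ0‖⁻¹ • ξ0)) + h, z.2 + s) ≤ ENNReal.ofReal C * EU r b z := by
  obtain ⟨A, δ0, hA, hδ0, hδ01, hne, hm⟩ := phm Γ C1 hΓ h0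
  obtain ⟨C2, hC2, hslow⟩ := wt_slow (d := d) C1
  have hCg : 0 ≤ Cg d A := by unfold Cg; positivity
  refine ⟨C2 * (Cg d A + 1), δ0, by positivity, hδ0, hδ01, hne, ?_⟩
  intro ξ0 δ r s h b hξ0 hδ hδle hδr hs hh hb z
  obtain ⟨m, hmT, hm1, hm2, hm3⟩ := hm ξ0 δ r s hξ0 hδ hδle hδr hs
  have hr : 0 < r := by
    by_contra hneg
    push Not at hneg
    have : δ * r ≤ 0 := mul_nonpos_of_nonneg_of_nonpos hδ.le hneg
    linarith
  set ω := ‖ξ0‖⁻¹ • ξ0 with hω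
  have h0b : (0 : E d) ∉ tsupport b := by
    intro hmem
    have := tsupport_ball hb hmem
    rw [Metric.mem_closedBall, dist_eq_norm] at this
    exact hne ξ0 hξ0 0 (this.trans hδle) rfl
  have hbt := TC_bt hb.1 h0b z.2
  have hU : ∀ x : E d, U b x (z.2 + s) = Fi (fun ξ => m ξ * bt b z.2 ξ) (x + s • ω) := by
    intro x
    unfold U Fi bt
    congr 1; ext ξ
    by_cases hbξ : b ξ = 0
    · simp [hbξ]
    · have hξ : ξ ∈ Metric.ball ξ0 δ := hb.2 hbξ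
      rw [Metric.mem_ball, dist_eq_norm] at hξ
      simp only [hm1 ξ hξ.le]
      have : ⟪x, ξ⟫ + (z.2 + s) * ‖ξ‖ = ⟪x + s • ω, ξ⟫ + (s * (‖ξ‖ - ⟪ω, ξ⟫) + z.2 * ‖ξ‖) := by
        rw [inner_add_left, real_inner_smul_left]; ring
      rw [this, e_add, e_add]
      ring
  have key := mul_lem r A hr m (bt b z.2) hmT hbt hm2 hm3 z.1
  have e1 : EU r b (z.1 + s • (-ω) + h, z.2 + s) ≤ ENNReal.ofReal C2 *
      En r z.1 (Fi (fun ξ => m ξ * bt b z.2 ξ)) := by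
    unfold EU En
    simp only [hU]
    rw [← lintegral_const_mul' _ _ ENNReal.ofReal_ne_top,
      ← lintegral_add_right_eq_self _ (-(s • ω))]
    refine lintegral_mono fun x => ?_
    rw [← ENNReal.ofReal_mul hC2.le]
    refine ENNReal.ofReal_le_ofReal ?_
    have a1 : x + -(s • ω) - (z.1 + s • -ω + h) = (x - z.1) + (-h) := by
      rw [smul_neg]; abel
    have a2 : x + -(s • ω) + s • ω = x := by abel
    rw [a1, a2]
    have a3 := hslow r (x - z.1) (-h) hr (by rwa [norm_neg])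
    rw [← mul_assoc]
    gcongr
  have e2 : En r z.1 (Fi (bt b z.2)) = EU r b z := by
    unfold EU
    congr 1
    ext x
    rw [U_eq_Fi]
  rw [e2] at key
  refine e1.trans ((mul_le_mul' le_rfl key).trans ?_)
  rw [← mul_assoc, ← ENNReal.ofReal_mul hC2.le]
  gcongr
  linarith

/-- monotonicity in the scale -/
lemma EU_mono (b : E d → ℂ) (z : E d × ℝ) (r r' : ℝ) (hr : 0 < r) (h : r ≤ r') :
    EU r b z ≤ EU r' b z := by
  unfold EU En
  refine lintegral_mono fun x => ENNReal.ofReal_le_ofReal ?_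
  have := wt_mono r r' (x - z.1) hr h
  gcongr

/-- the energy is at most the total energy -/
lemma EU_le (b : E d → ℂ) (hb : TC b) (h0 : (0 : E d) ∉ tsupport b) (z : E d × ℝ) (r : ℝ) :
    EU r b z ≤ l2 b := by
  have hbt := TC_bt hb h0 z.2
  have h1 := lint_sq (toS hbt)
  rw [toS_coe] at h1
  have h2 : ∫⁻ ξ, ENNReal.ofReal (‖bt b z.2 ξ‖ ^ 2) = l2 b := by
    unfold l2 bt
    refine lintegral_congr fun ξ => ?_
    rw [norm_mul, norm_e, one_mul]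
  rw [h2] at h1
  rw [← h1]
  unfold EU En
  refine lintegral_mono fun x => ENNReal.ofReal_le_ofReal ?_
  simp only [U_eq_Fi]
  have h3 := wt_le_one r (x - z.1)
  have h4 : 0 ≤ ‖Fi (bt b z.2) x‖ ^ 2 := by positivity
  nlinarith

end

end Pool.Agent.H84.KL
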